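import Mathlib
import Pool.Agent.TH507.ZS.HSb

/-!
# Sequences of moderate growth modulo rapidly decreasing sequences
-/

set_option autoImplicit false

namespace Pool.Agent.L7h24.CS

open Filter Polynomial
open Pool.Agent.TH507.HS (ev ev_ne_zero ev_one ev_zero ev_add ev_mul ev_neg W mem_W W_mono mul_mem_W Hyp no_tel)

/-- sequences of moderate growth -/
def Mo : Subring (ℕ → ℝ) where
  carrier := {f | ∃ k : ℕ, ∀ᶠ m : ℕ in atTop, |f m| ≤ (m : ℝ) ^ k}
  zero_mem' := ⟨0, Eventually.of_forall fun m => by simp⟩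
  one_mem' := ⟨0, Eventually.of_forall fun m => by simp⟩
  add_mem' := by
    rintro f g ⟨k, hk⟩ ⟨l, hl⟩
    refine ⟨max k l + 1, ?_⟩
    filter_upwards [hk, hl, eventually_ge_atTop 2] with m h1 h2 h3
    have h4 : (2 : ℝ) ≤ m := by exact_mod_cast h3
    have h5 : (m : ℝ) ^ k ≤ (m : ℝ) ^ max k l := pow_le_pow_right₀ (by linarith) (le_max_left _ _)
    have h6 : (m : ℝ) ^ l ≤ (m : ℝ) ^ max k l := pow_le_pow_right₀ (by linarith) (le_max_right _ _)
    have h7 : (0 : ℝ) ≤ (m : ℝ) ^ max k l := by positivity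
    rw [Pi.add_apply, pow_succ]
    have h8 := abs_add_le (f m) (g m)
    nlinarith
  mul_mem' := by
    rintro f g ⟨k, hk⟩ ⟨l, hl⟩
    refine ⟨k + l, ?_⟩
    filter_upwards [hk, hl] with m h1 h2
    rw [Pi.mul_apply, abs_mul, pow_add]
    exact mul_le_mul h1 h2 (abs_nonneg _) (by positivity)
  neg_mem' := by
    rintro f ⟨k, hk⟩
    exact ⟨k, by simpa using hk⟩

/-- rapidly decreasing sequences -/
def Rapid (f : ℕ → ℝ) : Prop := ∀ k : ℕ, ∀ᶠ m : ℕ in atTop, |f m| * (m : ℝ) ^ k ≤ 1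

/-- the ideal of the rapidly decreasing sequences -/
def Ra : Ideal Mo where
  carrier := {f | Rapid f.1}
  zero_mem' := by
    intro k
    refine Eventually.of_forall fun m => ?_
    simp
  add_mem' := by
    intro f g hf hg k
    filter_upwards [hf (k + 1), hg (k + 1), eventually_ge_atTop 2] with m h1 h2 h3
    have h4 : (2 : ℝ) ≤ m := by exact_mod_cast h3
    have h5 : |(f + g).1 m| ≤ |f.1 m| + |g.1 m| := abs_add_le _ _
    rw [pow_succ] at h1 h2
    have h6 : (0 : ℝ) ≤ (m : ℝ) ^ k := by positivity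
    have h7 : |(f + g).1 m| * (m : ℝ) ^ k ≤ (|f.1 m| + |g.1 m|) * (m : ℝ) ^ k :=
      mul_le_mul_of_nonneg_right h5 h6
    have h8 : 0 ≤ (|f.1 m| + |g.1 m|) * (m : ℝ) ^ k := by positivity
    nlinarith
  smul_mem' := by
    intro f g hg k
    obtain ⟨l, hl⟩ := f.2
    filter_upwards [hl, hg (l + k)] with m h1 h2
    have h3 : (f • g).1 m = f.1 m * g.1 m := rfl
    rw [h3, abs_mul]
    calc |f.1 m| * |g.1 m| * (m : ℝ) ^ k ≤ (m : ℝ) ^ l * |g.1 m| * (m : ℝ) ^ k := by gcongr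
      _ = |g.1 m| * (m : ℝ) ^ (l + k) := by rw [pow_add]; ring
      _ ≤ 1 := h2

/-- the ring -/
abbrev RR : Type := Mo ⧸ Ra

/-- the class of a sequence -/
noncomputable def mk (f : Mo) : RR := Ideal.Quotient.mk Ra f

lemma mk_eq {f g : Mo} : mk f = mk g ↔ Rapid (fun m => f.1 m - g.1 m) := by
  rw [mk, mk, Ideal.Quotient.eq]
  rfl

lemma rapid_of_ev_zero {f : ℕ → ℝ} (h : ∀ᶠ m in atTop, f m = 0) : Rapid f := by
  intro k
  filter_upwards [h] with m hm
  rw [hm, abs_zero, zero_mul]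
  exact zero_le_one

lemma mk_eq_of_ev {f g : Mo} (h : ∀ᶠ m in atTop, f.1 m = g.1 m) : mk f = mk g := by
  rw [mk_eq]
  apply rapid_of_ev_zero
  filter_upwards [h] with m hm
  rw [hm, sub_self]

lemma mk_surj (x : RR) : ∃ f, mk f = x := Ideal.Quotient.mk_surjective x

/-- the shift of sequences -/
def sh0 : Mo →+* Mo where
  toFun f := ⟨fun m => f.1 (m + 1), by
    obtain ⟨k, hk⟩ := f.2
    refine ⟨2 * k, ?_⟩
    filter_upwards [(tendsto_add_atTop_nat 1).eventually hk, eventually_ge_atTop 2] with m h1 h2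
    refine h1.trans ?_
    rw [pow_mul]
    apply pow_le_pow_left₀ (by positivity)
    have h3 : (2 : ℝ) ≤ m := by exact_mod_cast h2
    push_cast
    nlinarith⟩
  map_one' := rfl
  map_mul' _ _ := rfl
  map_zero' := rfl
  map_add' _ _ := rfl

lemma sh0_apply (f : Mo) (m : ℕ) : (sh0 f).1 m = f.1 (m + 1) := rfl

lemma rapid_shift {f : ℕ → ℝ} (h : Rapid f) : Rapid fun m => f (m + 1) := by
  intro k
  filter_upwards [(tendsto_add_atTop_nat 1).eventually (h k)] with m h1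
  refine le_trans ?_ h1
  apply mul_le_mul_of_nonneg_left _ (abs_nonneg _)
  apply pow_le_pow_left₀ (by positivity)
  push_cast
  linarith

/-- the shift -/
noncomputable def sig : RR →+* RR := Ideal.quotientMap Ra sh0 (by
  intro f hf
  exact rapid_shift (f := f.1) hf)

lemma sig_mk (f : Mo) : sig (mk f) = mk (sh0 f) := rfl

lemma const_mem (q : ℝ) : (fun _ : ℕ => q) ∈ Mo := by
  refine ⟨1, ?_⟩
  filter_upwards [tendsto_natCast_atTop_atTop.eventually_ge_atTop |q|] with m hm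
  rw [pow_one]
  exact hm

/-- the constants -/
noncomputable def kq : ℚ →+* RR where
  toFun q := mk ⟨fun _ => (q : ℝ), const_mem _⟩
  map_one' := by
    rw [← map_one (Ideal.Quotient.mk Ra)]
    congr 1
    apply Subtype.ext
    funext m
    simp
  map_zero' := by
    rw [← map_zero (Ideal.Quotient.mk Ra)]
    congr 1
    apply Subtype.ext
    funext m
    simp
  map_mul' p q := by
    rw [mk, mk, mk, ← map_mul]
    congr 1
    apply Subtype.ext
    funext m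
    simp
  map_add' p q := by
    rw [mk, mk, mk, ← map_add]
    congr 1
    apply Subtype.ext
    funext m
    simp

lemma kq_apply (q : ℚ) : kq q = mk ⟨fun _ => (q : ℝ), const_mem _⟩ := rfl

/-- eventually a rational function with rational coefficients -/
def IsRat (f : ℕ → ℝ) : Prop :=
  ∃ P Q : ℤ[X], Q ≠ 0 ∧ ∀ᶠ m : ℕ in atTop, f m = ((ev P m / ev Q m : ℚ) : ℝ)

lemma ev_ev_ne {Q : ℤ[X]} (hQ : Q ≠ 0) : ∀ᶠ m : ℕ in atTop, ev Q m ≠ 0 := by
  obtain ⟨B, hB⟩ := ev_ne_zero hQ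
  filter_upwards [eventually_ge_atTop B] with m hm
  rw [ev]
  exact_mod_cast hB m hm

lemma IsRat.add {f g : ℕ → ℝ} (hf : IsRat f) (hg : IsRat g) : IsRat fun m => f m + g m := by
  obtain ⟨P, Q, hQ, h⟩ := hf
  obtain ⟨P', Q', hQ', h'⟩ := hg
  refine ⟨P * Q' + Q * P', Q * Q', mul_ne_zero hQ hQ', ?_⟩
  filter_upwards [h, h', ev_ev_ne hQ, ev_ev_ne hQ'] with m h1 h2 h3 h4
  rw [h1, h2, ev_add, ev_mul, ev_mul, ev_mul, ← div_add_div _ _ h3 h4]
  push_cast
  ring

lemma IsRat.mul {f g : ℕ → ℝ} (hf : IsRat f) (hg : IsRat g) : IsRat fun m => f m * g m := by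
  obtain ⟨P, Q, hQ, h⟩ := hf
  obtain ⟨P', Q', hQ', h'⟩ := hg
  refine ⟨P * P', Q * Q', mul_ne_zero hQ hQ', ?_⟩
  filter_upwards [h, h'] with m h1 h2
  rw [h1, h2, ev_mul, ev_mul, ← div_mul_div_comm]
  push_cast
  ring

lemma ev_C (z : ℤ) (m : ℕ) : ev (C z) m = z := by simp [ev]

lemma IsRat.const (q : ℚ) : IsRat fun _ => (q : ℝ) := by
  refine ⟨C q.num, C (q.den : ℤ), ?_, Eventually.of_forall fun m => ?_⟩
  · rw [Ne, C_eq_zero]
    exact_mod_cast q.den_nz
  · rw [ev_C, ev_C]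
    have h : ((q.num : ℤ) : ℚ) / (((q.den : ℤ)) : ℚ) = q := by exact_mod_cast Rat.num_div_den q
    rw [h]

lemma IsRat.neg {f : ℕ → ℝ} (hf : IsRat f) : IsRat fun m => - f m := by
  have h := (IsRat.const (-1)).mul hf
  refine (congrArg IsRat ?_).mp h
  funext m
  push_cast
  ring

lemma IsRat.sub {f g : ℕ → ℝ} (hf : IsRat f) (hg : IsRat g) : IsRat fun m => f m - g m := by
  have h := hf.add hg.neg
  refine (congrArg IsRat ?_).mp h
  funext m
  ring

lemma IsRat.sum {ι : Type*} (A : Finset ι) (f : ι → ℕ → ℝ) (h : ∀ a ∈ A, IsRat (f a)) :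
    IsRat fun m => ∑ a ∈ A, f a m := by
  classical
  induction A using Finset.induction_on with
  | empty =>
    have := IsRat.const 0
    simpa using this
  | insert a A ha ih =>
    have h1 := (h a (Finset.mem_insert_self _ _)).add (ih fun b hb => h b (Finset.mem_insert_of_mem hb))
    refine (congrArg IsRat ?_).mp h1
    funext m
    rw [Finset.sum_insert ha]

lemma ev_shift (P : ℤ[X]) (m : ℕ) : ev (P.comp (X + C 1)) m = ev P (m + 1) := by
  rw [ev, ev, eval_comp]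
  congr 2
  simp

lemma comp_ne {Q : ℤ[X]} (hQ : Q ≠ 0) : Q.comp (X + C 1) ≠ 0 := by
  intro h
  apply hQ
  have h1 : (Q.comp (X + C 1)).comp (X - C 1) = Q := by
    rw [comp_assoc]
    simp
  rw [← h1, h, zero_comp]

lemma IsRat.shift {f : ℕ → ℝ} (hf : IsRat f) : IsRat fun m => f (m + 1) := by
  obtain ⟨P, Q, hQ, h⟩ := hf
  refine ⟨P.comp (X + C 1), Q.comp (X + C 1), comp_ne hQ, ?_⟩
  filter_upwards [(tendsto_add_atTop_nat 1).eventually h] with m h1
  rw [h1, ev_shift, ev_shift]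

lemma IsRat.congr {f g : ℕ → ℝ} (hf : IsRat f) (h : ∀ᶠ m in atTop, g m = f m) : IsRat g := by
  obtain ⟨P, Q, hQ, h'⟩ := hf
  refine ⟨P, Q, hQ, ?_⟩
  filter_upwards [h, h'] with m h1 h2
  rw [h1, h2]

lemma isRat_inv_pow (a : ℕ) : IsRat fun m => ((((m + 1 : ℕ) : ℝ)) ^ a)⁻¹ := by
  refine ⟨1, (X + C 1) ^ a, pow_ne_zero _ (X_add_C_ne_zero _), Eventually.of_forall fun m => ?_⟩
  rw [ev_one, ev]
  simp

lemma ev_mod (P : ℤ[X]) : ∃ k : ℕ, ∀ᶠ m : ℕ in atTop, |((ev P m : ℚ) : ℝ)| ≤ (m : ℝ) ^ k := by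
  have h : (fun m : ℕ => ((ev P m : ℚ) : ℝ)) ∈ Mo := by
    induction P using Polynomial.induction_on' with
    | add P Q hP hQ =>
      have h1 := Mo.add_mem hP hQ
      refine (congrArg (fun f => f ∈ Mo) ?_).mp h1
      funext m
      rw [Pi.add_apply, ev_add]
      push_cast
      rfl
    | monomial n a =>
      have h1 := Mo.mul_mem (const_mem (a : ℝ)) (show (fun m : ℕ => (m : ℝ) ^ n) ∈ Mo from
        ⟨n, Eventually.of_forall fun m => by rw [abs_of_nonneg (by positivity)]⟩)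
      refine (congrArg (fun f => f ∈ Mo) ?_).mp h1
      funext m
      rw [Pi.mul_apply, ev, eval_monomial]
      push_cast
      rfl
  exact h

lemma IsRat.mo {f : ℕ → ℝ} (hf : IsRat f) : f ∈ Mo := by
  obtain ⟨P, Q, hQ, h⟩ := hf
  obtain ⟨k, hk⟩ := ev_mod P
  refine ⟨k, ?_⟩
  filter_upwards [h, hk, ev_ev_ne hQ] with m h1 h2 h3
  rw [h1]
  push_cast
  rw [abs_div]
  refine le_trans (div_le_self (abs_nonneg _) ?_) h2
  rw [ev] at h3 ⊢
  have h4 : Q.eval (m : ℤ) ≠ 0 := by exact_mod_cast h3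
  have h5 := Int.one_le_abs h4
  have h6 : (1 : ℝ) ≤ ((|Q.eval (m : ℤ)| : ℤ) : ℝ) := by exact_mod_cast h5
  rw [Int.cast_abs] at h6
  simpa using h6

/-- a rapidly decreasing rational function vanishes -/
lemma IsRat.zero_of_rapid {f : ℕ → ℝ} (hf : IsRat f) (hr : Rapid f) : ∀ᶠ m in atTop, f m = 0 := by
  obtain ⟨P, Q, hQ, h⟩ := hf
  by_cases hP : P = 0
  · filter_upwards [h] with m hm
    rw [hm, hP, ev_zero, zero_div, Rat.cast_zero]
  · exfalso
    obtain ⟨k, hk⟩ := ev_mod Q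
    have h1 := (h.and ((hr (k + 1)).and (hk.and ((ev_ev_ne hP).and ((ev_ev_ne hQ).and
      (eventually_ge_atTop 2)))))).exists
    obtain ⟨m, h2, h3, h4, h5, h6, h7⟩ := h1
    have h8 : (1 : ℝ) ≤ |((ev P m : ℚ) : ℝ)| := by
      rw [ev] at h5 ⊢
      have h4 : P.eval (m : ℤ) ≠ 0 := by exact_mod_cast h5
      have h5 := Int.one_le_abs h4
      have h6 : (1 : ℝ) ≤ ((|P.eval (m : ℤ)| : ℤ) : ℝ) := by exact_mod_cast h5
      rw [Int.cast_abs] at h6
      simpa using h6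
    have h9 : (2 : ℝ) ≤ m := by exact_mod_cast h7
    have h10 : 0 < |((ev Q m : ℚ) : ℝ)| := abs_pos.2 (by exact_mod_cast h6)
    rw [h2] at h3
    push_cast at h3
    rw [abs_div, pow_succ] at h3
    have h11 : (1 : ℝ) ≤ |((ev P m : ℚ) : ℝ)| / |((ev Q m : ℚ) : ℝ)| * (m : ℝ) ^ k := by
      rw [div_mul_eq_mul_div, le_div_iff₀ h10, one_mul]
      nlinarith [pow_nonneg (by linarith : (0 : ℝ) ≤ m) k]
    nlinarith

/-- the subring of the rational functions -/
def KK : Subring RR where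
  carrier := {x | ∃ f : Mo, IsRat f.1 ∧ mk f = x}
  zero_mem' := ⟨0, (IsRat.const 0).congr (Eventually.of_forall fun m => by simp), rfl⟩
  one_mem' := ⟨1, (IsRat.const 1).congr (Eventually.of_forall fun m => by simp), rfl⟩
  add_mem' := by
    rintro _ _ ⟨f, hf, rfl⟩ ⟨g, hg, rfl⟩
    exact ⟨f + g, hf.add hg, rfl⟩
  mul_mem' := by
    rintro _ _ ⟨f, hf, rfl⟩ ⟨g, hg, rfl⟩
    exact ⟨f * g, hf.mul hg, rfl⟩
  neg_mem' := by
    rintro _ ⟨f, hf, rfl⟩
    exact ⟨-f, hf.neg, rfl⟩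

end Pool.Agent.L7h24.CS
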