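import Mathlib
import Pool.Agent.Q217.TT.Sums
import Pool.Agent.L7h24.CS.Ring

/-!
# Tails of multiple zeta values, and their independence modulo rapidly decreasing sequences
-/

set_option autoImplicit false

namespace Pool.Agent.L7h24.CS

open Filter Topology
open Pool.Agent.Q217.TT (ep ep_nil ep_self ep_nonneg ep_succ ep_left ep_two_le' ep_mono)
open Pool.Agent.TH507.HS (ev ev_ne_zero ev_one ev_zero ev_add ev_mul ev_neg W mem_W W_mono mul_mem_W Hyp no_tel)

lemma ep_le {p : List ℕ} (hp : ∀ x ∈ p, 2 ≤ x) {M : ℕ} (hM : 1 ≤ M) : ∀ {N : ℕ}, M ≤ N →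
    ep p M N ≤ (1 / (M : ℝ)) ^ p.length := by
  induction p with
  | nil => intro N _; rw [ep_nil]; simp
  | cons s p ih =>
    intro N h
    have hs : 2 ≤ s := hp s List.mem_cons_self
    have hp' : ∀ x ∈ p, 2 ≤ x := fun x hx => hp x (List.mem_cons_of_mem _ hx)
    have h0 : (0 : ℝ) ≤ 1 / (M : ℝ) := by positivity
    rw [ep, List.length_cons, pow_succ, mul_comm]
    have h1 := ep_two_le' hM h
    have h2 : ∀ n ∈ Finset.Ico M N, (((n + 1 : ℕ) : ℝ) ^ s)⁻¹ * ep p M n ≤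
        (((n + 1 : ℕ) : ℝ) ^ 2)⁻¹ * (1 / (M : ℝ)) ^ p.length := by
      intro n hn
      have hn1 := (Finset.mem_Ico.1 hn).1
      refine mul_le_mul ?_ (ih hp' hn1) (ep_nonneg _ _ _) (by positivity)
      apply inv_anti₀ (by positivity)
      apply pow_le_pow_right₀ _ hs
      exact_mod_cast (by omega : 1 ≤ n + 1)
    refine (Finset.sum_le_sum h2).trans ?_
    rw [← Finset.sum_mul]
    have h3 : ∑ n ∈ Finset.Ico M N, (((n + 1 : ℕ) : ℝ) ^ 2)⁻¹ = ep [2] M N := by
      rw [ep]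
      exact Finset.sum_congr rfl fun n _ => by rw [ep_nil, mul_one]
    rw [h3]
    exact mul_le_mul_of_nonneg_right h1 (by positivity)

/-- the tail: the sum of `∏ n_i ^ (- s_i)` over `n_1 > ... > n_a > M` -/
noncomputable def T (p : List ℕ) (M : ℕ) : ℝ := ⨆ N, ep p M (M + N)

lemma tendsto_T {p : List ℕ} (hp : ∀ x ∈ p, 2 ≤ x) {M : ℕ} (hM : 1 ≤ M) :
    Tendsto (fun N => ep p M N) atTop (𝓝 (T p M)) := by
  have h1 : Tendsto (fun N => ep p M (M + N)) atTop (𝓝 (T p M)) := by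
    refine tendsto_atTop_ciSup (fun a b hab => ep_mono (by omega) (by omega)) ?_
    refine ⟨(1 / (M : ℝ)) ^ p.length, ?_⟩
    rintro _ ⟨N, rfl⟩
    exact ep_le hp hM (by omega)
  rw [← tendsto_add_atTop_iff_nat M]
  refine h1.congr fun N => ?_
  rw [add_comm]

lemma ep_le_T {p : List ℕ} (hp : ∀ x ∈ p, 2 ≤ x) {M : ℕ} (hM : 1 ≤ M) {N : ℕ} (h : M ≤ N) :
    ep p M N ≤ T p M := by
  refine ge_of_tendsto (tendsto_T hp hM) ?_
  filter_upwards [eventually_ge_atTop N] with N' hN'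
  exact ep_mono h hN'

lemma T_nonneg {p : List ℕ} (hp : ∀ x ∈ p, 2 ≤ x) {M : ℕ} (hM : 1 ≤ M) : 0 ≤ T p M :=
  (ep_nonneg p M M).trans (ep_le_T hp hM le_rfl)

lemma T_le {p : List ℕ} (hp : ∀ x ∈ p, 2 ≤ x) {M : ℕ} (hM : 1 ≤ M) : T p M ≤ (1 / (M : ℝ)) ^ p.length := by
  refine le_of_tendsto (tendsto_T hp hM) ?_
  filter_upwards [eventually_ge_atTop M] with N hN
  exact ep_le hp hM hN

lemma T_nil {M : ℕ} (hM : 1 ≤ M) : T [] M = 1 := by
  have h1 := tendsto_T (p := []) (by simp) hM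
  refine tendsto_nhds_unique h1 ?_
  simp only [ep_nil]
  exact tendsto_const_nhds

lemma T_left {p : List ℕ} (hp : ∀ x ∈ p, 2 ≤ x) {s : ℕ} (hs : 2 ≤ s) {M : ℕ} (hM : 1 ≤ M) :
    T (p ++ [s]) M = T (p ++ [s]) (M + 1) + (((M + 1 : ℕ) : ℝ) ^ s)⁻¹ * T p (M + 1) := by
  have hps : ∀ x ∈ p ++ [s], 2 ≤ x := by
    intro x hx
    rcases List.mem_append.1 hx with h | h
    · exact hp x h
    · rw [List.mem_singleton.1 h]; exact hs
  refine tendsto_nhds_unique (tendsto_T hps hM) ?_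
  refine Tendsto.congr' ?_ ((tendsto_T hps (by omega : 1 ≤ M + 1)).add
    ((tendsto_T hp (by omega : 1 ≤ M + 1)).const_mul _))
  filter_upwards [eventually_ge_atTop (M + 1)] with N hN
  exact (ep_left p s hN).symm

/-! ### The abstract theorem -/

/-- the word of letters `a + 2`, the first letter of `w` is the last one -/
def wd (w : List ℕ) : List ℕ := (w.map (fun a => a + 2)).reverse

lemma wd_ge (w : List ℕ) : ∀ x ∈ wd w, 2 ≤ x := by
  intro x hx
  rw [wd, List.mem_reverse, List.mem_map] at hx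
  obtain ⟨a, _, rfl⟩ := hx
  omega

lemma wd_cons (a : ℕ) (w : List ℕ) : wd (a :: w) = wd w ++ [a + 2] := by
  rw [wd, wd, List.map_cons, List.reverse_cons]

lemma T_mem (w : List ℕ) : T (wd w) ∈ Mo := by
  refine ⟨0, ?_⟩
  filter_upwards [eventually_ge_atTop 1] with m hm
  rw [abs_of_nonneg (T_nonneg (wd_ge w) hm), pow_zero]
  refine (T_le (wd_ge w) hm).trans (pow_le_one₀ (by positivity) ?_)
  have h1 : (1 : ℝ) ≤ m := by exact_mod_cast hm
  rw [div_le_one (by linarith)]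
  exact h1

/-- the classes of the tails -/
noncomputable def yw (w : List ℕ) : RR := mk ⟨T (wd w), T_mem w⟩

lemma f_mem (a : ℕ) : (fun m : ℕ => -((((m + 1 : ℕ) : ℝ)) ^ (a + 2))⁻¹) ∈ Mo := (isRat_inv_pow _).neg.mo

/-- the letters -/
noncomputable def fa (a : ℕ) : RR := mk ⟨_, f_mem a⟩

lemma yw_nil : yw [] = 1 := by
  have : (1 : RR) = mk 1 := rfl
  rw [this, yw]
  apply mk_eq_of_ev
  filter_upwards [eventually_ge_atTop 1] with m hm
  exact T_nil hm

lemma sig_yw (a : ℕ) (w : List ℕ) : sig (yw (a :: w)) - yw (a :: w) = fa a * sig (yw w) := by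
  have h : sig (yw (a :: w)) = yw (a :: w) + fa a * sig (yw w) := by
    rw [yw, yw, sig_mk, sig_mk, fa]
    change mk _ = mk (_ + _ * _)
    apply mk_eq_of_ev
    filter_upwards [eventually_ge_atTop 1] with m hm
    change T (wd (a :: w)) (m + 1) = T (wd (a :: w)) m + -((((m + 1 : ℕ) : ℝ)) ^ (a + 2))⁻¹ * T (wd w) (m + 1)
    rw [wd_cons, T_left (wd_ge w) (by omega : 2 ≤ a + 2) hm]
    ring
  rw [h]
  ring

lemma fa_mem (a : ℕ) : fa a ∈ KK := ⟨_, (isRat_inv_pow _).neg, rfl⟩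

lemma step (w : List ℕ) : sig (yw w) - yw w ∈ W KK yw w.length := by
  induction w with
  | nil => rw [yw_nil, map_one, sub_self]; exact (W _ _ _).zero_mem
  | cons a w ih =>
    rw [sig_yw]
    refine mul_mem_W (fa_mem a) ?_
    have h1 := W_mono (K := KK) (y := yw) (Nat.le_succ w.length) ih
    have h2 : yw w ∈ W KK yw (w.length + 1) := mem_W (Nat.lt_succ_self _)
    have h3 := (W _ _ _).add_mem h1 h2
    rwa [sub_add_cancel] at h3

theorem hyp : Hyp KK yw sig fa kq where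
  inv := by
    rintro _ ⟨f, hf, rfl⟩ hne
    obtain ⟨P, Q, hQ, h⟩ := hf
    have hP : P ≠ 0 := by
      rintro rfl
      apply hne
      have : (0 : RR) = mk 0 := rfl
      rw [this]
      apply mk_eq_of_ev
      filter_upwards [h] with m hm
      rw [hm, ev_zero, zero_div, Rat.cast_zero]
      rfl
    have hg : IsRat fun m => ((ev Q m / ev P m : ℚ) : ℝ) := ⟨Q, P, hP, Eventually.of_forall fun m => rfl⟩
    refine ⟨mk ⟨_, hg.mo⟩, ⟨_, hg, rfl⟩, ?_⟩
    have : (1 : RR) = mk 1 := rfl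
    rw [this]
    change mk (_ * _) = mk 1
    apply mk_eq_of_ev
    filter_upwards [h, ev_ev_ne hP, ev_ev_ne hQ] with m h1 h2 h3
    change f.1 m * ((ev Q m / ev P m : ℚ) : ℝ) = 1
    rw [h1, ← Rat.cast_mul]
    have : ev P m / ev Q m * (ev Q m / ev P m) = 1 := by field_simp
    rw [this, Rat.cast_one]
  nontriv := by
    intro h
    have h1 : mk 1 = mk 0 := h
    rw [mk_eq] at h1
    obtain ⟨m, hm, hm2⟩ := ((h1 1).and (eventually_ge_atTop 2)).exists
    have h3 : (2 : ℝ) ≤ m := by exact_mod_cast hm2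
    have h4 : (1 : Mo).1 m - (0 : Mo).1 m = 1 := sub_zero _
    simp only [h4, abs_one, one_mul, pow_one] at hm
    linarith
  stable := by
    rintro _ ⟨f, hf, rfl⟩
    exact ⟨sh0 f, hf.shift, (sig_mk f).symm⟩
  fK := fa_mem
  const := by
    rintro _ ⟨f, hf, rfl⟩ hx
    rw [sig_mk, mk_eq] at hx
    have h1 := (hf.shift.sub hf).zero_of_rapid hx
    obtain ⟨P, Q, hQ, h⟩ := hf
    obtain ⟨m0, hm0⟩ := eventually_atTop.1 (h1.and h)
    refine ⟨ev P m0 / ev Q m0, ?_⟩
    rw [kq_apply]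
    apply mk_eq_of_ev
    filter_upwards [eventually_ge_atTop m0] with m hm
    induction m, hm using Nat.le_induction with
    | base => exact (hm0 m0 le_rfl).2
    | succ m hm ih => rw [← ih, sub_eq_zero.1 (hm0 m hm).1]
  nil := yw_nil
  recu := by
    intro a w
    rw [sig_yw]
    have : fa a * sig (yw w) - fa a * yw w = fa a * (sig (yw w) - yw w) := by ring
    rw [this]
    exact mul_mem_W (fa_mem a) (step w)
  tel := by
    rintro A c ⟨a0, ha0, hc0⟩ _ ⟨f, hf, rfl⟩ hrel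
    have hsum : ∑ a ∈ A, kq (c a) * fa a =
        mk ⟨fun m => ∑ a ∈ A, (c a : ℝ) * -((((m + 1 : ℕ) : ℝ)) ^ (a + 2))⁻¹,
          (IsRat.sum A _ fun a _ => (IsRat.const (c a)).mul (isRat_inv_pow _).neg).mo⟩ := by
      have h1 : ∀ a, kq (c a) * fa a = mk (⟨fun _ => (c a : ℝ), const_mem _⟩ * ⟨_, f_mem a⟩) := fun a => rfl
      rw [Finset.sum_congr rfl fun a _ => h1 a]
      unfold mk
      rw [← map_sum]
      congr 1
      apply Subtype.ext
      funext m
      rw [AddSubmonoidClass.coe_finsetSum, Finset.sum_apply]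
      rfl
    rw [hsum, sig_mk] at hrel
    have hrel' : mk (sh0 f - f) = mk ⟨fun m => ∑ a ∈ A, (c a : ℝ) * -((((m + 1 : ℕ) : ℝ)) ^ (a + 2))⁻¹,
          (IsRat.sum A _ fun a _ => (IsRat.const (c a)).mul (isRat_inv_pow _).neg).mo⟩ := hrel
    rw [mk_eq] at hrel'
    have h2 := ((hf.shift.sub hf).sub
      (IsRat.sum A (fun a m => (c a : ℝ) * -((((m + 1 : ℕ) : ℝ)) ^ (a + 2))⁻¹)
        fun a _ => (IsRat.const (c a)).mul (isRat_inv_pow _).neg)).zero_of_rapid hrel'
    obtain ⟨P, Q, hQ, h⟩ := hf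
    obtain ⟨m0, hm0⟩ := eventually_atTop.1 (h2.and (h.and ((tendsto_add_atTop_nat 1).eventually h)))
    -- reindex
    set e : ℕ ↪ ℕ+ := ⟨fun a => ⟨a + 2, by omega⟩, fun a b hab => by
      have := congrArg PNat.val hab
      simpa using this⟩ with he
    have hback : ∀ (P : Polynomial ℤ) (m : ℕ), ev (P.comp (Polynomial.X - Polynomial.C 1)) (1 + 1 * m) = ev P m := by
      intro P m
      rw [ev, ev, Polynomial.eval_comp]
      congr 2
      simp
    refine no_tel 1 le_rfl (A.map e) (fun b => - c ((b : ℕ) - 2)) ⟨e a0, Finset.mem_map_of_mem _ ha0, ?_⟩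
      (P.comp (Polynomial.X - Polynomial.C 1)) (Q.comp (Polynomial.X - Polynomial.C 1)) ?_ m0 ?_
    · change - c (a0 + 2 - 2) ≠ 0
      rw [Nat.add_sub_cancel, neg_ne_zero]
      exact hc0
    · intro h
      apply hQ
      have h1 : (Q.comp (Polynomial.X - Polynomial.C 1)).comp (Polynomial.X + Polynomial.C 1) = Q := by
        rw [Polynomial.comp_assoc]
        simp
      rw [← h1, h, Polynomial.zero_comp]
    · intro m hm
      obtain ⟨h3, h4, h5⟩ := hm0 m hm
      rw [hback, hback, hback, hback, Finset.sum_map]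
      have h6 : ∀ a, -c (((e a : ℕ+) : ℕ) - 2) * ∑ j ∈ Finset.range 1, (1 / ((1 + 1 * m + j : ℕ) : ℚ)) ^ ((e a : ℕ+) : ℕ) =
          c a * -(((m + 1 : ℕ) : ℚ) ^ (a + 2))⁻¹ := by
        intro a
        have h7 : ((e a : ℕ+) : ℕ) = a + 2 := rfl
        rw [h7, Nat.add_sub_cancel, Finset.sum_range_one, one_div, inv_pow,
          show 1 + 1 * m + 0 = m + 1 by ring]
        ring
      rw [Finset.sum_congr rfl fun a _ => h6 a]
      rw [h4, h5] at h3
      have h8 := sub_eq_zero.1 h3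
      have h9 : (((ev P (m + 1) / ev Q (m + 1) - ev P m / ev Q m : ℚ)) : ℝ) =
          ((∑ a ∈ A, c a * -(((m + 1 : ℕ) : ℚ) ^ (a + 2))⁻¹ : ℚ) : ℝ) := by
        rw [Rat.cast_sub, h8]
        push_cast
        rfl
      exact_mod_cast h9

/-- **Independence of the tails modulo rapidly decreasing sequences** -/
theorem indep (U : Finset (List ℕ)) (c : List ℕ → ℚ)
    (h : Rapid fun m => ∑ w ∈ U, (c w : ℝ) * T (wd w) m) : ∀ w ∈ U, c w = 0 := by
  have hlen : ∃ t, ∀ w ∈ U, w.length < t := by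
    refine ⟨∑ w ∈ U, w.length + 1, fun w hw => ?_⟩
    have := Finset.single_le_sum (f := fun w : List ℕ => w.length) (fun _ _ => Nat.zero_le _) hw
    omega
  obtain ⟨t, ht⟩ := hlen
  have h1 := hyp.indep t U (fun u => kq (c u)) ht (fun w => ⟨_, IsRat.const (c w), rfl⟩) ?_
  · intro u hu
    have h2 : mk ⟨fun _ => (c u : ℝ), const_mem _⟩ = mk 0 := h1 u hu
    rw [mk_eq] at h2
    have h3 := ((IsRat.const (c u)).sub (IsRat.const 0)).zero_of_rapid (by
      intro k
      have := h2 k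
      simpa using this)
    obtain ⟨m, hm⟩ := h3.exists
    have : ((c u : ℚ) : ℝ) = 0 := by simpa using hm
    exact_mod_cast this
  · have h3 : ∀ u, kq (c u) * yw u = mk (⟨fun _ => (c u : ℝ), const_mem _⟩ * ⟨T (wd u), T_mem u⟩) := fun u => rfl
    rw [Finset.sum_congr rfl fun u _ => h3 u]
    unfold mk
    rw [← map_sum]
    have h4 : (0 : RR) = mk 0 := rfl
    rw [h4]
    change mk _ = mk 0
    rw [mk_eq]
    refine (congrArg Rapid ?_).mp h
    funext m
    rw [AddSubmonoidClass.coe_finsetSum, Finset.sum_apply]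
    change _ = _ - (0 : ℝ)
    rw [sub_zero]
    rfl

end Pool.Agent.L7h24.CS
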