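import Mathlib
import Pool.Agent.L7h24.CS.Tail

/-!
# Asymptotic expansions of the tails of multiple zeta values
-/

set_option autoImplicit false

namespace Pool.Agent.L7h24.CS

open Filter Topology Polynomial

/-- `f` has an asymptotic expansion in powers of `1 / m` with rational coefficients -/
def AE (f : ℕ → ℝ) : Prop :=
  ∀ E : ℕ, ∃ (P : ℚ[X]) (C : ℝ), ∀ m : ℕ, 1 ≤ m → |f m - aeval (1 / (m : ℝ)) P| ≤ C * (1 / (m : ℝ)) ^ E

lemma x_nonneg (m : ℕ) : (0 : ℝ) ≤ 1 / (m : ℝ) := by positivity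

lemma x_le_one (m : ℕ) : 1 / (m : ℝ) ≤ 1 := by
  rcases Nat.eq_zero_or_pos m with rfl | h
  · simp
  · rw [div_le_one (by exact_mod_cast h)]
    exact_mod_cast h

lemma poly_bdd (P : ℚ[X]) : ∃ B : ℝ, 0 ≤ B ∧ ∀ m : ℕ, |aeval (1 / (m : ℝ)) P| ≤ B := by
  have h1 : Continuous fun t : ℝ => aeval t P := Polynomial.continuous_aeval P
  obtain ⟨B, hB⟩ := (isCompact_Icc (a := (0 : ℝ)) (b := 1)).exists_bound_of_continuousOn h1.continuousOn
  refine ⟨max B 0, le_max_right _ _, fun m => ?_⟩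
  have := hB (1 / (m : ℝ)) ⟨x_nonneg m, x_le_one m⟩
  rw [Real.norm_eq_abs] at this
  exact this.trans (le_max_left _ _)

lemma AE.bdd {f : ℕ → ℝ} (hf : AE f) : ∃ B : ℝ, 0 ≤ B ∧ ∀ m : ℕ, 1 ≤ m → |f m| ≤ B := by
  obtain ⟨P, C, h⟩ := hf 0
  obtain ⟨B, hB0, hB⟩ := poly_bdd P
  refine ⟨|C| + B, by positivity, fun m hm => ?_⟩
  have h1 := h m hm
  rw [pow_zero, mul_one] at h1
  have h2 := hB m
  have h3 : f m = (f m - aeval (1 / (m : ℝ)) P) + aeval (1 / (m : ℝ)) P := by ring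
  rw [h3]
  refine (abs_add_le _ _).trans ?_
  linarith [le_abs_self C]

lemma AE.poly (P : ℚ[X]) : AE fun m => aeval (1 / (m : ℝ)) P := by
  intro E
  refine ⟨P, 0, fun m _ => ?_⟩
  simp

lemma AE.const (q : ℚ) : AE fun _ => (q : ℝ) := by
  have h := AE.poly (C q)
  refine (congrArg AE ?_).mp h
  funext m
  simp

lemma AE.x : AE fun m => 1 / (m : ℝ) := by
  have h := AE.poly X
  refine (congrArg AE ?_).mp h
  funext m
  simp

lemma AE.add {f g : ℕ → ℝ} (hf : AE f) (hg : AE g) : AE fun m => f m + g m := by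
  intro E
  obtain ⟨P, C, h⟩ := hf E
  obtain ⟨Q, D, h'⟩ := hg E
  refine ⟨P + Q, C + D, fun m hm => ?_⟩
  rw [map_add, add_sub_add_comm, add_mul]
  exact (abs_add_le _ _).trans (add_le_add (h m hm) (h' m hm))

lemma AE.mul {f g : ℕ → ℝ} (hf : AE f) (hg : AE g) : AE fun m => f m * g m := by
  intro E
  obtain ⟨P, C, h⟩ := hf E
  obtain ⟨Q, D, h'⟩ := hg E
  obtain ⟨Bg, hBg0, hBg⟩ := hg.bdd
  obtain ⟨BP, hBP0, hBP⟩ := poly_bdd P
  refine ⟨P * Q, C * Bg + BP * D, fun m hm => ?_⟩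
  have h1 : f m * g m - aeval (1 / (m : ℝ)) (P * Q) =
      (f m - aeval (1 / (m : ℝ)) P) * g m + aeval (1 / (m : ℝ)) P * (g m - aeval (1 / (m : ℝ)) Q) := by
    rw [map_mul]
    ring
  rw [h1]
  refine (abs_add_le _ _).trans ?_
  rw [abs_mul, abs_mul, add_mul]
  refine add_le_add ?_ ?_
  · have h2 := h m hm
    have h3 : 0 ≤ C * (1 / (m : ℝ)) ^ E := (abs_nonneg _).trans h2
    calc _ ≤ C * (1 / (m : ℝ)) ^ E * Bg := mul_le_mul h2 (hBg m hm) (abs_nonneg _) h3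
      _ = _ := by ring
  · calc _ ≤ BP * (D * (1 / (m : ℝ)) ^ E) := mul_le_mul (hBP m) (h' m hm) (abs_nonneg _) hBP0
      _ = _ := by ring

lemma AE.congr {f g : ℕ → ℝ} (hf : AE f) (h : ∀ m, 1 ≤ m → g m = f m) : AE g := by
  intro E
  obtain ⟨P, C, h'⟩ := hf E
  refine ⟨P, C, fun m hm => ?_⟩
  rw [h m hm]
  exact h' m hm

lemma AE.pow {f : ℕ → ℝ} (hf : AE f) (k : ℕ) : AE fun m => f m ^ k := by
  induction k with
  | zero => simpa using AE.const 1
  | succ k ih =>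
    refine (ih.mul hf).congr fun m _ => pow_succ _ _

lemma AE.comp {f : ℕ → ℝ} (hf : AE f) (P : ℚ[X]) : AE fun m => aeval (f m) P := by
  induction P using Polynomial.induction_on' with
  | add P Q hP hQ =>
    refine (hP.add hQ).congr fun m _ => ?_
    rw [map_add]
  | monomial n a =>
    refine ((AE.const a).mul (hf.pow n)).congr fun m _ => ?_
    rw [aeval_monomial]
    simp

/-- `1 / (1 + x)` -/
lemma AE.inv1 : AE fun m => 1 / (1 + 1 / (m : ℝ)) := by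
  intro E
  refine ⟨∑ i ∈ Finset.range E, (-X) ^ i, 1, fun m hm => ?_⟩
  have h0 := x_nonneg m
  set x := 1 / (m : ℝ) with hx
  have h1 : aeval x (∑ i ∈ Finset.range E, (-X : ℚ[X]) ^ i) = ∑ i ∈ Finset.range E, (-x) ^ i := by
    rw [map_sum]
    refine Finset.sum_congr rfl fun i _ => ?_
    rw [map_pow, map_neg, aeval_X]
  have h2 := mul_neg_geom_sum (-x) E
  rw [sub_neg_eq_add] at h2
  have h3 : 1 / (1 + x) - ∑ i ∈ Finset.range E, (-x) ^ i = (-x) ^ E / (1 + x) := by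
    field_simp
    rw [h2]
    ring
  rw [h1, h3, abs_div, abs_pow, abs_neg, abs_of_nonneg h0, abs_of_pos (by linarith : 0 < 1 + x), one_mul]
  exact div_le_self (by positivity) (by linarith)

lemma x_succ {m : ℕ} (hm : 1 ≤ m) : 1 / ((m + 1 : ℕ) : ℝ) = 1 / (m : ℝ) * (1 / (1 + 1 / (m : ℝ))) := by
  have : (0 : ℝ) < m := by exact_mod_cast hm
  push_cast
  field_simp

lemma x_succ_le (m : ℕ) (hm : 1 ≤ m) : 1 / ((m + 1 : ℕ) : ℝ) ≤ 1 / (m : ℝ) := by
  have : (0 : ℝ) < m := by exact_mod_cast hm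
  apply one_div_le_one_div_of_le this
  push_cast
  linarith

lemma AE.xs : AE fun m => 1 / ((m + 1 : ℕ) : ℝ) :=
  (AE.x.mul AE.inv1).congr fun m hm => x_succ hm

lemma AE.shift {f : ℕ → ℝ} (hf : AE f) : AE fun m => f (m + 1) := by
  intro E
  obtain ⟨P, C, h⟩ := hf E
  obtain ⟨Q, D, h'⟩ := AE.xs.comp P E
  refine ⟨Q, |C| + D, fun m hm => ?_⟩
  have h1 := h (m + 1) (by omega)
  have h2 := h' m hm
  have h3 : f (m + 1) - aeval (1 / (m : ℝ)) Q = (f (m + 1) - aeval (1 / ((m + 1 : ℕ) : ℝ)) P) +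
      (aeval (1 / ((m + 1 : ℕ) : ℝ)) P - aeval (1 / (m : ℝ)) Q) := by ring
  rw [h3, add_mul]
  refine (abs_add_le _ _).trans (add_le_add (h1.trans ?_) h2)
  have h4 : (1 / ((m + 1 : ℕ) : ℝ)) ^ E ≤ (1 / (m : ℝ)) ^ E :=
    pow_le_pow_left₀ (x_nonneg _) (x_succ_le m hm) _
  calc C * (1 / ((m + 1 : ℕ) : ℝ)) ^ E ≤ |C| * (1 / ((m + 1 : ℕ) : ℝ)) ^ E :=
        mul_le_mul_of_nonneg_right (le_abs_self C) (by positivity)
    _ ≤ _ := mul_le_mul_of_nonneg_left h4 (abs_nonneg _)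

/-- the first two terms of the powers of `x / (1 + x)` -/
lemma two_terms (s : ℕ) : ∃ g : ℕ → ℝ, AE g ∧ ∀ m, 1 ≤ m → (1 / ((m + 1 : ℕ) : ℝ)) ^ s =
    (1 / (m : ℝ)) ^ s - s * (1 / (m : ℝ)) ^ (s + 1) + (1 / (m : ℝ)) ^ (s + 2) * g m := by
  induction s with
  | zero => exact ⟨fun _ => 0, by simpa using AE.const 0, fun _ _ => by simp⟩
  | succ s ih =>
    obtain ⟨g, hg, h⟩ := ih
    -- `x / (1 + x) = x - x ^ 2 + x ^ 3 / (1 + x)`
    have h1 : ∀ m : ℕ, 1 ≤ m → 1 / ((m + 1 : ℕ) : ℝ) =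
        1 / (m : ℝ) - (1 / (m : ℝ)) ^ 2 + (1 / (m : ℝ)) ^ 3 * (1 / (1 + 1 / (m : ℝ))) := by
      intro m hm
      rw [x_succ hm]
      have h0 := x_nonneg m
      generalize 1 / (m : ℝ) = x at h0 ⊢
      have : 1 + x ≠ 0 := by linarith
      field_simp
      ring
    refine ⟨fun m => (1 / (1 + 1 / (m : ℝ))) + s + (-(s : ℝ)) * (1 / (m : ℝ)) * (1 / (1 + 1 / (m : ℝ))) +
      g m + (-1) * (1 / (m : ℝ)) * g m + (1 / (m : ℝ)) ^ 2 * (g m * (1 / (1 + 1 / (m : ℝ)))), ?_, ?_⟩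
    · have e1 : AE fun _ => (s : ℝ) := by simpa using AE.const (s : ℚ)
      have e2 : AE fun _ => (-(s : ℝ)) := by simpa using AE.const (-(s : ℚ))
      have e3 : AE fun _ => (-1 : ℝ) := by simpa using AE.const (-1)
      exact ((((AE.inv1.add e1).add ((e2.mul AE.x).mul AE.inv1)).add hg).add ((e3.mul AE.x).mul hg)).add
        ((AE.x.pow 2).mul (hg.mul AE.inv1))
    · intro m hm
      rw [pow_succ, h m hm, h1 m hm]
      push_cast
      ring

/-- differences of polynomials, up to `O (x ^ (E + 1))` -/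
def Sol (E : ℕ) (f : ℕ → ℝ) : Prop :=
  ∃ (A : ℚ[X]) (C : ℝ), ∀ m : ℕ, 1 ≤ m →
    |aeval (1 / (m : ℝ)) A - aeval (1 / ((m + 1 : ℕ) : ℝ)) A - f m| ≤ C * (1 / (m : ℝ)) ^ (E + 1)

lemma Sol.add {E : ℕ} {f g : ℕ → ℝ} (hf : Sol E f) (hg : Sol E g) : Sol E fun m => f m + g m := by
  obtain ⟨A, C, h⟩ := hf
  obtain ⟨A', C', h'⟩ := hg
  refine ⟨A + A', C + C', fun m hm => ?_⟩
  have h1 : aeval (1 / (m : ℝ)) (A + A') - aeval (1 / ((m + 1 : ℕ) : ℝ)) (A + A') - (f m + g m) =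
      (aeval (1 / (m : ℝ)) A - aeval (1 / ((m + 1 : ℕ) : ℝ)) A - f m) +
        (aeval (1 / (m : ℝ)) A' - aeval (1 / ((m + 1 : ℕ) : ℝ)) A' - g m) := by
    rw [map_add, map_add]
    ring
  rw [h1, add_mul]
  exact (abs_add_le _ _).trans (add_le_add (h m hm) (h' m hm))

lemma Sol.smul {E : ℕ} {f : ℕ → ℝ} (q : ℚ) (hf : Sol E f) : Sol E fun m => (q : ℝ) * f m := by
  obtain ⟨A, C, h⟩ := hf
  refine ⟨Polynomial.C q * A, |(q : ℝ)| * C, fun m hm => ?_⟩
  have h1 : aeval (1 / (m : ℝ)) (Polynomial.C q * A) - aeval (1 / ((m + 1 : ℕ) : ℝ)) (Polynomial.C q * A) -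
      (q : ℝ) * f m = (q : ℝ) * (aeval (1 / (m : ℝ)) A - aeval (1 / ((m + 1 : ℕ) : ℝ)) A - f m) := by
    rw [map_mul, map_mul, aeval_C, aeval_C]
    simp only [eq_ratCast]
    ring
  rw [h1, abs_mul, mul_assoc]
  exact mul_le_mul_of_nonneg_left (h m hm) (abs_nonneg _)

lemma Sol.near {E : ℕ} {f g : ℕ → ℝ} (hf : Sol E f) {D : ℝ}
    (h : ∀ m : ℕ, 1 ≤ m → |f m - g m| ≤ D * (1 / (m : ℝ)) ^ (E + 1)) : Sol E g := by
  obtain ⟨A, C, h'⟩ := hf
  refine ⟨A, C + D, fun m hm => ?_⟩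
  have h1 : aeval (1 / (m : ℝ)) A - aeval (1 / ((m + 1 : ℕ) : ℝ)) A - g m =
      (aeval (1 / (m : ℝ)) A - aeval (1 / ((m + 1 : ℕ) : ℝ)) A - f m) + (f m - g m) := by ring
  rw [h1, add_mul]
  exact (abs_add_le _ _).trans (add_le_add (h' m hm) (h m hm))

lemma Sol.congr {E : ℕ} {f g : ℕ → ℝ} (hf : Sol E f) (h : ∀ m : ℕ, 1 ≤ m → g m = f m) : Sol E g :=
  hf.near (D := 0) fun m hm => by rw [h m hm]; simp

lemma Sol.zero (E : ℕ) : Sol E fun _ => 0 := ⟨0, 0, fun m _ => by simp⟩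

lemma sol_poly {E k : ℕ} (h : ∀ r, k ≤ r → Sol E fun m => (1 / (m : ℝ)) ^ r) (P : ℚ[X]) :
    Sol E fun m => (1 / (m : ℝ)) ^ k * aeval (1 / (m : ℝ)) P := by
  induction P using Polynomial.induction_on' with
  | add P Q hP hQ =>
    refine (hP.add hQ).congr fun m _ => ?_
    rw [map_add]
    ring
  | monomial n a =>
    refine ((h (k + n) (by omega)).smul a).congr fun m _ => ?_
    rw [aeval_monomial, eq_ratCast, pow_add]
    ring

lemma sol_ae {E k : ℕ} (h : ∀ r, k ≤ r → Sol E fun m => (1 / (m : ℝ)) ^ r) {g : ℕ → ℝ} (hg : AE g) :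
    Sol E fun m => (1 / (m : ℝ)) ^ k * g m := by
  obtain ⟨P, C, hP⟩ := hg (E + 1)
  refine (sol_poly h P).near (D := C) fun m hm => ?_
  rw [← mul_sub, abs_mul, abs_sub_comm, abs_of_nonneg (by positivity : (0 : ℝ) ≤ (1 / (m : ℝ)) ^ k)]
  have h1 : (1 / (m : ℝ)) ^ k ≤ 1 := pow_le_one₀ (x_nonneg m) (x_le_one m)
  calc _ ≤ 1 * (C * (1 / (m : ℝ)) ^ (E + 1)) := mul_le_mul h1 (hP m hm) (abs_nonneg _) zero_le_one
    _ = _ := by ring

lemma sol_pow (E : ℕ) : ∀ (n r : ℕ), 2 ≤ r → E + 1 ≤ r + n → Sol E fun m => (1 / (m : ℝ)) ^ r := by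
  intro n
  induction n with
  | zero =>
    intro r _ h
    refine (Sol.zero E).near (D := 1) fun m _ => ?_
    rw [zero_sub, abs_neg, abs_of_nonneg (by positivity), one_mul]
    exact pow_le_pow_of_le_one (x_nonneg m) (x_le_one m) (by omega)
  | succ n ih =>
    intro r hr h
    obtain ⟨s, rfl⟩ : ∃ s, r = s + 1 := ⟨r - 1, by omega⟩
    obtain ⟨g, hg, hgs⟩ := two_terms s
    have h1 : Sol E fun m => (1 / (m : ℝ)) ^ (s + 2) * g m :=
      sol_ae (fun r hr' => ih r (by omega) (by omega)) hg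
    have h2 : Sol E fun m => (1 / (m : ℝ)) ^ s - (1 / ((m + 1 : ℕ) : ℝ)) ^ s := by
      refine ⟨X ^ s, 0, fun m _ => ?_⟩
      rw [map_pow, map_pow, aeval_X, aeval_X, sub_self]
      simp
    have hs : (s : ℝ) ≠ 0 := by
      have : s ≠ 0 := by omega
      exact_mod_cast this
    refine ((h2.add h1).smul (1 / (s : ℚ))).congr fun m hm => ?_
    rw [hgs m hm]
    push_cast
    field_simp
    ring

lemma sum_sq_le {m N : ℕ} (hm : 1 ≤ m) (h : m ≤ N) :
    ∑ j ∈ Finset.Ico m N, (1 / (j : ℝ)) ^ 2 ≤ 3 - 2 / (N : ℝ) := by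
  induction N, h using Nat.le_induction with
  | base =>
    have : (1 : ℝ) ≤ m := by exact_mod_cast hm
    rw [Finset.Ico_self, Finset.sum_empty, sub_nonneg, div_le_iff₀ (by linarith)]
    linarith
  | succ N hN ih =>
    rw [Finset.sum_Ico_succ_top hN]
    have h1 : (1 : ℝ) ≤ N := by exact_mod_cast (hm.trans hN)
    have h2 : (1 / (N : ℝ)) ^ 2 ≤ 2 / (N : ℝ) - 2 / ((N + 1 : ℕ) : ℝ) := by
      push_cast
      rw [div_sub_div _ _ (by linarith) (by linarith), div_pow, one_pow, div_le_div_iff₀ (by positivity)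
        (by positivity)]
      nlinarith
    linarith

lemma ae_of_sol {G : ℕ → ℝ} (h0 : Tendsto G atTop (𝓝 0)) (h : ∀ E, Sol E fun m => G m - G (m + 1)) : AE G := by
  intro E
  obtain ⟨A, C, hA⟩ := h (E + 1)
  set a0 : ℚ := A.eval 0 with ha0
  have ha : aeval (0 : ℝ) A = (a0 : ℝ) := by
    rw [ha0]
    have := Polynomial.aeval_algebraMap_apply ℝ (0 : ℚ) A
    rw [map_zero] at this
    rw [this]
    simp
  refine ⟨A - Polynomial.C a0, 3 * C, fun m hm => ?_⟩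
  set D : ℕ → ℝ := fun j => G j - aeval (1 / (j : ℝ)) A + a0 with hD
  have hDlim : Tendsto D atTop (𝓝 0) := by
    have h1 : Tendsto (fun j : ℕ => aeval (1 / (j : ℝ)) A) atTop (𝓝 (aeval (0 : ℝ) A)) :=
      ((Polynomial.continuous_aeval A).tendsto 0).comp tendsto_one_div_atTop_nhds_zero_nat
    have h2 := (h0.sub h1).add_const (a0 : ℝ)
    rw [ha, zero_sub, neg_add_cancel] at h2
    exact h2
  have hC : 0 ≤ C := by
    have := hA 1 le_rfl
    simp only [Nat.cast_one, div_one, one_pow, mul_one] at this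
    exact (abs_nonneg _).trans this
  have hstep : ∀ j, m ≤ j → |D j - D (j + 1)| ≤ C * (1 / (m : ℝ)) ^ E * (1 / (j : ℝ)) ^ 2 := by
    intro j hj
    have h1 := hA j (hm.trans hj)
    have h2 : D j - D (j + 1) =
        -(aeval (1 / (j : ℝ)) A - aeval (1 / ((j + 1 : ℕ) : ℝ)) A - (G j - G (j + 1))) := by
      rw [hD]
      simp only
      ring
    rw [h2, abs_neg]
    refine h1.trans ?_
    rw [show E + 1 + 1 = E + 2 by ring, pow_add, ← mul_assoc]
    apply mul_le_mul_of_nonneg_right _ (by positivity)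
    apply mul_le_mul_of_nonneg_left _ hC
    apply pow_le_pow_left₀ (x_nonneg j)
    apply one_div_le_one_div_of_le (by exact_mod_cast hm)
    exact_mod_cast hj
  have htel : ∀ N, m ≤ N → |D m| ≤ |D N| + C * (1 / (m : ℝ)) ^ E * ∑ j ∈ Finset.Ico m N, (1 / (j : ℝ)) ^ 2 := by
    intro N hN
    induction N, hN using Nat.le_induction with
    | base => simp
    | succ N hN ih =>
      rw [Finset.sum_Ico_succ_top hN, mul_add]
      have h1 := hstep N hN
      have h2 : |D N| ≤ |D N - D (N + 1)| + |D (N + 1)| := by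
        have := abs_add_le (D N - D (N + 1)) (D (N + 1))
        rwa [sub_add_cancel] at this
      linarith
  have hfin : |D m| ≤ 3 * C * (1 / (m : ℝ)) ^ E := by
    have h1 : Tendsto (fun N => |D N| + 3 * C * (1 / (m : ℝ)) ^ E) atTop (𝓝 (3 * C * (1 / (m : ℝ)) ^ E)) := by
      have := hDlim.abs.add_const (3 * C * (1 / (m : ℝ)) ^ E)
      simpa using this
    refine ge_of_tendsto h1 ?_
    filter_upwards [eventually_ge_atTop m] with N hN
    refine (htel N hN).trans ?_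
    have h2 := sum_sq_le hm hN
    have h3 : ∑ j ∈ Finset.Ico m N, (1 / (j : ℝ)) ^ 2 ≤ 3 := h2.trans (by
      have : (0 : ℝ) ≤ 2 / (N : ℝ) := by positivity
      linarith)
    have h4 : 0 ≤ C * (1 / (m : ℝ)) ^ E := by positivity
    have h5 := mul_le_mul_of_nonneg_left h3 h4
    linarith
  have h6 : G m - aeval (1 / (m : ℝ)) (A - Polynomial.C a0) = D m := by
    rw [hD, map_sub, aeval_C]
    simp only [eq_ratCast]
    ring
  rw [h6]
  exact hfin

lemma T_tendsto_zero {p : List ℕ} (hp : ∀ x ∈ p, 2 ≤ x) (h : p ≠ []) : Tendsto (T p) atTop (𝓝 0) := by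
  refine tendsto_of_tendsto_of_tendsto_of_le_of_le' tendsto_const_nhds tendsto_one_div_atTop_nhds_zero_nat ?_ ?_
  · filter_upwards [eventually_ge_atTop 1] with m hm using T_nonneg hp hm
  · filter_upwards [eventually_ge_atTop 1] with m hm
    refine (T_le hp hm).trans ?_
    have h1 : p.length ≠ 0 := fun h0 => h (List.length_eq_zero_iff.1 h0)
    exact pow_le_of_le_one (x_nonneg m) (x_le_one m) h1

theorem ae_T {p : List ℕ} (hp : ∀ x ∈ p, 2 ≤ x) : AE (T p) := by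
  induction p using List.reverseRecOn with
  | nil =>
    have h := AE.const 1
    refine h.congr fun m hm => ?_
    rw [T_nil hm]
    simp
  | append_singleton p s ih =>
    have hp' : ∀ x ∈ p, 2 ≤ x := fun x hx => hp x (by simp [hx])
    have hs : 2 ≤ s := hp s (by simp)
    refine ae_of_sol (T_tendsto_zero hp (by simp)) fun E => ?_
    obtain ⟨s', rfl⟩ : ∃ s', s = s' + 2 := ⟨s - 2, by omega⟩
    have h1 := sol_ae (k := 2) (fun r hr => sol_pow E (E + 1) r hr (by omega))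
      (((AE.inv1.pow 2).mul (AE.xs.pow s')).mul (ih hp').shift)
    refine h1.congr fun m hm => ?_
    rw [T_left hp' hs hm, pow_add, mul_inv]
    have h2 : (((m + 1 : ℕ) : ℝ) ^ 2)⁻¹ = (1 / (m : ℝ)) ^ 2 * (1 / (1 + 1 / (m : ℝ))) ^ 2 := by
      rw [← mul_pow, ← x_succ hm]
      simp
    rw [h2]
    have h3 : (((m + 1 : ℕ) : ℝ) ^ s')⁻¹ = (1 / ((m + 1 : ℕ) : ℝ)) ^ s' := by simp
    rw [h3]
    ring

end Pool.Agent.L7h24.CS
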