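import Mathlib
import Pool.Agent.L7h24.CS.Exp

/-!
# `ζ(2, ..., 2) = π ^ (2 n) / (2 n + 1)!`
-/

set_option autoImplicit false

namespace Pool.Agent.L7h24.CS

open Filter Topology
open Pool.Agent.H447R2.MZ (H H_nil H_cons H_cons_zero H_cons_succ H_nonneg Adm val tendsto_H H_le_val)

/-- the elementary symmetric functions of the `1 / j ^ 2` -/
noncomputable def e2 (k N : ℕ) : ℝ := H (List.replicate k 2) N

lemma e2_zero (N : ℕ) : e2 0 N = 1 := by rw [e2, List.replicate_zero, H_nil]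

lemma e2_succ_zero (k : ℕ) : e2 (k + 1) 0 = 0 := by rw [e2, List.replicate_succ, H_cons_zero]

lemma e2_succ (k N : ℕ) : e2 (k + 1) (N + 1) = e2 (k + 1) N + (((N + 1 : ℕ) : ℝ) ^ 2)⁻¹ * e2 k N := by
  rw [e2, e2, e2, List.replicate_succ, H_cons_succ]

lemma e2_nonneg (k N : ℕ) : 0 ≤ e2 k N := H_nonneg _ _

lemma e2_lt : ∀ {N k : ℕ}, N < k → e2 k N = 0 := by
  intro N
  induction N with
  | zero =>
    intro k hk
    obtain ⟨k, rfl⟩ : ∃ k', k = k' + 1 := ⟨k - 1, by omega⟩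
    exact e2_succ_zero k
  | succ N ih =>
    intro k hk
    obtain ⟨k, rfl⟩ : ∃ k', k = k' + 1 := ⟨k - 1, by omega⟩
    rw [e2_succ, ih (by omega), ih (by omega)]
    ring

/-- the power sum -/
noncomputable def s2 (N : ℕ) : ℝ := ∑ j ∈ Finset.range N, (((j + 1 : ℕ) : ℝ) ^ 2)⁻¹

lemma s2_nonneg (N : ℕ) : 0 ≤ s2 N := Finset.sum_nonneg fun _ _ => by positivity

lemma s2_le (N : ℕ) : s2 N ≤ 3 := by
  have h1 := sum_sq_le (m := 1) (N := N + 1) le_rfl (by omega)
  rw [Finset.sum_Ico_eq_sum_range] at h1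
  have h2 : (0 : ℝ) ≤ 2 / ((N + 1 : ℕ) : ℝ) := by positivity
  have h3 : s2 N = ∑ k ∈ Finset.range (N + 1 - 1), (1 / ((1 + k : ℕ) : ℝ)) ^ 2 := by
    rw [s2, Nat.add_sub_cancel]
    refine Finset.sum_congr rfl fun k _ => ?_
    rw [add_comm 1 k, div_pow, one_pow, one_div]
  rw [h3]
  linarith

lemma bern {s a : ℝ} (hs : 0 ≤ s) (ha : 0 ≤ a) (k : ℕ) :
    s ^ (k + 1) + (k + 1) * (a * s ^ k) ≤ (s + a) ^ (k + 1) := by
  induction k with
  | zero => simp
  | succ k ih =>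
    have h1 : (s + a) * (s ^ (k + 1) + (k + 1) * (a * s ^ k)) ≤ (s + a) * (s + a) ^ (k + 1) :=
      mul_le_mul_of_nonneg_left ih (by linarith)
    have h2 : (s + a) * (s + a) ^ (k + 1) = (s + a) ^ (k + 1 + 1) := by ring
    have h3 : 0 ≤ ((k : ℝ) + 1) * (a ^ 2 * s ^ k) := by positivity
    rw [h2] at h1
    refine le_trans ?_ h1
    push_cast
    have h4 : (s + a) * (s ^ (k + 1) + (k + 1) * (a * s ^ k)) =
        s ^ (k + 1 + 1) + ((k : ℝ) + 1 + 1) * (a * s ^ (k + 1)) + ((k : ℝ) + 1) * (a ^ 2 * s ^ k) := by ring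
    rw [h4]
    linarith

lemma e2_le_pow (N : ℕ) : ∀ k : ℕ, e2 k N ≤ s2 N ^ k / (k.factorial : ℝ) := by
  induction N with
  | zero =>
    intro k
    cases k with
    | zero => rw [e2_zero]; simp
    | succ k => rw [e2_succ_zero, s2]; simp
  | succ N ih =>
    intro k
    cases k with
    | zero => rw [e2_zero]; simp
    | succ k =>
      rw [e2_succ]
      have hs : s2 (N + 1) = s2 N + (((N + 1 : ℕ) : ℝ) ^ 2)⁻¹ := by rw [s2, Finset.sum_range_succ, ← s2]
      rw [hs]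
      set a : ℝ := (((N + 1 : ℕ) : ℝ) ^ 2)⁻¹ with ha
      have ha0 : 0 ≤ a := by positivity
      have h1 := bern (s2_nonneg N) ha0 k
      have h2 := ih (k + 1)
      have h3 := mul_le_mul_of_nonneg_left (ih k) ha0
      have hf : (0 : ℝ) < (k.factorial : ℝ) := by positivity
      rw [Nat.factorial_succ] at h2 ⊢
      push_cast at h2 ⊢
      rw [le_div_iff₀ (by positivity)]
      rw [le_div_iff₀ (by positivity)] at h2
      have h4 : a * e2 k N * (((k : ℝ) + 1) * (k.factorial : ℝ)) ≤ ((k : ℝ) + 1) * (a * s2 N ^ k) := by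
        calc a * e2 k N * (((k : ℝ) + 1) * (k.factorial : ℝ))
            ≤ a * (s2 N ^ k / (k.factorial : ℝ)) * (((k : ℝ) + 1) * (k.factorial : ℝ)) :=
              mul_le_mul_of_nonneg_right h3 (by positivity)
          _ = ((k : ℝ) + 1) * (a * s2 N ^ k) := by field_simp
      nlinarith

lemma e2_le (k N : ℕ) : e2 k N ≤ 3 ^ k / (k.factorial : ℝ) :=
  (e2_le_pow N k).trans (div_le_div_of_nonneg_right (pow_le_pow_left₀ (s2_nonneg N) (s2_le N) k) (by positivity))

/-- `ζ(2, ..., 2)` -/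
noncomputable def Z (k : ℕ) : ℝ := val (List.replicate k 2)

lemma adm_rep (k : ℕ) : Adm (List.replicate k 2) := by
  refine ⟨fun x hx => ?_, fun x t h => ?_⟩
  · rw [List.eq_of_mem_replicate hx]; norm_num
  · have : x ∈ List.replicate k 2 := by rw [h]; exact List.mem_cons_self
    rw [List.eq_of_mem_replicate this]

lemma tendsto_e2 (k : ℕ) : Tendsto (e2 k) atTop (𝓝 (Z k)) := tendsto_H _ (adm_rep k)

lemma Z_le (k : ℕ) : Z k ≤ 3 ^ k / (k.factorial : ℝ) :=
  le_of_tendsto (tendsto_e2 k) (Eventually.of_forall fun N => e2_le k N)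

lemma Z_nonneg (k : ℕ) : 0 ≤ Z k := ge_of_tendsto (tendsto_e2 k) (Eventually.of_forall fun N => e2_nonneg k N)

lemma prod_eq (w : ℂ) (N : ℕ) : ∏ j ∈ Finset.range N, (1 + w / ((j : ℂ) + 1) ^ 2) =
    ∑ k ∈ Finset.range (N + 1), w ^ k * (e2 k N : ℂ) := by
  induction N with
  | zero => simp [e2_zero]
  | succ N ih =>
    rw [Finset.prod_range_succ, ih]
    have h1 : ∑ k ∈ Finset.range (N + 1 + 1), w ^ k * (e2 k (N + 1) : ℂ) =
        1 + ∑ k ∈ Finset.range (N + 1), w ^ (k + 1) * (e2 (k + 1) N : ℂ) +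
          (w / ((N : ℂ) + 1) ^ 2) * ∑ k ∈ Finset.range (N + 1), w ^ k * (e2 k N : ℂ) := by
      rw [Finset.sum_range_succ', e2_zero, Finset.mul_sum]
      have h2 : ∀ k, w ^ (k + 1) * (e2 (k + 1) (N + 1) : ℂ) = w ^ (k + 1) * (e2 (k + 1) N : ℂ) +
          (w / ((N : ℂ) + 1) ^ 2) * (w ^ k * (e2 k N : ℂ)) := by
        intro k
        rw [e2_succ]
        push_cast
        ring
      rw [Finset.sum_congr rfl fun k _ => h2 k, Finset.sum_add_distrib]
      push_cast
      ring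
    rw [h1]
    have h3 : ∑ k ∈ Finset.range (N + 1), w ^ k * (e2 k N : ℂ) =
        1 + ∑ k ∈ Finset.range (N + 1), w ^ (k + 1) * (e2 (k + 1) N : ℂ) := by
      rw [Finset.sum_range_succ', e2_zero, Finset.sum_range_succ, e2_lt (Nat.lt_succ_self N)]
      push_cast
      ring
    rw [← h3]
    ring

lemma summable_three (w : ℂ) : Summable fun k : ℕ => ‖w‖ ^ k * (3 ^ k / (k.factorial : ℝ)) := by
  have h := Real.summable_pow_div_factorial (‖w‖ * 3)
  refine h.congr fun k => ?_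
  rw [mul_pow]
  ring

lemma tendsto_prod (w : ℂ) : Tendsto (fun N => ∏ j ∈ Finset.range N, (1 + w / ((j : ℂ) + 1) ^ 2)) atTop
    (𝓝 (∑' k : ℕ, w ^ k * (Z k : ℂ))) := by
  have h1 : Tendsto (fun N => ∑' k : ℕ, w ^ k * (e2 k N : ℂ)) atTop (𝓝 (∑' k : ℕ, w ^ k * (Z k : ℂ))) := by
    refine tendsto_tsum_of_dominated_convergence (summable_three w) (fun k => ?_) (Eventually.of_forall fun N k => ?_)
    · exact ((Complex.continuous_ofReal.tendsto _).comp (tendsto_e2 k)).const_mul _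
    · rw [norm_mul, norm_pow, Complex.norm_real, Real.norm_of_nonneg (e2_nonneg k N)]
      exact mul_le_mul_of_nonneg_left (e2_le k N) (by positivity)
  refine h1.congr fun N => ?_
  rw [prod_eq, tsum_eq_sum]
  intro k hk
  rw [Finset.mem_range, not_lt] at hk
  rw [e2_lt (by omega : N < k)]
  simp

lemma summable_Z (w : ℂ) : Summable fun k : ℕ => w ^ k * (Z k : ℂ) := by
  refine Summable.of_norm_bounded (summable_three w) fun k => ?_
  rw [norm_mul, norm_pow, Complex.norm_real, Real.norm_of_nonneg (Z_nonneg k)]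
  exact mul_le_mul_of_nonneg_left (Z_le k) (by positivity)

lemma hasSum_Z (w : ℂ) : HasSum (fun k : ℕ => w ^ k * ((Real.pi : ℂ) ^ (2 * k) / ((2 * k + 1).factorial : ℂ)))
    (∑' k : ℕ, w ^ k * (Z k : ℂ)) := by
  by_cases hw : w = 0
  · subst hw
    have h1 : ∑' k : ℕ, (0 : ℂ) ^ k * (Z k : ℂ) = 1 := by
      rw [tsum_eq_single 0]
      · have : Z 0 = 1 := tendsto_nhds_unique (tendsto_e2 0) (by
          rw [show e2 0 = fun _ => (1 : ℝ) from funext e2_zero]; exact tendsto_const_nhds)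
        simp [this]
      · intro k hk
        simp [hk]
    rw [h1]
    convert hasSum_single (f := fun k : ℕ => (0 : ℂ) ^ k * ((Real.pi : ℂ) ^ (2 * k) / ((2 * k + 1).factorial : ℂ))) 0
      (fun k hk => by simp [hk]) using 1
    simp
  · obtain ⟨z, hz⟩ : ∃ z : ℂ, z ^ 2 = -w := IsAlgClosed.exists_pow_nat_eq (-w) (by norm_num)
    have hz0 : z ≠ 0 := by
      rintro rfl
      apply hw
      simpa using hz.symm
    have h1 := Complex.tendsto_euler_sin_prod z
    have h2 : Tendsto (fun n : ℕ => (Real.pi : ℂ) * z * ∏ j ∈ Finset.range n, ((1 : ℂ) - z ^ 2 / ((j : ℂ) + 1) ^ 2))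
        atTop (𝓝 ((Real.pi : ℂ) * z * ∑' k : ℕ, w ^ k * (Z k : ℂ))) := by
      refine ((tendsto_prod w).const_mul _).congr fun n => ?_
      congr 1
      refine Finset.prod_congr rfl fun j _ => ?_
      rw [hz]
      ring
    have h3 := tendsto_nhds_unique h1 h2
    have h4 := (Complex.hasSum_sin ((Real.pi : ℂ) * z)).mul_left ((Real.pi : ℂ) * z)⁻¹
    have hp : (Real.pi : ℂ) * z ≠ 0 := mul_ne_zero (by exact_mod_cast Real.pi_ne_zero) hz0
    rw [h3, ← mul_assoc, inv_mul_cancel₀ hp, one_mul] at h4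
    have hw' : w = -z ^ 2 := by rw [hz, neg_neg]
    refine (congrArg (fun f => HasSum f _) (funext fun k => ?_)).mp h4
    have e1 : (-z ^ 2) ^ k = (-1) ^ k * z ^ (2 * k) := by rw [neg_pow, ← pow_mul]
    rw [hw', e1, pow_succ ((Real.pi : ℂ) * z) (2 * k), mul_pow]
    field_simp

theorem Z_eq (k : ℕ) : Z k = Real.pi ^ (2 * k) / ((2 * k + 1).factorial : ℝ) := by
  let d : ℕ → ℂ := fun k => (Z k : ℂ) - (Real.pi : ℂ) ^ (2 * k) / ((2 * k + 1).factorial : ℂ)
  let p : FormalMultilinearSeries ℂ ℂ ℂ := fun k => ContinuousMultilinearMap.mkPiRing ℂ (Fin k) (d k)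
  have hcoeff : ∀ k, p.coeff k = d k := by
    intro k
    simp [p, FormalMultilinearSeries.coeff, ContinuousMultilinearMap.mkPiRing_apply]
  have hp : HasFPowerSeriesAt (0 : ℂ → ℂ) p 0 := by
    rw [hasFPowerSeriesAt_iff]
    refine Eventually.of_forall fun w => ?_
    have h1 := (summable_Z w).hasSum.sub (hasSum_Z w)
    rw [sub_self] at h1
    refine (congrArg (fun f => HasSum f _) (funext fun k => ?_)).mp h1
    rw [hcoeff, smul_eq_mul]
    ring
  have h0 := hp.eq_zero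
  have h1 : d k = 0 := by rw [← hcoeff k, h0]; rfl
  have h2 : (Z k : ℂ) = (((Real.pi ^ (2 * k) / ((2 * k + 1).factorial : ℝ)) : ℝ) : ℂ) := by
    have := sub_eq_zero.1 h1
    rw [this]
    push_cast
    rfl
  exact_mod_cast h2

end Pool.Agent.L7h24.CS
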