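import Mathlib
import Pool.Agent.H447R2.MZ.Dich
import Pool.Agent.L7h24.CS.Zn

/-!
# Combinations with polynomial and exponential-polynomial coefficients of sequences with an
expansion in the `ζ(2, ..., 2)`
-/

set_option autoImplicit false

namespace Pool.Agent.L7h24.CS

open Filter Topology Polynomial

/-- the quotient of two values -/
noncomputable def dp (K i : ℕ) : ℝ[X] :=
  ∏ j ∈ Finset.range (2 * K - 2 * i), (C (2 : ℝ) * X + C ((2 * i + 2 + j : ℕ) : ℝ))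

lemma dp_eval (K i n : ℕ) : (dp K i).eval (n : ℝ) =
    ∏ j ∈ Finset.range (2 * K - 2 * i), ((2 * n + 2 * i + 2 + j : ℕ) : ℝ) := by
  rw [dp, eval_prod]
  refine Finset.prod_congr rfl fun j _ => ?_
  simp only [eval_add, eval_mul, eval_C, eval_X]
  push_cast
  ring

lemma fact_prod (a b : ℕ) : ((a + b).factorial : ℝ) = (a.factorial : ℝ) * ∏ j ∈ Finset.range b, ((a + 1 + j : ℕ) : ℝ) := by
  induction b with
  | zero => simp
  | succ b ih =>
    rw [Finset.prod_range_succ, ← mul_assoc, ← ih, ← add_assoc, Nat.factorial_succ]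
    push_cast
    ring

lemma Z_rel {K i : ℕ} (h : i ≤ K) (n : ℕ) :
    Z (n + i) * Real.pi ^ (2 * K) = Z (n + K) * (Real.pi ^ (2 * i) * (dp K i).eval (n : ℝ)) := by
  rw [Z_eq, Z_eq, dp_eval]
  have h1 := fact_prod (2 * (n + i) + 1) (2 * K - 2 * i)
  rw [show 2 * (n + i) + 1 + (2 * K - 2 * i) = 2 * (n + K) + 1 by omega] at h1
  rw [h1]
  have h2 : ∏ j ∈ Finset.range (2 * K - 2 * i), ((2 * n + 2 * i + 2 + j : ℕ) : ℝ) =
      ∏ j ∈ Finset.range (2 * K - 2 * i), ((2 * (n + i) + 1 + 1 + j : ℕ) : ℝ) :=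
    Finset.prod_congr rfl fun j _ => by congr 1; ring
  rw [h2]
  have h3 : (0 : ℝ) < ∏ j ∈ Finset.range (2 * K - 2 * i), ((2 * (n + i) + 1 + 1 + j : ℕ) : ℝ) :=
    Finset.prod_pos fun j _ => by positivity
  have h4 : ((2 * (n + i) + 1).factorial : ℝ) ≠ 0 := by positivity
  rw [show 2 * (n + i) = 2 * n + 2 * i by ring, show 2 * (n + K) = 2 * n + 2 * K by ring, pow_add, pow_add]
  rw [show 2 * (n + i) = 2 * n + 2 * i by ring] at h3 h4
  field_simp

lemma lin_ne (b : ℝ) : C (2 : ℝ) * X + C b ≠ 0 := by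
  intro h
  have h1 := congrArg (fun p => Polynomial.coeff p 1) h
  simp at h1

lemma dp_ne (K i : ℕ) : dp K i ≠ 0 := Finset.prod_ne_zero_iff.2 fun _ _ => lin_ne _

lemma dp_natDegree (K i : ℕ) : (dp K i).natDegree = 2 * K - 2 * i := by
  rw [dp, natDegree_prod _ _ fun _ _ => lin_ne _]
  rw [Finset.sum_congr rfl fun j _ => natDegree_linear (two_ne_zero : (2 : ℝ) ≠ 0)]
  simp

/-- polynomials with algebraic coefficients -/
def Alg (P : ℝ[X]) : Prop := ∀ k, P.coeff k ∈ algebraicClosure ℚ ℝ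

lemma Alg.add {P Q : ℝ[X]} (hP : Alg P) (hQ : Alg Q) : Alg (P + Q) := fun k => by
  rw [coeff_add]
  exact add_mem (hP k) (hQ k)

lemma Alg.mul {P Q : ℝ[X]} (hP : Alg P) (hQ : Alg Q) : Alg (P * Q) := fun k => by
  rw [coeff_mul]
  exact sum_mem fun x _ => mul_mem (hP _) (hQ _)

lemma Alg.C {a : ℝ} (ha : a ∈ algebraicClosure ℚ ℝ) : Alg (Polynomial.C a) := fun k => by
  rw [coeff_C]
  split_ifs
  · exact ha
  · exact zero_mem _

lemma Alg.X : Alg (Polynomial.X) := fun k => by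
  rw [coeff_X]
  split_ifs
  · exact one_mem _
  · exact zero_mem _

lemma Alg.sum {ι : Type*} (A : Finset ι) (f : ι → ℝ[X]) (h : ∀ a ∈ A, Alg (f a)) : Alg (∑ a ∈ A, f a) := fun k => by
  rw [finsetSum_coeff]
  exact sum_mem fun a ha => h a ha k

lemma Alg.prod {ι : Type*} (A : Finset ι) (f : ι → ℝ[X]) (h : ∀ a ∈ A, Alg (f a)) : Alg (∏ a ∈ A, f a) := by
  classical
  induction A using Finset.induction_on with
  | empty =>
    rw [Finset.prod_empty, ← Polynomial.C_1]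
    exact Alg.C (one_mem _)
  | insert a A ha ih =>
    rw [Finset.prod_insert ha]
    exact (h a (Finset.mem_insert_self _ _)).mul (ih fun b hb => h b (Finset.mem_insert_of_mem hb))

lemma dp_alg (K i : ℕ) : Alg (dp K i) :=
  Alg.prod _ _ fun j _ => ((Alg.C (by exact_mod_cast natCast_mem (algebraicClosure ℚ ℝ) 2)).mul Alg.X).add
    (Alg.C (natCast_mem _ _))

lemma sum_even (K : ℕ) (g : ℕ → ℝ) (x : ℝ) :
    ∑ j ∈ Finset.range (2 * K), (if Even j then g (j / 2) else 0) * x ^ j =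
      ∑ i ∈ Finset.range K, g i * x ^ (2 * i) := by
  induction K with
  | zero => simp
  | succ K ih =>
    rw [show 2 * (K + 1) = 2 * K + 1 + 1 by ring, Finset.sum_range_succ, Finset.sum_range_succ, ih,
      Finset.sum_range_succ]
    have h1 : ¬ Even (2 * K + 1) := by simp
    have h2 : Even (2 * K) := by simp
    rw [if_neg h1, if_pos h2, show 2 * K / 2 = K by omega]
    ring

/-- the even powers of `π` are independent over the algebraic numbers -/
lemma pi_even (K : ℕ) (g : ℕ → ℝ) (hg : ∀ i < K, g i ∈ algebraicClosure ℚ ℝ)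
    (h : ∑ i ∈ Finset.range K, g i * Real.pi ^ (2 * i) = 0) : ∀ i < K, g i = 0 := by
  intro i hi
  rw [← sum_even] at h
  have h1 := Pool.Agent.H447R2.MZ.pi_indep (2 * K - 1) (fun j => if Even j then g (j / 2) else 0) (fun j hj => ?_)
    (by rw [show 2 * K - 1 + 1 = 2 * K by omega]; exact h) (2 * i) (by omega)
  · have h2 : Even (2 * i) := by simp
    simp only [if_pos h2] at h1
    rwa [show 2 * i / 2 = i by omega] at h1
  · split_ifs with he
    · exact mem_algebraicClosure_iff.1 (hg _ (by omega))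
    · exact isAlgebraic_zero

lemma eval_bound (P : ℝ[X]) {A : ℕ} (hA : P.natDegree ≤ A) {x : ℝ} (hx : 1 ≤ x) :
    |P.eval x| ≤ (∑ k ∈ Finset.range (A + 1), |P.coeff k|) * x ^ A := by
  rw [eval_eq_sum_range' (Nat.lt_succ_of_le hA), Finset.sum_mul]
  refine (Finset.abs_sum_le_sum_abs _ _).trans (Finset.sum_le_sum fun k hk => ?_)
  rw [abs_mul, abs_of_nonneg (by positivity : (0 : ℝ) ≤ x ^ k)]
  exact mul_le_mul_of_nonneg_left (pow_le_pow_right₀ hx (by have := Finset.mem_range.1 hk; omega)) (abs_nonneg _)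

/-- the hypothesis: expansions in the `Z (n + i)` with rational coefficients, of bounded order -/
def Expan {ι : Type*} (U : Finset ι) (V : ι → ℕ → ℝ) (I : ℕ) : Prop :=
  ∀ K, I ≤ K → ∃ (r : ι → ℕ → ℚ) (C : ℝ),
    (∀ u ∈ U, ∀ n, 1 ≤ n → |V u n - ∑ i ∈ Finset.range K, (r u i : ℝ) * Z (n + i)| ≤ C * Z (n + K)) ∧
    (∀ c : ι → ℚ, (∀ i < I, ∑ u ∈ U, c u * r u i = 0) → ∀ u ∈ U, c u = 0)

lemma Z_pos (n : ℕ) : 0 < Z n := by
  rw [Z_eq]
  positivity

theorem single {ι : Type*} (U : Finset ι) (V : ι → ℕ → ℝ) (I : ℕ) (hV : Expan U V I)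
    (p : ι → ℝ[X]) (hp : ∀ u ∈ U, Alg (p u)) (hne : ∃ u ∈ U, p u ≠ 0) :
    ∃ B : ℕ, ∀ᶠ n : ℕ in atTop, Z n ≤ (n : ℝ) ^ B * |∑ u ∈ U, (p u).eval (n : ℝ) * V u n| := by
  classical
  set A : ℕ := ∑ u ∈ U, (p u).natDegree with hA
  have hAu : ∀ u ∈ U, (p u).natDegree ≤ A := fun u hu =>
    Finset.single_le_sum (f := fun u => (p u).natDegree) (fun _ _ => Nat.zero_le _) hu
  set K : ℕ := I + A + 2 with hK
  obtain ⟨r, C0, h1, h2⟩ := hV K (by omega)
  set P : ℕ → ℝ[X] := fun i => ∑ u ∈ U, C (r u i : ℝ) * p u with hP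
  have hPalg : ∀ i, Alg (P i) := fun i => Alg.sum _ _ fun u hu =>
    (Alg.C (by
      have := (algebraicClosure ℚ ℝ).algebraMap_mem (r u i)
      rwa [eq_ratCast] at this)).mul (hp u hu)
  have hex : ∃ i0 < I, P i0 ≠ 0 := by
    by_contra hcon
    push Not at hcon
    obtain ⟨u0, hu0, hpu0⟩ := hne
    obtain ⟨k, hk⟩ : ∃ k, (p u0).coeff k ≠ 0 := by
      by_contra h
      push Not at h
      exact hpu0 (Polynomial.ext (by simpa using h))
    apply hk
    rw [← Module.forall_dual_apply_eq_zero_iff ℚ]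
    intro φ
    refine h2 (fun u => φ ((p u).coeff k)) (fun i hi => ?_) u0 hu0
    have h3 : (P i).coeff k = ∑ u ∈ U, (r u i) • (p u).coeff k := by
      rw [hP]
      simp only
      rw [finsetSum_coeff]
      refine Finset.sum_congr rfl fun u _ => ?_
      rw [coeff_C_mul, Rat.smul_def]
    have h4 : φ ((P i).coeff k) = 0 := by rw [hcon i hi]; simp
    rw [h3, map_sum] at h4
    rw [← h4]
    refine Finset.sum_congr rfl fun u _ => ?_
    rw [map_smul, smul_eq_mul, mul_comm]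
  obtain ⟨i0, hi0, hPi0⟩ := hex
  set Q : ℝ[X] := ∑ i ∈ Finset.range K, C (Real.pi ^ (2 * i)) * (P i * dp K i) with hQ
  set d : ℕ := (P i0 * dp K i0).natDegree with hd
  have hPd : P i0 * dp K i0 ≠ 0 := mul_ne_zero hPi0 (dp_ne _ _)
  have hdA : A + 2 ≤ d := by
    rw [hd, natDegree_mul hPi0 (dp_ne _ _), dp_natDegree]
    omega
  have hQd : Q.coeff d ≠ 0 := by
    intro h0
    have h3 : ∑ i ∈ Finset.range K, (P i * dp K i).coeff d * Real.pi ^ (2 * i) = 0 := by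
      rw [← h0, hQ, finsetSum_coeff]
      refine Finset.sum_congr rfl fun i _ => ?_
      rw [coeff_C_mul, mul_comm]
    have h4 := pi_even K (fun i => (P i * dp K i).coeff d) (fun i _ => (hPalg i).mul (dp_alg K i) d) h3 i0
      (by omega)
    rw [hd, coeff_natDegree, leadingCoeff_eq_zero] at h4
    exact hPd h4
  have hQ0 : Q ≠ 0 := fun h => hQd (by rw [h, coeff_zero])
  have hQdeg : A + 2 ≤ Q.natDegree := hdA.trans (le_natDegree_of_ne_zero hQd)
  have hQbig : ∀ᶠ n : ℕ in atTop, (n : ℝ) ^ (A + 1) ≤ |Q.eval (n : ℝ)| := by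
    have h3 : Tendsto (fun x : ℝ => eval x ((X : ℝ[X]) ^ (A + 1)) / eval x Q) atTop (𝓝 0) := by
      apply div_tendsto_atTop_zero_of_degree_lt
      rw [degree_X_pow, degree_eq_natDegree hQ0]
      exact_mod_cast (by omega : A + 1 < Q.natDegree)
    have h4 := (h3.comp tendsto_natCast_atTop_atTop).abs
    rw [abs_zero] at h4
    have h5 : ∀ᶠ n : ℕ in atTop, Q.eval (n : ℝ) ≠ 0 := by
      have h6 := (Q.eventually_atTop_not_isRoot hQ0)
      exact (tendsto_natCast_atTop_atTop.eventually h6).mono fun n hn h => hn (by rw [IsRoot.def]; exact h)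
    filter_upwards [h4.eventually (gt_mem_nhds one_pos), h5, eventually_ge_atTop 1] with n h6 h7 h8
    simp only [Function.comp_apply, eval_pow, eval_X] at h6
    rw [abs_div, div_lt_one (abs_pos.2 h7), abs_of_nonneg (by positivity)] at h6
    exact h6.le
  -- the error
  set G : ℝ := ∑ u ∈ U, ∑ k ∈ Finset.range (A + 1), |(p u).coeff k| with hG
  have hG0 : 0 ≤ G := Finset.sum_nonneg fun _ _ => Finset.sum_nonneg fun _ _ => abs_nonneg _
  have herr : ∀ n : ℕ, 1 ≤ n → |∑ u ∈ U, (p u).eval (n : ℝ) *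
      (V u n - ∑ i ∈ Finset.range K, (r u i : ℝ) * Z (n + i))| ≤ G * |C0| * (n : ℝ) ^ A * Z (n + K) := by
    intro n hn
    have hn' : (1 : ℝ) ≤ n := by exact_mod_cast hn
    refine (Finset.abs_sum_le_sum_abs _ _).trans ?_
    have h3 : ∀ u ∈ U, |(p u).eval (n : ℝ) * (V u n - ∑ i ∈ Finset.range K, (r u i : ℝ) * Z (n + i))| ≤
        (∑ k ∈ Finset.range (A + 1), |(p u).coeff k|) * (|C0| * (n : ℝ) ^ A * Z (n + K)) := by
      intro u hu
      rw [abs_mul]
      have h4 := eval_bound (p u) (hAu u hu) hn'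
      have h5 : |V u n - ∑ i ∈ Finset.range K, (r u i : ℝ) * Z (n + i)| ≤ |C0| * Z (n + K) :=
        (h1 u hu n hn).trans (mul_le_mul_of_nonneg_right (le_abs_self _) (Z_nonneg _))
      calc _ ≤ (∑ k ∈ Finset.range (A + 1), |(p u).coeff k|) * (n : ℝ) ^ A * (|C0| * Z (n + K)) :=
            mul_le_mul h4 h5 (abs_nonneg _) (mul_nonneg (Finset.sum_nonneg fun _ _ => abs_nonneg _) (by positivity))
        _ = _ := by ring
    refine (Finset.sum_le_sum h3).trans (le_of_eq ?_)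
    rw [← Finset.sum_mul, ← hG]
    ring
  have hmain : ∀ n : ℕ, Real.pi ^ (2 * K) * ∑ u ∈ U, (p u).eval (n : ℝ) *
      ∑ i ∈ Finset.range K, (r u i : ℝ) * Z (n + i) = Z (n + K) * Q.eval (n : ℝ) := by
    intro n
    have h3 : ∑ u ∈ U, (p u).eval (n : ℝ) * ∑ i ∈ Finset.range K, (r u i : ℝ) * Z (n + i) =
        ∑ i ∈ Finset.range K, (P i).eval (n : ℝ) * Z (n + i) := by
      rw [hP]
      simp only [eval_finsetSum, eval_mul, eval_C, Finset.mul_sum, Finset.sum_mul]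
      rw [Finset.sum_comm]
      refine Finset.sum_congr rfl fun i _ => Finset.sum_congr rfl fun u _ => ?_
      ring
    rw [h3, hQ, eval_finsetSum, Finset.mul_sum, Finset.mul_sum]
    refine Finset.sum_congr rfl fun i hi => ?_
    have h4 := Z_rel (K := K) (i := i) (Finset.mem_range.1 hi).le n
    rw [eval_mul, eval_mul, eval_C]
    calc Real.pi ^ (2 * K) * ((P i).eval (n : ℝ) * Z (n + i)) =
        (P i).eval (n : ℝ) * (Z (n + i) * Real.pi ^ (2 * K)) := by ring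
      _ = _ := by rw [h4]; ring
  have hpi1 : (1 : ℝ) ≤ Real.pi ^ (2 * K) := one_le_pow₀ (by linarith [Real.pi_gt_three])
  have hpi0 : (0 : ℝ) < Real.pi ^ (2 * K) := by positivity
  set F : ℝ := ∑ k ∈ Finset.range (2 * K + 1), |(dp K 0).coeff k| with hF
  refine ⟨2 * K + 1, ?_⟩
  filter_upwards [hQbig, eventually_ge_atTop 1,
    tendsto_natCast_atTop_atTop.eventually_ge_atTop (Real.pi ^ (2 * K) * (G * |C0| + 1)),
    tendsto_natCast_atTop_atTop.eventually_ge_atTop F] with n hn1 hn2 hn3 hn4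
  have hn' : (1 : ℝ) ≤ n := by exact_mod_cast hn2
  have hnA : (1 : ℝ) ≤ (n : ℝ) ^ A := one_le_pow₀ hn'
  have hZ := Z_pos (n + K)
  -- lower bound
  have hlow : Z (n + K) ≤ |∑ u ∈ U, (p u).eval (n : ℝ) * V u n| := by
    have h3 : ∑ u ∈ U, (p u).eval (n : ℝ) * V u n =
        ∑ u ∈ U, (p u).eval (n : ℝ) * ∑ i ∈ Finset.range K, (r u i : ℝ) * Z (n + i) +
          ∑ u ∈ U, (p u).eval (n : ℝ) * (V u n - ∑ i ∈ Finset.range K, (r u i : ℝ) * Z (n + i)) := by
      rw [← Finset.sum_add_distrib]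
      exact Finset.sum_congr rfl fun u _ => by ring
    have h4 : |∑ u ∈ U, (p u).eval (n : ℝ) * ∑ i ∈ Finset.range K, (r u i : ℝ) * Z (n + i)| =
        Z (n + K) * |Q.eval (n : ℝ)| / Real.pi ^ (2 * K) := by
      rw [eq_div_iff hpi0.ne', mul_comm]
      have h5 := congrArg abs (hmain n)
      rw [abs_mul, abs_mul, abs_of_pos hpi0, abs_of_pos hZ] at h5
      exact h5
    have h5 : (G * |C0| + 1) * (n : ℝ) ^ A ≤ |Q.eval (n : ℝ)| / Real.pi ^ (2 * K) := by
      rw [le_div_iff₀ hpi0]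
      refine le_trans ?_ hn1
      rw [pow_succ]
      calc (G * |C0| + 1) * (n : ℝ) ^ A * Real.pi ^ (2 * K) =
          (n : ℝ) ^ A * (Real.pi ^ (2 * K) * (G * |C0| + 1)) := by ring
        _ ≤ _ := mul_le_mul_of_nonneg_left hn3 (by positivity)
    have h6 : (G * |C0| + 1) * (n : ℝ) ^ A * Z (n + K) ≤
        |∑ u ∈ U, (p u).eval (n : ℝ) * ∑ i ∈ Finset.range K, (r u i : ℝ) * Z (n + i)| := by
      rw [h4]
      calc _ ≤ |Q.eval (n : ℝ)| / Real.pi ^ (2 * K) * Z (n + K) := mul_le_mul_of_nonneg_right h5 hZ.le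
        _ = _ := by ring
    have h7 := herr n hn2
    have h8 := abs_sub_abs_le_abs_sub (∑ u ∈ U, (p u).eval (n : ℝ) * ∑ i ∈ Finset.range K, (r u i : ℝ) * Z (n + i))
      (-∑ u ∈ U, (p u).eval (n : ℝ) * (V u n - ∑ i ∈ Finset.range K, (r u i : ℝ) * Z (n + i)))
    rw [abs_neg, sub_neg_eq_add, ← h3] at h8
    have h9 : 1 * Z (n + K) ≤ (n : ℝ) ^ A * Z (n + K) := mul_le_mul_of_nonneg_right hnA hZ.le
    nlinarith
  have hup : Z n ≤ (n : ℝ) ^ (2 * K + 1) * Z (n + K) := by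
    have h3 := Z_rel (K := K) (i := 0) (Nat.zero_le _) n
    rw [add_zero, mul_zero, pow_zero, one_mul] at h3
    have h4 := eval_bound (dp K 0) (A := 2 * K) (by rw [dp_natDegree]; omega) hn'
    have h5 : Z n ≤ Z n * Real.pi ^ (2 * K) := le_mul_of_one_le_right (Z_nonneg n) hpi1
    have h6 : (dp K 0).eval (n : ℝ) ≤ (n : ℝ) ^ (2 * K + 1) := by
      refine (le_abs_self _).trans (h4.trans ?_)
      rw [← hF, pow_succ, mul_comm]
      exact mul_le_mul_of_nonneg_left hn4 (by positivity)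
    rw [h3] at h5
    refine h5.trans ?_
    rw [mul_comm]
    exact mul_le_mul_of_nonneg_right h6 hZ.le
  exact hup.trans (mul_le_mul_of_nonneg_left hlow (by positivity))

/-- **Exponential polynomials as coefficients** -/
theorem expo {ι : Type*} (U : Finset ι) (V : ι → ℕ → ℝ) (I : ℕ) (hV : Expan U V I)
    (hb : ∃ C : ℝ, ∀ u ∈ U, ∀ n, 1 ≤ n → |V u n| ≤ C * Z n) (J : Finset ℝ) (hJ : ∀ α ∈ J, 0 < α)
    (p : ℝ → ι → ℝ[X]) (hp : ∀ α ∈ J, ∀ u ∈ U, Alg (p α u)) (α₀ : ℝ) (hα₀ : α₀ ∈ J) (hne : ∃ u ∈ U, p α₀ u ≠ 0) :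
    ∃ B : ℕ, ∀ᶠ n : ℕ in atTop, α₀ ^ n * Z n ≤
      (n : ℝ) ^ B * |∑ α ∈ J, ∑ u ∈ U, α ^ n * (p α u).eval (n : ℝ) * V u n| := by
  classical
  obtain ⟨C, hC⟩ := hb
  set J' := J.filter fun α => ∃ u ∈ U, p α u ≠ 0 with hJ'
  have hα₀' : α₀ ∈ J' := Finset.mem_filter.2 ⟨hα₀, hne⟩
  set β := J'.max' ⟨α₀, hα₀'⟩ with hβ
  have hβ' : β ∈ J' := J'.max'_mem _
  obtain ⟨hβJ, hβne⟩ := Finset.mem_filter.1 hβ'
  have hαβ : α₀ ≤ β := J'.le_max' _ hα₀'
  have hβ0 := hJ β hβJ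
  obtain ⟨B, hB⟩ := single U V I hV (p β) (hp β hβJ) hβne
  set S : ℝ → ℕ → ℝ := fun α n => ∑ u ∈ U, (p α u).eval (n : ℝ) * V u n with hS
  set A : ℕ := ∑ α ∈ J, ∑ u ∈ U, (p α u).natDegree with hA
  have hAu : ∀ α ∈ J, ∀ u ∈ U, (p α u).natDegree ≤ A := by
    intro α hα u hu
    refine (Finset.single_le_sum (f := fun u => (p α u).natDegree) (fun _ _ => Nat.zero_le _) hu).trans ?_
    exact Finset.single_le_sum (f := fun α => ∑ u ∈ U, (p α u).natDegree) (fun _ _ => Nat.zero_le _) hα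
  set G : ℝ → ℝ := fun α => ∑ u ∈ U, (∑ k ∈ Finset.range (A + 1), |(p α u).coeff k|) * |C| with hG
  have hG0 : ∀ α, 0 ≤ G α := fun α => Finset.sum_nonneg fun _ _ =>
    mul_nonneg (Finset.sum_nonneg fun _ _ => abs_nonneg _) (abs_nonneg _)
  have hSup : ∀ α ∈ J, ∀ n : ℕ, 1 ≤ n → |S α n| ≤ G α * (n : ℝ) ^ A * Z n := by
    intro α hα n hn
    have hn' : (1 : ℝ) ≤ n := by exact_mod_cast hn
    refine (Finset.abs_sum_le_sum_abs _ _).trans ?_
    rw [hG]
    simp only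
    rw [Finset.sum_mul, Finset.sum_mul]
    refine Finset.sum_le_sum fun u hu => ?_
    rw [abs_mul]
    have h4 := eval_bound (p α u) (hAu α hα u hu) hn'
    have h5 : |V u n| ≤ |C| * Z n := (hC u hu n hn).trans (mul_le_mul_of_nonneg_right (le_abs_self _) (Z_nonneg _))
    calc _ ≤ (∑ k ∈ Finset.range (A + 1), |(p α u).coeff k|) * (n : ℝ) ^ A * (|C| * Z n) :=
          mul_le_mul h4 h5 (abs_nonneg _) (mul_nonneg (Finset.sum_nonneg fun _ _ => abs_nonneg _) (by positivity))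
      _ = _ := by ring
  -- the smaller bases
  have hsmall : ∀ α ∈ J.erase β, ∃ g : ℕ → ℝ, Tendsto g atTop (𝓝 0) ∧ ∀ n : ℕ, 1 ≤ n →
      |α ^ n * S α n| * (n : ℝ) ^ B ≤ g n * (β ^ n * Z n) := by
    intro α hα
    obtain ⟨hαne, hαJ⟩ := Finset.mem_erase.1 hα
    have hα0 := hJ α hαJ
    by_cases h : α ∈ J'
    · have hlt : α < β := lt_of_le_of_ne (J'.le_max' _ h) hαne
      refine ⟨fun n => G α * ((n : ℝ) ^ (A + B) * (α / β) ^ n), ?_, fun n hn => ?_⟩
      · have h1 := tendsto_pow_const_mul_const_pow_of_abs_lt_one (A + B) (r := α / β) (by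
          rw [abs_of_pos (div_pos hα0 hβ0), div_lt_one hβ0]
          exact hlt)
        have h2 := h1.const_mul (G α)
        rwa [mul_zero] at h2
      · rw [abs_mul, abs_of_pos (pow_pos hα0 n)]
        have h1 := hSup α hαJ n hn
        calc α ^ n * |S α n| * (n : ℝ) ^ B ≤ α ^ n * (G α * (n : ℝ) ^ A * Z n) * (n : ℝ) ^ B := by
              gcongr
          _ = G α * ((n : ℝ) ^ (A + B) * (α / β) ^ n) * (β ^ n * Z n) := by
              rw [div_pow, pow_add]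
              field_simp
    · refine ⟨fun _ => 0, tendsto_const_nhds, fun n _ => ?_⟩
      have h1 : ∀ u ∈ U, p α u = 0 := by
        intro u hu
        by_contra h2
        exact h (Finset.mem_filter.2 ⟨hαJ, u, hu, h2⟩)
      have h2 : S α n = 0 := Finset.sum_eq_zero fun u hu => by rw [h1 u hu]; simp
      rw [h2]
      simp
  choose! g hg0 hg using hsmall
  have hgsum : Tendsto (fun n => ∑ α ∈ J.erase β, g α n) atTop (𝓝 0) := by
    have := tendsto_finsetSum (J.erase β) fun α hα => hg0 α hα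
    simpa using this
  refine ⟨B + 1, ?_⟩
  filter_upwards [hB, hgsum.eventually (ge_mem_nhds (show (0 : ℝ) < 1 / 2 by norm_num)),
    eventually_ge_atTop 2] with n h1 h2 h3
  have hn' : (2 : ℝ) ≤ n := by exact_mod_cast h3
  have hnB : (0 : ℝ) < (n : ℝ) ^ B := by positivity
  have hZ := Z_pos n
  have hβn : 0 < β ^ n := pow_pos hβ0 n
  have hsplit : ∑ α ∈ J, ∑ u ∈ U, α ^ n * (p α u).eval (n : ℝ) * V u n =
      β ^ n * S β n + ∑ α ∈ J.erase β, α ^ n * S α n := by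
    rw [Finset.add_sum_erase J (fun α => α ^ n * S α n) hβJ]
    refine Finset.sum_congr rfl fun α _ => ?_
    rw [hS]
    simp only
    rw [Finset.mul_sum]
    exact Finset.sum_congr rfl fun u _ => by ring
  have hrest : |∑ α ∈ J.erase β, α ^ n * S α n| * (n : ℝ) ^ B ≤ 1 / 2 * (β ^ n * Z n) := by
    calc _ ≤ (∑ α ∈ J.erase β, |α ^ n * S α n|) * (n : ℝ) ^ B :=
          mul_le_mul_of_nonneg_right (Finset.abs_sum_le_sum_abs _ _) hnB.le
      _ ≤ ∑ α ∈ J.erase β, g α n * (β ^ n * Z n) := by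
          rw [Finset.sum_mul]
          exact Finset.sum_le_sum fun α hα => hg α hα n (by omega)
      _ = (∑ α ∈ J.erase β, g α n) * (β ^ n * Z n) := by rw [Finset.sum_mul]
      _ ≤ _ := mul_le_mul_of_nonneg_right h2 (by positivity)
  have hbig : β ^ n * Z n ≤ |β ^ n * S β n| * (n : ℝ) ^ B := by
    rw [abs_mul, abs_of_pos hβn]
    calc β ^ n * Z n ≤ β ^ n * ((n : ℝ) ^ B * |S β n|) := mul_le_mul_of_nonneg_left h1 hβn.le
      _ = _ := by ring
  have h8 := abs_sub_abs_le_abs_sub (β ^ n * S β n) (-∑ α ∈ J.erase β, α ^ n * S α n)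
  rw [abs_neg, sub_neg_eq_add, ← hsplit] at h8
  set X0 := |∑ α ∈ J, ∑ u ∈ U, α ^ n * (p α u).eval (n : ℝ) * V u n| with hX0
  have h9 : 1 / 2 * (β ^ n * Z n) ≤ X0 * (n : ℝ) ^ B := by
    have h10 := mul_le_mul_of_nonneg_right h8 hnB.le
    rw [sub_mul] at h10
    linarith
  have h11 : α₀ ^ n * Z n ≤ β ^ n * Z n :=
    mul_le_mul_of_nonneg_right (pow_le_pow_left₀ (hJ α₀ hα₀).le hαβ n) hZ.le
  have hX00 : 0 ≤ X0 := abs_nonneg _
  calc α₀ ^ n * Z n ≤ β ^ n * Z n := h11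
    _ ≤ 2 * (X0 * (n : ℝ) ^ B) := by linarith
    _ ≤ n * (X0 * (n : ℝ) ^ B) := mul_le_mul_of_nonneg_right hn' (by positivity)
    _ = (n : ℝ) ^ (B + 1) * X0 := by ring

end Pool.Agent.L7h24.CS
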