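import Mathlib
import Pool.Agent.Q217.TT.Measure
import Pool.Agent.L7h24.CS.Exp

/-!
# No relations of small height between the `ζ(u q)`, `u ∈ U`
-/

set_option autoImplicit false

namespace Pool.Agent.L7h24.CS

open Filter Topology
open Pool.Agent.H447R2.MZ (H H_nil H_cons H_cons_zero H_cons_succ H_nonneg Adm val tendsto_H H_le_val)
open Pool.Agent.Q217.TT (ep ep_nil ep_self ep_nonneg ep_mono H_app)

/-- the inverse of `wd` -/
def iw (u : List ℕ) : List ℕ := (u.map (fun x => x - 2)).reverse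

lemma wd_iw {u : List ℕ} (hu : ∀ x ∈ u, 2 ≤ x) : wd (iw u) = u := by
  rw [wd, iw, List.map_reverse, List.reverse_reverse, List.map_map]
  conv_rhs => rw [← List.map_id u]
  apply List.map_congr_left
  intro x hx
  have := hu x hx
  simp only [Function.comp_apply, id]
  omega

theorem indep' (U : Finset (List ℕ)) (hU : ∀ u ∈ U, ∀ x ∈ u, 2 ≤ x) (c : List ℕ → ℚ)
    (h : Rapid fun m => ∑ u ∈ U, (c u : ℝ) * T u m) : ∀ u ∈ U, c u = 0 := by
  classical
  have h1 := indep (U.image iw) (fun w => c (wd w)) ?_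
  · intro u hu
    have h2 := h1 (iw u) (Finset.mem_image_of_mem _ hu)
    rwa [wd_iw (hU u hu)] at h2
  · refine (congrArg Rapid ?_).mp h
    funext m
    rw [Finset.sum_image]
    · exact Finset.sum_congr rfl fun u hu => by rw [wd_iw (hU u hu)]
    · intro u hu v hv huv
      rw [← wd_iw (hU u hu), huv, wd_iw (hU v hv)]

/-- the order of vanishing is bounded -/
theorem order_bdd (U : Finset (List ℕ)) (hU : ∀ u ∈ U, ∀ x ∈ u, 2 ≤ x) : ∃ E : ℕ, ∀ c : List ℕ → ℚ,
    (∃ C : ℝ, ∀ m : ℕ, 1 ≤ m → |∑ u ∈ U, (c u : ℝ) * T u m| ≤ C * (1 / (m : ℝ)) ^ E) → ∀ u ∈ U, c u = 0 := by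
  classical
  let K : ℕ → Submodule ℚ (U → ℚ) := fun E =>
    { carrier := {c | ∃ C : ℝ, ∀ m : ℕ, 1 ≤ m → |∑ u : U, (c u : ℝ) * T u.1 m| ≤ C * (1 / (m : ℝ)) ^ E}
      zero_mem' := ⟨0, fun m _ => by simp⟩
      add_mem' := by
        rintro a b ⟨C, hC⟩ ⟨D, hD⟩
        refine ⟨C + D, fun m hm => ?_⟩
        have h1 : ∑ u : U, (((a + b) u : ℚ) : ℝ) * T u.1 m =
            ∑ u : U, ((a u : ℚ) : ℝ) * T u.1 m + ∑ u : U, ((b u : ℚ) : ℝ) * T u.1 m := by
          rw [← Finset.sum_add_distrib]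
          refine Finset.sum_congr rfl fun u _ => ?_
          rw [Pi.add_apply]
          push_cast
          ring
        rw [h1, add_mul]
        exact (abs_add_le _ _).trans (add_le_add (hC m hm) (hD m hm))
      smul_mem' := by
        rintro q a ⟨C, hC⟩
        refine ⟨|(q : ℝ)| * C, fun m hm => ?_⟩
        have h1 : ∑ u : U, (((q • a) u : ℚ) : ℝ) * T u.1 m = (q : ℝ) * ∑ u : U, ((a u : ℚ) : ℝ) * T u.1 m := by
          rw [Finset.mul_sum]
          refine Finset.sum_congr rfl fun u _ => ?_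
          rw [Pi.smul_apply, smul_eq_mul]
          push_cast
          ring
        rw [h1, abs_mul, mul_assoc]
        exact mul_le_mul_of_nonneg_left (hC m hm) (abs_nonneg _) }
  let F : ℕ →o (Submodule ℚ (U → ℚ))ᵒᵈ :=
    ⟨fun E => OrderDual.toDual (K E), fun a b hab c hc => by
      obtain ⟨C, hC⟩ := hc
      refine ⟨|C|, fun m hm => (hC m hm).trans ?_⟩
      have h1 : (1 / (m : ℝ)) ^ b ≤ (1 / (m : ℝ)) ^ a := pow_le_pow_of_le_one (x_nonneg m) (x_le_one m) hab
      exact mul_le_mul (le_abs_self C) h1 (by positivity) (abs_nonneg _)⟩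
  obtain ⟨E, hE⟩ := IsArtinian.monotone_stabilizes F
  refine ⟨E, fun c hc => indep' U hU c fun k => ?_⟩
  have h1 : (fun u : U => c u.1) ∈ K E := by
    obtain ⟨C, hC⟩ := hc
    refine ⟨C, fun m hm => ?_⟩
    have := hC m hm
    rwa [← Finset.sum_coe_sort U] at this
  have h2 : K E = K (max E (k + 1)) := hE (max E (k + 1)) (le_max_left _ _)
  rw [h2] at h1
  obtain ⟨C, hC⟩ := h1
  filter_upwards [eventually_ge_atTop 1, tendsto_natCast_atTop_atTop.eventually_ge_atTop |C|] with m hm1 hm2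
  have h3 := hC m hm1
  rw [Finset.sum_coe_sort U (fun u => (c u : ℝ) * T u m)] at h3
  have hm0 : (0 : ℝ) < m := by exact_mod_cast hm1
  have h4 : (1 / (m : ℝ)) ^ max E (k + 1) ≤ (1 / (m : ℝ)) ^ (k + 1) :=
    pow_le_pow_of_le_one (x_nonneg m) (x_le_one m) (le_max_right _ _)
  have h5 : |∑ u ∈ U, (c u : ℝ) * T u m| ≤ |C| * (1 / (m : ℝ)) ^ (k + 1) :=
    h3.trans (mul_le_mul (le_abs_self C) h4 (by positivity) (abs_nonneg _))
  calc |∑ u ∈ U, (c u : ℝ) * T u m| * (m : ℝ) ^ k ≤ |C| * (1 / (m : ℝ)) ^ (k + 1) * (m : ℝ) ^ k :=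
        mul_le_mul_of_nonneg_right h5 (by positivity)
    _ = |C| / m := by
        rw [div_pow, one_pow, pow_succ]
        field_simp
    _ ≤ 1 := by
        rw [div_le_one hm0]
        exact hm2

/-- a common denominator -/
lemma den_bound {ι κ : Type*} (S : Finset ι) (R : Finset κ) (a : ι → κ → ℚ) : ∃ D : ℕ, 1 ≤ D ∧
    ∀ (c : ι → ℤ), ∀ k ∈ R, ∑ u ∈ S, (c u : ℚ) * a u k ≠ 0 → 1 / (D : ℚ) ≤ |∑ u ∈ S, (c u : ℚ) * a u k| := by
  classical
  refine ⟨∏ u ∈ S, ∏ k ∈ R, (a u k).den, ?_, ?_⟩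
  · exact Nat.succ_le_of_lt (Finset.prod_pos fun u _ => Finset.prod_pos fun n _ => Rat.den_pos _)
  · intro c n hn hne
    set D := ∏ u ∈ S, ∏ k ∈ R, (a u k).den with hD
    have hD0 : 0 < D := Finset.prod_pos fun u _ => Finset.prod_pos fun n _ => Rat.den_pos _
    have h1 : ∀ u ∈ S, ∃ z : ℤ, (D : ℚ) * a u n = z := by
      intro u hu
      have h2 : (a u n).den ∣ D :=
        (Finset.dvd_prod_of_mem (fun n => (a u n).den) hn).trans
          (Finset.dvd_prod_of_mem (fun u => ∏ k ∈ R, (a u k).den) hu)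
      obtain ⟨k, hk⟩ := h2
      refine ⟨k * (a u n).num, ?_⟩
      rw [hk]
      push_cast
      have h3 := Rat.mul_den_eq_num (a u n)
      rw [← h3]
      ring
    choose! z hz using h1
    have h4 : (D : ℚ) * ∑ u ∈ S, (c u : ℚ) * a u n = ((∑ u ∈ S, c u * z u : ℤ) : ℚ) := by
      rw [Finset.mul_sum]
      push_cast
      refine Finset.sum_congr rfl fun u hu => ?_
      rw [← hz u hu]
      ring
    have hDq : (0 : ℚ) < D := by exact_mod_cast hD0
    have h5 : (∑ u ∈ S, c u * z u : ℤ) ≠ 0 := by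
      intro h
      rw [h, Int.cast_zero] at h4
      rcases mul_eq_zero.1 h4 with h | h
      · exact hDq.ne' h
      · exact hne h
    have h6 : (1 : ℚ) ≤ |((∑ u ∈ S, c u * z u : ℤ) : ℚ)| := by
      rw [← Int.cast_abs]
      exact_mod_cast Int.one_le_abs h5
    rw [← h4, abs_mul, abs_of_pos hDq] at h6
    rw [div_le_iff₀ hDq, mul_comm]
    exact h6

/-- **The sign and the size of small combinations of tails** -/
theorem sign_bound (U : Finset (List ℕ)) (hU : ∀ u ∈ U, ∀ x ∈ u, 2 ≤ x) : ∃ κ : ℝ, 0 < κ ∧ ∃ E : ℕ,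
    ∀ (c : List ℕ → ℤ) (L : ℝ), (∀ u ∈ U, |(c u : ℝ)| ≤ κ * L) → (∃ u ∈ U, c u ≠ 0) →
      ∃ ε : ℝ, |ε| = 1 ∧ ∀ m : ℕ, 1 ≤ m → L ≤ m → κ * (1 / (m : ℝ)) ^ E ≤ ε * ∑ u ∈ U, (c u : ℝ) * T u m := by
  classical
  obtain ⟨E, hE⟩ := order_bdd U hU
  have hch : ∀ u : List ℕ, ∃ (P : Polynomial ℚ) (C : ℝ), u ∈ U → ∀ m : ℕ, 1 ≤ m →
      |T u m - Polynomial.aeval (1 / (m : ℝ)) P| ≤ C * (1 / (m : ℝ)) ^ E := by
    intro u
    by_cases hu : u ∈ U
    · obtain ⟨P, C, h⟩ := ae_T (hU u hu) E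
      exact ⟨P, C, fun _ => h⟩
    · exact ⟨0, 0, fun h => absurd h hu⟩
  choose P C hPC using hch
  obtain ⟨D, hD1, hD⟩ := den_bound U (Finset.range E) (fun u k => (P u).coeff k)
  have hDr : (0 : ℝ) < D := by exact_mod_cast hD1
  set N : ℕ := E + ∑ u ∈ U, (P u).natDegree + 1 with hN
  set B : ℝ := ∑ u ∈ U, (∑ k ∈ Finset.range N, |((P u).coeff k : ℝ)| + |C u|) with hB
  have hB0 : 0 ≤ B := Finset.sum_nonneg fun u _ =>
    add_nonneg (Finset.sum_nonneg fun _ _ => abs_nonneg _) (abs_nonneg _)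
  have hPN : ∀ u ∈ U, ∀ x : ℝ, Polynomial.aeval x (P u) = ∑ k ∈ Finset.range N, ((P u).coeff k : ℝ) * x ^ k := by
    intro u hu x
    have h1 : (P u).natDegree < N := by
      have := Finset.single_le_sum (f := fun u => (P u).natDegree) (fun _ _ => Nat.zero_le _) hu
      omega
    rw [Polynomial.aeval_eq_sum_range' h1]
    refine Finset.sum_congr rfl fun k _ => ?_
    rw [Rat.smul_def]
  refine ⟨1 / (D * (B + 1)), by positivity, E, fun c L hc hne => ?_⟩
  set κ : ℝ := 1 / (D * (B + 1)) with hκ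
  have hκ0 : 0 < κ := by positivity
  have hκD : κ * (B + 1) = 1 / D := by
    rw [hκ]
    field_simp
  -- the coefficients
  set a : ℕ → ℚ := fun k => ∑ u ∈ U, (c u : ℚ) * (P u).coeff k with ha
  have hsplit : ∀ m : ℕ, ∑ u ∈ U, (c u : ℝ) * T u m =
      ∑ k ∈ Finset.range N, (a k : ℝ) * (1 / (m : ℝ)) ^ k +
        ∑ u ∈ U, (c u : ℝ) * (T u m - Polynomial.aeval (1 / (m : ℝ)) (P u)) := by
    intro m
    have h1 : ∑ k ∈ Finset.range N, (a k : ℝ) * (1 / (m : ℝ)) ^ k =
        ∑ u ∈ U, (c u : ℝ) * Polynomial.aeval (1 / (m : ℝ)) (P u) := by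
      have h2 : ∀ u ∈ U, (c u : ℝ) * Polynomial.aeval (1 / (m : ℝ)) (P u) =
          ∑ k ∈ Finset.range N, (c u : ℝ) * (((P u).coeff k : ℝ) * (1 / (m : ℝ)) ^ k) := by
        intro u hu
        rw [hPN u hu, Finset.mul_sum]
      rw [Finset.sum_congr rfl h2, Finset.sum_comm]
      refine Finset.sum_congr rfl fun k _ => ?_
      rw [ha]
      push_cast
      rw [Finset.sum_mul]
      exact Finset.sum_congr rfl fun u _ => by ring
    rw [h1, ← Finset.sum_add_distrib]
    exact Finset.sum_congr rfl fun u _ => by ring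
  have hex : ∃ k, k < E ∧ a k ≠ 0 := by
    by_contra hcon
    push Not at hcon
    obtain ⟨u, hu, hcu⟩ := hne
    apply hcu
    have h1 := hE (fun u => (c u : ℚ)) ?_ u hu
    · exact_mod_cast h1
    · refine ⟨∑ k ∈ Finset.range N, |(a k : ℝ)| + ∑ u ∈ U, |(c u : ℝ)| * |C u|, fun m hm => ?_⟩
      have h2 := hsplit m
      simp only [Rat.cast_intCast]
      rw [h2, add_mul]
      refine (abs_add_le _ _).trans (add_le_add ?_ ?_)
      · rw [Finset.sum_mul]
        refine (Finset.abs_sum_le_sum_abs _ _).trans (Finset.sum_le_sum fun k _ => ?_)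
        rw [abs_mul, abs_of_nonneg (by positivity : (0 : ℝ) ≤ (1 / (m : ℝ)) ^ k)]
        rcases Nat.lt_or_ge k E with h | h
        · rw [hcon k h]
          simp
        · exact mul_le_mul_of_nonneg_left (pow_le_pow_of_le_one (x_nonneg m) (x_le_one m) h) (abs_nonneg _)
      · rw [Finset.sum_mul]
        refine (Finset.abs_sum_le_sum_abs _ _).trans (Finset.sum_le_sum fun u hu => ?_)
        rw [abs_mul, mul_assoc]
        refine mul_le_mul_of_nonneg_left ((hPC u hu m hm).trans ?_) (abs_nonneg _)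
        exact mul_le_mul_of_nonneg_right (le_abs_self _) (by positivity)
  set e := Nat.find hex with he
  obtain ⟨heE, hae⟩ : e < E ∧ a e ≠ 0 := Nat.find_spec hex
  have hmin : ∀ k < e, a k = 0 := by
    intro k hk
    have h1 := Nat.find_min hex hk
    by_contra h2
    exact h1 ⟨hk.trans heE, h2⟩
  have hlow : 1 / (D : ℝ) ≤ |(a e : ℝ)| := by
    have h1 := hD c e (Finset.mem_range.2 heE) hae
    have h2 := (Rat.cast_le (K := ℝ)).2 h1
    rw [Rat.cast_div, Rat.cast_one, Rat.cast_natCast, Rat.cast_abs] at h2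
    exact h2
  set ε : ℝ := ((SignType.sign (a e : ℝ) : SignType) : ℝ) with hε
  have hae' : (a e : ℝ) ≠ 0 := by exact_mod_cast hae
  have hε1 : |ε| = 1 := by
    rcases lt_or_gt_of_ne hae' with h | h
    · rw [hε, sign_neg h]
      simp
    · rw [hε, sign_pos h]
      simp
  have hεa : ε * (a e : ℝ) = |(a e : ℝ)| := sign_mul_self _
  refine ⟨ε, hε1, fun m hm hL => ?_⟩
  have hm0 : (0 : ℝ) < m := by exact_mod_cast hm
  set x : ℝ := 1 / (m : ℝ) with hx
  have hx0 : 0 ≤ x := x_nonneg m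
  have hx1 : x ≤ 1 := x_le_one m
  have hLx : κ * L * x ≤ κ := by
    have h1 : L * x ≤ 1 := by
      rw [hx, mul_one_div, div_le_one hm0]
      exact hL
    calc κ * L * x = κ * (L * x) := by ring
      _ ≤ κ * 1 := mul_le_mul_of_nonneg_left h1 hκ0.le
      _ = κ := mul_one _
  have hκL : 0 ≤ κ * L := by
    obtain ⟨u, hu, _⟩ := hne
    exact (abs_nonneg _).trans (hc u hu)
  have hmain : |∑ u ∈ U, (c u : ℝ) * T u m - (a e : ℝ) * x ^ e| ≤ κ * B * x ^ e := by
    have h0 : ∑ k ∈ Finset.range N, (a k : ℝ) * x ^ k - (a e : ℝ) * x ^ e =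
        ∑ k ∈ (Finset.range N).erase e, (a k : ℝ) * x ^ k := by
      rw [← Finset.add_sum_erase (Finset.range N) (fun k => (a k : ℝ) * x ^ k)
        (Finset.mem_range.2 (by omega : e < N))]
      ring
    rw [hsplit m, add_sub_right_comm, h0]
    have h1 : |∑ k ∈ (Finset.range N).erase e, (a k : ℝ) * x ^ k| ≤
        (∑ u ∈ U, ∑ k ∈ Finset.range N, |((P u).coeff k : ℝ)|) * (κ * L) * x ^ (e + 1) := by
      refine (Finset.abs_sum_le_sum_abs _ _).trans ?_
      have h2 : ∀ k ∈ (Finset.range N).erase e, |(a k : ℝ) * x ^ k| ≤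
          (∑ u ∈ U, |((P u).coeff k : ℝ)|) * (κ * L) * x ^ (e + 1) := by
        intro k hk
        rw [abs_mul, abs_of_nonneg (by positivity : (0 : ℝ) ≤ x ^ k)]
        rcases Nat.lt_or_ge k e with h | h
        · rw [hmin k h]
          simp only [Rat.cast_zero, abs_zero, zero_mul]
          exact mul_nonneg (mul_nonneg (Finset.sum_nonneg fun _ _ => abs_nonneg _) hκL) (by positivity)
        · have h3 : e + 1 ≤ k := by
            have := (Finset.mem_erase.1 hk).1
            omega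
          refine mul_le_mul ?_ (pow_le_pow_of_le_one hx0 hx1 h3) (by positivity)
            (mul_nonneg (Finset.sum_nonneg fun _ _ => abs_nonneg _) hκL)
          rw [ha]
          push_cast
          refine (Finset.abs_sum_le_sum_abs _ _).trans ?_
          rw [Finset.sum_mul]
          refine Finset.sum_le_sum fun u hu => ?_
          rw [abs_mul, mul_comm]
          exact mul_le_mul_of_nonneg_left (hc u hu) (abs_nonneg _)
      refine (Finset.sum_le_sum h2).trans ?_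
      rw [← Finset.sum_mul, ← Finset.sum_mul]
      refine mul_le_mul_of_nonneg_right (mul_le_mul_of_nonneg_right ?_ hκL) (by positivity)
      rw [Finset.sum_comm (s := U)]
      exact Finset.sum_le_sum_of_subset_of_nonneg (Finset.erase_subset _ _) fun _ _ _ =>
        Finset.sum_nonneg fun _ _ => abs_nonneg _
    have h2 : |∑ u ∈ U, (c u : ℝ) * (T u m - Polynomial.aeval x (P u))| ≤
        (∑ u ∈ U, |C u|) * (κ * L) * x ^ (e + 1) := by
      refine (Finset.abs_sum_le_sum_abs _ _).trans ?_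
      rw [Finset.sum_mul, Finset.sum_mul]
      refine Finset.sum_le_sum fun u hu => ?_
      rw [abs_mul]
      have h3 : |T u m - Polynomial.aeval x (P u)| ≤ |C u| * x ^ (e + 1) :=
        (hPC u hu m hm).trans (mul_le_mul (le_abs_self _)
          (pow_le_pow_of_le_one hx0 hx1 (by omega)) (by positivity) (abs_nonneg _))
      calc _ ≤ (κ * L) * (|C u| * x ^ (e + 1)) := mul_le_mul (hc u hu) h3 (abs_nonneg _) hκL
        _ = _ := by ring
    refine (abs_add_le _ _).trans ((add_le_add h1 h2).trans ?_)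
    have h3 : (∑ u ∈ U, ∑ k ∈ Finset.range N, |((P u).coeff k : ℝ)|) * (κ * L) * x ^ (e + 1) +
        (∑ u ∈ U, |C u|) * (κ * L) * x ^ (e + 1) = B * (κ * L * x) * x ^ e := by
      rw [hB, Finset.sum_add_distrib, pow_succ]
      ring
    rw [h3, mul_comm κ B]
    exact mul_le_mul_of_nonneg_right (mul_le_mul_of_nonneg_left hLx hB0) (by positivity)
  have h4 : ε * (a e : ℝ) * x ^ e - κ * B * x ^ e ≤ ε * ∑ u ∈ U, (c u : ℝ) * T u m := by
    have h5 : ε * ∑ u ∈ U, (c u : ℝ) * T u m =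
        ε * (a e : ℝ) * x ^ e + ε * (∑ u ∈ U, (c u : ℝ) * T u m - (a e : ℝ) * x ^ e) := by ring
    have h6 : |ε * (∑ u ∈ U, (c u : ℝ) * T u m - (a e : ℝ) * x ^ e)| ≤ κ * B * x ^ e := by
      rw [abs_mul, hε1, one_mul]
      exact hmain
    rw [h5]
    linarith [neg_abs_le (ε * (∑ u ∈ U, (c u : ℝ) * T u m - (a e : ℝ) * x ^ e))]
  refine le_trans ?_ h4
  rw [hεa]
  have h7 : κ * x ^ E ≤ κ * x ^ e :=
    mul_le_mul_of_nonneg_left (pow_le_pow_of_le_one hx0 hx1 heE.le) hκ0.le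
  refine h7.trans ?_
  have h8 : 1 / (D : ℝ) * x ^ e ≤ |(a e : ℝ)| * x ^ e := mul_le_mul_of_nonneg_right hlow (by positivity)
  rw [← hκD] at h8
  linarith

/-! ### The sums -/

lemma adm_append {u q : List ℕ} (hu : ∀ x ∈ u, 2 ≤ x) (hq : Adm q) : Adm (u ++ q) := by
  refine ⟨fun x hx => ?_, fun x t h => ?_⟩
  · rcases List.mem_append.1 hx with h | h
    · exact le_trans (by norm_num) (hu x h)
    · exact hq.1 x h
  · cases u with
    | nil => exact hq.2 x t h
    | cons y u =>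
      rw [List.cons_append] at h
      rw [← (List.cons.inj h).1]
      exact hu y List.mem_cons_self

lemma hasSum_tail {u : List ℕ} (hu : ∀ x ∈ u, 2 ≤ x) {s : ℕ} {q : List ℕ} (hq : Adm (s :: q)) :
    HasSum (fun n : ℕ => H q n * (((n + 1 : ℕ) : ℝ) ^ s)⁻¹ * T u (n + 1)) (val (u ++ s :: q)) := by
  have hadm := adm_append hu hq
  set G : ℕ → ℝ := fun n => H q n * (((n + 1 : ℕ) : ℝ) ^ s)⁻¹ with hG
  have hG0 : ∀ n, 0 ≤ G n := fun n => mul_nonneg (H_nonneg _ _) (by positivity)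
  have hg0 : ∀ n, 0 ≤ G n * T u (n + 1) := fun n => mul_nonneg (hG0 n) (T_nonneg hu (by omega))
  have hpart : ∀ N', ∑ n ∈ Finset.range N', G n * T u (n + 1) ≤ val (u ++ s :: q) := by
    intro N'
    have h1 : Tendsto (fun N => ∑ n ∈ Finset.range N', G n * ep u (n + 1) N) atTop
        (𝓝 (∑ n ∈ Finset.range N', G n * T u (n + 1))) :=
      tendsto_finsetSum _ fun n _ => (tendsto_T hu (by omega)).const_mul _
    refine le_of_tendsto h1 ?_
    filter_upwards [eventually_ge_atTop N'] with N hN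
    refine le_trans ?_ (H_le_val _ hadm N)
    rw [H_app]
    exact Finset.sum_le_sum_of_subset_of_nonneg (Finset.range_mono hN) fun n _ _ =>
      mul_nonneg (hG0 n) (ep_nonneg _ _ _)
  have hsum : Summable fun n => G n * T u (n + 1) := summable_of_sum_range_le hg0 hpart
  have h1 : ∑' n, G n * T u (n + 1) ≤ val (u ++ s :: q) := Real.tsum_le_of_sum_range_le hg0 hpart
  have h2 : val (u ++ s :: q) ≤ ∑' n, G n * T u (n + 1) := by
    refine le_of_tendsto (tendsto_H _ hadm) (Eventually.of_forall fun N => ?_)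
    rw [H_app]
    refine le_trans (Finset.sum_le_sum fun n hn => ?_) (hsum.sum_le_tsum (Finset.range N) fun n _ => hg0 n)
    exact mul_le_mul_of_nonneg_left (ep_le_T hu (by omega) (by have := Finset.mem_range.1 hn; omega)) (hG0 n)
  rw [le_antisymm h2 h1]
  exact hsum.hasSum

lemma H_zero_of_lt (q : List ℕ) : ∀ n < q.length, H q n = 0 := by
  induction q with
  | nil => intro n hn; exact absurd hn (Nat.not_lt_zero _)
  | cons a q ih =>
    intro n hn
    rw [H_cons]
    refine Finset.sum_eq_zero fun k hk => ?_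
    rw [ih k (by have := Finset.mem_range.1 hk; rw [List.length_cons] at hn; omega), mul_zero]

/-- **Theorem.** -/
theorem main (U : Finset (List ℕ)) (hU : ∀ u ∈ U, ∀ x ∈ u, 2 ≤ x) : ∃ κ : ℝ, 0 < κ ∧ ∃ M : ℕ,
    ∀ q : List ℕ, q ≠ [] → Adm q → ∀ c : List ℕ → ℤ, (∀ u ∈ U, |(c u : ℝ)| ≤ κ * q.length) → (∃ u ∈ U, c u ≠ 0) →
      κ * val (List.replicate M 2 ++ q) ≤ |∑ u ∈ U, (c u : ℝ) * val (u ++ q)| := by
  obtain ⟨κ, hκ, E, h⟩ := sign_bound U hU
  refine ⟨κ, hκ, E, fun q hq0 hq c hc hne => ?_⟩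
  obtain ⟨ε, hε, hb⟩ := h c q.length hc hne
  cases q with
  | nil => exact absurd rfl hq0
  | cons s q =>
    have h2 : ∀ x ∈ List.replicate E 2, 2 ≤ x := fun x hx => by rw [List.eq_of_mem_replicate hx]
    have s1 : HasSum (fun n : ℕ => H q n * (((n + 1 : ℕ) : ℝ) ^ s)⁻¹ * (ε * ∑ u ∈ U, (c u : ℝ) * T u (n + 1)))
        (ε * ∑ u ∈ U, (c u : ℝ) * val (u ++ s :: q)) := by
      have h3 := (hasSum_sum fun u (hu : u ∈ U) => (hasSum_tail (hU u hu) hq).mul_left (c u : ℝ)).mul_left ε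
      refine (congrArg (fun f => HasSum f _) ?_).mp h3
      funext n
      rw [Finset.mul_sum, Finset.mul_sum, Finset.mul_sum]
      exact Finset.sum_congr rfl fun u _ => by ring
    have s2 := (hasSum_tail h2 hq).mul_left κ
    have h4 : κ * val (List.replicate E 2 ++ s :: q) ≤ ε * ∑ u ∈ U, (c u : ℝ) * val (u ++ s :: q) := by
      refine hasSum_le (fun n => ?_) s2 s1
      rcases Nat.lt_or_ge n q.length with h5 | h5
      · rw [H_zero_of_lt q n h5]
        simp
      · have h6 := hb (n + 1) (by omega) (by rw [List.length_cons]; exact_mod_cast (by omega : q.length + 1 ≤ n + 1))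
        have h7 : 0 ≤ H q n * (((n + 1 : ℕ) : ℝ) ^ s)⁻¹ := mul_nonneg (H_nonneg _ _) (by positivity)
        have h8 := T_le h2 (by omega : 1 ≤ n + 1)
        rw [List.length_replicate] at h8
        calc κ * (H q n * (((n + 1 : ℕ) : ℝ) ^ s)⁻¹ * T (List.replicate E 2) (n + 1))
            = H q n * (((n + 1 : ℕ) : ℝ) ^ s)⁻¹ * (κ * T (List.replicate E 2) (n + 1)) := by ring
          _ ≤ H q n * (((n + 1 : ℕ) : ℝ) ^ s)⁻¹ * (κ * (1 / ((n + 1 : ℕ) : ℝ)) ^ E) :=
              mul_le_mul_of_nonneg_left (mul_le_mul_of_nonneg_left h8 hκ.le) h7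
          _ ≤ _ := mul_le_mul_of_nonneg_left h6 h7
    refine h4.trans ((le_abs_self _).trans ?_)
    rw [abs_mul, hε, one_mul]

end Pool.Agent.L7h24.CS
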