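import Mathlib
import Pool.Agent.L7h24.CS.Main
import Pool.Agent.L7h24.CS.Ev

/-!
# The numbers `ζ(u 2 ... 2)`: expansions in the `ζ(2, ..., 2)`
-/

set_option autoImplicit false

namespace Pool.Agent.L7h24.CS

open Filter Topology Polynomial
open Pool.Agent.H447R2.MZ (H H_nil H_cons H_cons_zero H_cons_succ H_nonneg Adm val tendsto_H H_le_val)

/-- the words of letters `2` -/
abbrev w2 (i : ℕ) : List ℕ := List.replicate i 2

lemma w2_ge (i : ℕ) : ∀ x ∈ w2 i, 2 ≤ x := fun x hx => by rw [List.eq_of_mem_replicate hx]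

lemma w2_succ' (i : ℕ) : w2 (i + 1) = w2 i ++ [2] := List.replicate_succ'

lemma w2_zero : w2 0 = [] := rfl

/-- lower bound for the tails of `ζ(2, ..., 2)` -/
lemma T2_lower (K : ℕ) : ∃ c : ℝ, 0 < c ∧ ∀ m : ℕ, 1 ≤ m → c * (1 / (m : ℝ)) ^ K ≤ T (w2 K) m := by
  induction K with
  | zero =>
    refine ⟨1, one_pos, fun m hm => ?_⟩
    rw [w2_zero, T_nil hm]
    simp
  | succ K ih =>
    obtain ⟨c, hc, h⟩ := ih
    set c' : ℝ := c / ((K + 1) * 2 ^ (K + 1)) with hc'
    have hc'0 : 0 < c' := by positivity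
    have hcc : c' * ((K + 1) * 2 ^ (K + 1)) = c := by rw [hc']; field_simp
    refine ⟨c', hc'0, fun m hm => ?_⟩
    have hstep : ∀ m : ℕ, 1 ≤ m → c' * ((1 / (m : ℝ)) ^ (K + 1) - (1 / ((m + 1 : ℕ) : ℝ)) ^ (K + 1)) ≤
        T (w2 (K + 1)) m - T (w2 (K + 1)) (m + 1) := by
      intro m hm
      rw [w2_succ', T_left (w2_ge K) le_rfl hm, add_sub_cancel_left]
      have h1 := h (m + 1) (by omega)
      have hm0 : (0 : ℝ) < m := by exact_mod_cast hm
      have hm1 : (1 : ℝ) ≤ m := by exact_mod_cast hm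
      have hz2 : (((m + 1 : ℕ) : ℝ) ^ 2)⁻¹ = (1 / ((m + 1 : ℕ) : ℝ)) ^ 2 := by simp
      rw [hz2]
      set x : ℝ := 1 / (m : ℝ) with hx
      set z : ℝ := 1 / ((m + 1 : ℕ) : ℝ) with hz
      have hz0 : 0 < z := by positivity
      have hx0 : 0 < x := by positivity
      have hzx : z ≤ x := x_succ_le m hm
      have hx2 : x ≤ 2 * z := by
        rw [hx, hz, mul_one_div, div_le_div_iff₀ hm0 (by positivity)]
        push_cast
        linarith
      have hxz : x - z ≤ 2 * z ^ 2 := by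
        have h2 : x - z = x * z := by
          rw [hx, hz]
          push_cast
          field_simp
          ring
        rw [h2]
        nlinarith
      have h3 := abs_pow_sub_pow_le x z (K + 1)
      rw [Nat.add_sub_cancel, abs_of_nonneg (by linarith : 0 ≤ x - z), abs_of_pos hx0, abs_of_pos hz0,
        max_eq_left hzx] at h3
      have h4 : x ^ (K + 1) - z ^ (K + 1) ≤ (K + 1) * 2 ^ (K + 1) * z ^ (K + 2) := by
        refine (le_abs_self _).trans (h3.trans ?_)
        push_cast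
        have h5 : x ^ K ≤ (2 * z) ^ K := pow_le_pow_left₀ hx0.le hx2 K
        calc (x - z) * ((K : ℝ) + 1) * x ^ K ≤ 2 * z ^ 2 * ((K : ℝ) + 1) * (2 * z) ^ K := by
              gcongr
          _ = _ := by ring
      calc c' * (x ^ (K + 1) - z ^ (K + 1)) ≤ c' * ((K + 1) * 2 ^ (K + 1) * z ^ (K + 2)) :=
            mul_le_mul_of_nonneg_left h4 hc'0.le
        _ = c * z ^ (K + 2) := by rw [← mul_assoc, hcc]
        _ = z ^ 2 * (c * z ^ K) := by ring
        _ ≤ z ^ 2 * T (w2 K) (m + 1) := mul_le_mul_of_nonneg_left h1 (by positivity)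
    set D : ℕ → ℝ := fun j => T (w2 (K + 1)) j - c' * (1 / (j : ℝ)) ^ (K + 1) with hD
    have hanti : ∀ N, m ≤ N → D N ≤ D m := by
      intro N hN
      induction N, hN using Nat.le_induction with
      | base => exact le_rfl
      | succ N hN ih =>
        have := hstep N (hm.trans hN)
        refine le_trans ?_ ih
        rw [hD]
        simp only
        linarith
    have hlim : Tendsto D atTop (𝓝 0) := by
      have h1 := T_tendsto_zero (w2_ge (K + 1)) (by simp [w2])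
      have h2 : Tendsto (fun j : ℕ => c' * (1 / (j : ℝ)) ^ (K + 1)) atTop (𝓝 0) := by
        have h3 := (tendsto_one_div_atTop_nhds_zero_nat (𝕜 := ℝ)).pow (K + 1)
        rw [zero_pow (by omega)] at h3
        simpa using h3.const_mul c'
      have h3 := h1.sub h2
      rw [sub_zero] at h3
      exact h3
    have h0 : 0 ≤ D m := by
      refine le_of_tendsto hlim ?_
      filter_upwards [eventually_ge_atTop m] with N hN using hanti N hN
    rw [hD] at h0
    simp only at h0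
    linarith

/-- the coefficient of the leading term -/
lemma lead {g : ℕ → ℝ} (hg : AE g) {K : ℕ} {C : ℝ} (hC : ∀ m : ℕ, 1 ≤ m → |g m| ≤ C * (1 / (m : ℝ)) ^ K) :
    ∃ (a : ℚ) (D : ℝ), ∀ m : ℕ, 1 ≤ m → |g m - a * (1 / (m : ℝ)) ^ K| ≤ D * (1 / (m : ℝ)) ^ (K + 1) := by
  obtain ⟨P, D, hP⟩ := hg (K + 1)
  have hPb : ∀ m : ℕ, 1 ≤ m → |aeval (1 / (m : ℝ)) P| ≤ (|C| + |D|) * (1 / (m : ℝ)) ^ K := by
    intro m hm
    have h1 := hC m hm
    have h2 := hP m hm
    have h3 : aeval (1 / (m : ℝ)) P = g m - (g m - aeval (1 / (m : ℝ)) P) := by ring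
    rw [h3, add_mul]
    refine (abs_sub _ _).trans (add_le_add ?_ ?_)
    · exact h1.trans (mul_le_mul_of_nonneg_right (le_abs_self _) (by positivity))
    · refine h2.trans ?_
      exact mul_le_mul (le_abs_self _) (pow_le_pow_of_le_one (x_nonneg m) (x_le_one m) (by omega)) (by positivity)
        (abs_nonneg _)
  have hdvd : ∀ k, k ≤ K → (X : ℚ[X]) ^ k ∣ P := by
    intro k
    induction k with
    | zero => intro _; simp
    | succ k ih =>
      intro hk
      obtain ⟨R, hR⟩ := ih (by omega)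
      have h1 : ∀ m : ℕ, 1 ≤ m → |aeval (1 / (m : ℝ)) R| ≤ (|C| + |D|) * (1 / (m : ℝ)) := by
        intro m hm
        have h2 := hPb m hm
        have hx0 : 0 < 1 / (m : ℝ) := by
          have : (0 : ℝ) < m := by exact_mod_cast hm
          positivity
        rw [hR, map_mul, map_pow, aeval_X, abs_mul, abs_of_pos (pow_pos hx0 k)] at h2
        have h3 : (1 / (m : ℝ)) ^ K ≤ (1 / (m : ℝ)) ^ k * (1 / (m : ℝ)) := by
          rw [← pow_succ]
          exact pow_le_pow_of_le_one (x_nonneg m) (x_le_one m) hk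
        have h4 : (1 / (m : ℝ)) ^ k * |aeval (1 / (m : ℝ)) R| ≤ (1 / (m : ℝ)) ^ k * ((|C| + |D|) * (1 / (m : ℝ))) := by
          refine h2.trans ((mul_le_mul_of_nonneg_left h3 (by positivity)).trans (le_of_eq (by ring)))
        exact le_of_mul_le_mul_left h4 (pow_pos hx0 k)
      have h2 : Tendsto (fun m : ℕ => aeval (1 / (m : ℝ)) R) atTop (𝓝 (aeval (0 : ℝ) R)) :=
        ((Polynomial.continuous_aeval R).tendsto 0).comp tendsto_one_div_atTop_nhds_zero_nat
      have h3 : Tendsto (fun m : ℕ => aeval (1 / (m : ℝ)) R) atTop (𝓝 0) := by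
        refine squeeze_zero_norm' (a := fun m : ℕ => (|C| + |D|) * (1 / (m : ℝ))) ?_ ?_
        · filter_upwards [eventually_ge_atTop 1] with m hm
          rw [Real.norm_eq_abs]
          exact h1 m hm
        · have := (tendsto_one_div_atTop_nhds_zero_nat (𝕜 := ℝ)).const_mul (|C| + |D|)
          simpa using this
      have h4 : aeval (0 : ℝ) R = 0 := tendsto_nhds_unique h2 h3
      have h5 : R.coeff 0 = 0 := by
        have h6 := Polynomial.aeval_algebraMap_apply ℝ (0 : ℚ) R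
        rw [map_zero, h4] at h6
        have h7 : aeval (0 : ℚ) R = 0 := by
          have : ((aeval (0 : ℚ) R : ℚ) : ℝ) = 0 := by simpa using h6.symm
          exact_mod_cast this
        rwa [Polynomial.coeff_zero_eq_aeval_zero]
      obtain ⟨R', hR'⟩ := X_dvd_iff.2 h5
      exact ⟨R', by rw [hR, hR', pow_succ]; ring⟩
  obtain ⟨R, hR⟩ := hdvd K le_rfl
  have hR2 : ∃ R' : ℚ[X], R = Polynomial.C (R.coeff 0) + X * R' := by
    obtain ⟨R', hR'⟩ := X_dvd_iff.2 (show (R - Polynomial.C (R.coeff 0)).coeff 0 = 0 by simp)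
    exact ⟨R', by rw [← hR']; ring⟩
  obtain ⟨R', hR'⟩ := hR2
  obtain ⟨B, hB0, hB⟩ := poly_bdd R'
  refine ⟨R.coeff 0, D + B, fun m hm => ?_⟩
  have h1 : aeval (1 / (m : ℝ)) P = R.coeff 0 * (1 / (m : ℝ)) ^ K + (1 / (m : ℝ)) ^ (K + 1) * aeval (1 / (m : ℝ)) R' := by
    rw [hR, map_mul, map_pow, aeval_X]
    conv_lhs => rw [hR']
    rw [map_add, map_mul, aeval_X, aeval_C, eq_ratCast]
    ring
  have h2 : g m - (R.coeff 0 : ℝ) * (1 / (m : ℝ)) ^ K = (g m - aeval (1 / (m : ℝ)) P) +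
      (1 / (m : ℝ)) ^ (K + 1) * aeval (1 / (m : ℝ)) R' := by rw [h1]; ring
  rw [h2, add_mul]
  refine (abs_add_le _ _).trans (add_le_add (hP m hm) ?_)
  rw [abs_mul, abs_of_nonneg (by positivity : (0 : ℝ) ≤ (1 / (m : ℝ)) ^ (K + 1)), mul_comm]
  exact mul_le_mul_of_nonneg_right (hB m) (by positivity)

lemma AE.sub_sum {f : ℕ → ℝ} (hf : AE f) (K : ℕ) (r : ℕ → ℚ) :
    AE fun m => f m - ∑ i ∈ Finset.range K, (r i : ℝ) * T (w2 i) m := by
  induction K with
  | zero => simpa using hf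
  | succ K ih =>
    have h1 := ih.add ((AE.const (-r K)).mul (ae_T (w2_ge K)))
    refine h1.congr fun m _ => ?_
    rw [Finset.sum_range_succ]
    push_cast
    ring

/-- expansion in the tails of the `ζ(2, ..., 2)` -/
lemma expand_T {f : ℕ → ℝ} (hf : AE f) (K : ℕ) : ∃ (r : ℕ → ℚ) (C : ℝ), ∀ m : ℕ, 1 ≤ m →
    |f m - ∑ i ∈ Finset.range K, (r i : ℝ) * T (w2 i) m| ≤ C * (1 / (m : ℝ)) ^ K := by
  induction K with
  | zero =>
    obtain ⟨B, _, hB⟩ := hf.bdd
    exact ⟨fun _ => 0, B, fun m hm => by simpa using hB m hm⟩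
  | succ K ih =>
    obtain ⟨r, C, h⟩ := ih
    obtain ⟨a, D, ha⟩ := lead (hf.sub_sum K r) h
    obtain ⟨b, D', hb⟩ := lead (ae_T (w2_ge K)) (C := 1) (K := K) (fun m hm => by
      rw [abs_of_nonneg (T_nonneg (w2_ge K) hm), one_mul]
      have := T_le (w2_ge K) hm
      rwa [List.length_replicate] at this)
    obtain ⟨c, hc, hcl⟩ := T2_lower K
    have hb0 : b ≠ 0 := by
      rintro rfl
      obtain ⟨m, hm⟩ := exists_nat_gt (|D'| / c)
      have hm1 : 1 ≤ m := by
        by_contra h0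
        have : m = 0 := by omega
        rw [this, Nat.cast_zero] at hm
        have : 0 ≤ |D'| / c := by positivity
        linarith
      have hm0 : (0 : ℝ) < m := by exact_mod_cast hm1
      have h1 := hcl m hm1
      have h2 := hb m hm1
      rw [Rat.cast_zero, zero_mul, sub_zero] at h2
      have h3 := (h1.trans (le_abs_self _)).trans h2
      rw [pow_succ, ← mul_assoc, mul_comm D', mul_assoc, mul_comm c] at h3
      have h4 : c ≤ D' * (1 / (m : ℝ)) := le_of_mul_le_mul_left h3 (by positivity)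
      rw [mul_one_div, le_div_iff₀ hm0] at h4
      rw [div_lt_iff₀ hc] at hm
      have := le_abs_self D'
      linarith
    refine ⟨fun i => if i = K then a / b else r i, D + |((a / b : ℚ) : ℝ)| * D', fun m hm => ?_⟩
    simp only
    rw [Finset.sum_range_succ, if_pos rfl]
    have h1 : ∑ i ∈ Finset.range K, (((if i = K then a / b else r i : ℚ)) : ℝ) * T (w2 i) m =
        ∑ i ∈ Finset.range K, (r i : ℝ) * T (w2 i) m := by
      refine Finset.sum_congr rfl fun i hi => ?_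
      rw [if_neg (by have := Finset.mem_range.1 hi; omega)]
    rw [h1]
    have h2 : f m - (∑ i ∈ Finset.range K, (r i : ℝ) * T (w2 i) m + ((a / b : ℚ) : ℝ) * T (w2 K) m) =
        (f m - ∑ i ∈ Finset.range K, (r i : ℝ) * T (w2 i) m - a * (1 / (m : ℝ)) ^ K) -
          ((a / b : ℚ) : ℝ) * (T (w2 K) m - b * (1 / (m : ℝ)) ^ K) := by
      have hb' : (b : ℝ) ≠ 0 := by exact_mod_cast hb0
      push_cast
      field_simp
      ring
    rw [h2, add_mul]
    refine (abs_sub _ _).trans (add_le_add (ha m hm) ?_)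
    rw [abs_mul, mul_assoc]
    exact mul_le_mul_of_nonneg_left (hb m hm) (abs_nonneg _)

/-- the sequences -/
noncomputable def Vo (u : List ℕ) (n : ℕ) : ℝ := val (u ++ w2 n)

lemma hasSum_o {u : List ℕ} (hu : ∀ x ∈ u, 2 ≤ x) {n : ℕ} (hn : 1 ≤ n) :
    HasSum (fun m : ℕ => H (w2 (n - 1)) m * (((m + 1 : ℕ) : ℝ) ^ 2)⁻¹ * T u (m + 1)) (Vo u n) := by
  obtain ⟨n, rfl⟩ : ∃ n', n = n' + 1 := ⟨n - 1, by omega⟩
  rw [Nat.add_sub_cancel, Vo, show w2 (n + 1) = 2 :: w2 n from List.replicate_succ]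
  exact hasSum_tail hu (adm_rep (n + 1))

lemma hasSum_oZ {n : ℕ} (hn : 1 ≤ n) (i : ℕ) :
    HasSum (fun m : ℕ => H (w2 (n - 1)) m * (((m + 1 : ℕ) : ℝ) ^ 2)⁻¹ * T (w2 i) (m + 1)) (Z (n + i)) := by
  have h := hasSum_o (w2_ge i) hn
  rwa [Vo, ← List.replicate_add, add_comm i n] at h

theorem expan_outer (U : Finset (List ℕ)) (hU : ∀ u ∈ U, ∀ x ∈ u, 2 ≤ x) : ∃ I, Expan U Vo I := by
  classical
  obtain ⟨E, hE⟩ := order_bdd U hU
  refine ⟨E, fun K hK => ?_⟩
  have hch : ∀ u : List ℕ, ∃ (r : ℕ → ℚ) (C : ℝ), u ∈ U → ∀ m : ℕ, 1 ≤ m →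
      |T u m - ∑ i ∈ Finset.range K, (r i : ℝ) * T (w2 i) m| ≤ C * (1 / (m : ℝ)) ^ K := by
    intro u
    by_cases hu : u ∈ U
    · obtain ⟨r, C, h⟩ := expand_T (ae_T (hU u hu)) K
      exact ⟨r, C, fun _ => h⟩
    · exact ⟨fun _ => 0, 0, fun h => absurd h hu⟩
  choose r C hr using hch
  obtain ⟨c, hc, hcl⟩ := T2_lower K
  refine ⟨r, ∑ u ∈ U, |C u| / c, fun u hu n hn => ?_, fun q hq => ?_⟩
  · have s1 : HasSum (fun m : ℕ => H (w2 (n - 1)) m * (((m + 1 : ℕ) : ℝ) ^ 2)⁻¹ *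
        (T u (m + 1) - ∑ i ∈ Finset.range K, (r u i : ℝ) * T (w2 i) (m + 1)))
        (Vo u n - ∑ i ∈ Finset.range K, (r u i : ℝ) * Z (n + i)) := by
      have h1 := (hasSum_o (hU u hu) hn).sub
        (hasSum_sum fun i (_ : i ∈ Finset.range K) => (hasSum_oZ hn i).mul_left (r u i : ℝ))
      refine (congrArg (fun f => HasSum f _) (funext fun m => ?_)).mp h1
      rw [mul_sub, Finset.mul_sum]
      congr 1
      exact Finset.sum_congr rfl fun i _ => by ring
    have s2 := (hasSum_oZ hn K).mul_left (|C u| / c)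
    have hterm : ∀ m : ℕ, |H (w2 (n - 1)) m * (((m + 1 : ℕ) : ℝ) ^ 2)⁻¹ *
        (T u (m + 1) - ∑ i ∈ Finset.range K, (r u i : ℝ) * T (w2 i) (m + 1))| ≤
        |C u| / c * (H (w2 (n - 1)) m * (((m + 1 : ℕ) : ℝ) ^ 2)⁻¹ * T (w2 K) (m + 1)) := by
      intro m
      have h1 := hr u hu (m + 1) (by omega)
      have h2 := hcl (m + 1) (by omega)
      have h3 : 0 ≤ H (w2 (n - 1)) m * (((m + 1 : ℕ) : ℝ) ^ 2)⁻¹ := mul_nonneg (H_nonneg _ _) (by positivity)
      rw [abs_mul, abs_of_nonneg h3]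
      have h4 : C u * (1 / ((m + 1 : ℕ) : ℝ)) ^ K ≤ |C u| / c * T (w2 K) (m + 1) := by
        rw [div_mul_eq_mul_div, le_div_iff₀ hc]
        calc C u * (1 / ((m + 1 : ℕ) : ℝ)) ^ K * c = C u * (c * (1 / ((m + 1 : ℕ) : ℝ)) ^ K) := by ring
          _ ≤ |C u| * (c * (1 / ((m + 1 : ℕ) : ℝ)) ^ K) := mul_le_mul_of_nonneg_right (le_abs_self _) (by positivity)
          _ ≤ |C u| * T (w2 K) (m + 1) := mul_le_mul_of_nonneg_left h2 (abs_nonneg _)
      calc _ ≤ H (w2 (n - 1)) m * (((m + 1 : ℕ) : ℝ) ^ 2)⁻¹ * (|C u| / c * T (w2 K) (m + 1)) :=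
            mul_le_mul_of_nonneg_left (h1.trans h4) h3
        _ = _ := by ring
    have h5 : |Vo u n - ∑ i ∈ Finset.range K, (r u i : ℝ) * Z (n + i)| ≤ |C u| / c * Z (n + K) := by
      rw [abs_le]
      constructor
      · have := hasSum_le (fun m => neg_le_of_abs_le (hterm m)) s2.neg s1
        exact this
      · exact hasSum_le (fun m => le_of_abs_le (hterm m)) s1 s2
    refine h5.trans (mul_le_mul_of_nonneg_right ?_ (Z_nonneg _))
    exact Finset.single_le_sum (f := fun u => |C u| / c) (fun _ _ => by positivity) hu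
  · refine hE q ⟨∑ i ∈ Finset.range K, |((∑ u ∈ U, q u * r u i : ℚ) : ℝ)| + ∑ u ∈ U, |(q u : ℝ)| * |C u|,
      fun m hm => ?_⟩
    have h1 : ∑ u ∈ U, (q u : ℝ) * T u m = ∑ i ∈ Finset.range K, ((∑ u ∈ U, q u * r u i : ℚ) : ℝ) * T (w2 i) m +
        ∑ u ∈ U, (q u : ℝ) * (T u m - ∑ i ∈ Finset.range K, (r u i : ℝ) * T (w2 i) m) := by
      have h2 : ∑ i ∈ Finset.range K, ((∑ u ∈ U, q u * r u i : ℚ) : ℝ) * T (w2 i) m =
          ∑ u ∈ U, (q u : ℝ) * ∑ i ∈ Finset.range K, (r u i : ℝ) * T (w2 i) m := by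
        push_cast
        simp only [Finset.sum_mul, Finset.mul_sum]
        rw [Finset.sum_comm]
        exact Finset.sum_congr rfl fun _ _ => Finset.sum_congr rfl fun _ _ => by ring
      rw [h2, ← Finset.sum_add_distrib]
      exact Finset.sum_congr rfl fun u _ => by ring
    rw [h1, add_mul]
    refine (abs_add_le _ _).trans (add_le_add ?_ ?_)
    · rw [Finset.sum_mul]
      refine (Finset.abs_sum_le_sum_abs _ _).trans (Finset.sum_le_sum fun i _ => ?_)
      rw [abs_mul]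
      rcases Nat.lt_or_ge i E with h | h
      · rw [hq i h]
        simp
      · refine mul_le_mul_of_nonneg_left ?_ (abs_nonneg _)
        rw [abs_of_nonneg (T_nonneg (w2_ge i) hm)]
        have h3 := T_le (w2_ge i) hm
        rw [List.length_replicate] at h3
        exact h3.trans (pow_le_pow_of_le_one (x_nonneg m) (x_le_one m) h)
    · rw [Finset.sum_mul]
      refine (Finset.abs_sum_le_sum_abs _ _).trans (Finset.sum_le_sum fun u hu => ?_)
      rw [abs_mul, mul_assoc]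
      refine mul_le_mul_of_nonneg_left ((hr u hu m hm).trans ?_) (abs_nonneg _)
      exact mul_le_mul (le_abs_self _) (pow_le_pow_of_le_one (x_nonneg m) (x_le_one m) hK) (by positivity)
        (abs_nonneg _)

lemma Vo_le {u : List ℕ} (hu : ∀ x ∈ u, 2 ≤ x) {n : ℕ} (hn : 1 ≤ n) : |Vo u n| ≤ Z n := by
  have h1 := hasSum_o hu hn
  have h2 := hasSum_oZ hn 0
  rw [add_zero] at h2
  have h3 : ∀ m : ℕ, 0 ≤ H (w2 (n - 1)) m * (((m + 1 : ℕ) : ℝ) ^ 2)⁻¹ := fun m =>
    mul_nonneg (H_nonneg _ _) (by positivity)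
  rw [abs_of_nonneg (h1.nonneg fun m => mul_nonneg (h3 m) (T_nonneg hu (by omega)))]
  refine hasSum_le (fun m => mul_le_mul_of_nonneg_left ?_ (h3 m)) h1 h2
  rw [w2_zero, T_nil (by omega)]
  exact (T_le hu (by omega)).trans (pow_le_one₀ (x_nonneg _) (x_le_one _))

end Pool.Agent.L7h24.CS
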