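import Mathlib
import Pool.Agent.Q217.TT.Indep
import Pool.Agent.L7h24.CS.Outer

/-!
# The numbers `ζ(2 ... 2 u)`: expansions in the `ζ(2, ..., 2)`
-/

set_option autoImplicit false

namespace Pool.Agent.L7h24.CS

open Filter Topology Polynomial
open Pool.Agent.H447R2.MZ (H H_nil H_cons H_cons_zero H_cons_succ H_nonneg Adm val tendsto_H H_le_val)

lemma H_rat (u : List ℕ) (m : ℕ) : ∃ q : ℚ, (q : ℝ) = H u m := by
  induction u generalizing m with
  | nil => exact ⟨1, by rw [H_nil, Rat.cast_one]⟩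
  | cons a u ih =>
    choose q hq using ih
    refine ⟨∑ n ∈ Finset.range m, (((n + 1 : ℕ) : ℚ) ^ a)⁻¹ * q n, ?_⟩
    rw [H_cons]
    push_cast
    exact Finset.sum_congr rfl fun n _ => by rw [hq]

lemma H2_zero {i m : ℕ} (h : m < i) : H (w2 i) m = 0 := e2_lt h

lemma H2_pos (i : ℕ) : 0 < H (w2 i) i := by
  induction i with
  | zero => rw [w2_zero, H_nil]; exact one_pos
  | succ i ih =>
    rw [show w2 (i + 1) = 2 :: w2 i from List.replicate_succ, H_cons_succ]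
    have h1 := H_nonneg (2 :: w2 i) i
    have h2 : (0 : ℝ) < (((i + 1 : ℕ) : ℝ) ^ 2)⁻¹ * H (w2 i) i := mul_pos (by positivity) ih
    linarith

lemma H2_mono (i : ℕ) : Monotone (H (w2 i)) := Pool.Agent.H447R2.MZ.H_mono _

/-- expansion of a harmonic sum, exact at the first places -/
lemma expand_H (u : List ℕ) (K : ℕ) : ∃ r : ℕ → ℚ, ∀ m < K,
    H u m - ∑ i ∈ Finset.range K, (r i : ℝ) * H (w2 i) m = 0 := by
  induction K with
  | zero => exact ⟨fun _ => 0, fun m hm => absurd hm (Nat.not_lt_zero _)⟩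
  | succ K ih =>
    obtain ⟨r, h⟩ := ih
    choose q hq using H_rat u
    choose p hp using fun i => H_rat (w2 i)
    set a : ℚ := (q K - ∑ i ∈ Finset.range K, r i * p i K) / p K K with ha
    have hpK : (p K K : ℝ) ≠ 0 := by rw [hp]; exact (H2_pos K).ne'
    have hav : (a : ℝ) * H (w2 K) K = H u K - ∑ i ∈ Finset.range K, (r i : ℝ) * H (w2 i) K := by
      rw [ha, ← hp K K]
      push_cast
      rw [div_mul_cancel₀ _ hpK, hq]
      congr 1
      exact Finset.sum_congr rfl fun i _ => by rw [hp]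
    refine ⟨fun i => if i = K then a else r i, fun m hm => ?_⟩
    simp only
    rw [Finset.sum_range_succ, if_pos rfl]
    have h1 : ∑ i ∈ Finset.range K, (((if i = K then a else r i : ℚ)) : ℝ) * H (w2 i) m =
        ∑ i ∈ Finset.range K, (r i : ℝ) * H (w2 i) m := by
      refine Finset.sum_congr rfl fun i hi => ?_
      rw [if_neg (by have := Finset.mem_range.1 hi; omega)]
    rw [h1]
    rcases Nat.lt_succ_iff_lt_or_eq.1 hm with h2 | rfl
    · rw [H2_zero h2, mul_zero, add_zero]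
      exact h m h2
    · rw [hav]
      ring

/-- bounds for all arguments -/
lemma expand_H_bound {u : List ℕ} (hu : Adm u) (K : ℕ) (r : ℕ → ℚ)
    (h : ∀ m < K, H u m - ∑ i ∈ Finset.range K, (r i : ℝ) * H (w2 i) m = 0) : ∃ C : ℝ, 0 ≤ C ∧ ∀ m : ℕ,
      |H u m - ∑ i ∈ Finset.range K, (r i : ℝ) * H (w2 i) m| ≤ C * H (w2 K) m := by
  set B : ℝ := val u + ∑ i ∈ Finset.range K, |(r i : ℝ)| * Z i with hB
  have hval : 0 ≤ val u := Pool.Agent.Q217.TT.val_nonneg' hu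
  have hB0 : 0 ≤ B := add_nonneg hval (Finset.sum_nonneg fun i _ => mul_nonneg (abs_nonneg _) (Z_nonneg i))
  refine ⟨B / H (w2 K) K, div_nonneg hB0 (H2_pos K).le, fun m => ?_⟩
  rcases Nat.lt_or_ge m K with hm | hm
  · rw [h m hm, H2_zero hm]
    simp
  · have h1 : |H u m - ∑ i ∈ Finset.range K, (r i : ℝ) * H (w2 i) m| ≤ B := by
      refine (abs_sub _ _).trans (add_le_add ?_ ?_)
      · rw [abs_of_nonneg (H_nonneg _ _)]
        exact H_le_val _ hu m
      · refine (Finset.abs_sum_le_sum_abs _ _).trans (Finset.sum_le_sum fun i _ => ?_)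
        rw [abs_mul, abs_of_nonneg (H_nonneg _ _)]
        exact mul_le_mul_of_nonneg_left (H_le_val _ (adm_rep i) m) (abs_nonneg _)
    refine h1.trans ?_
    rw [div_mul_eq_mul_div, le_div_iff₀ (H2_pos K)]
    exact mul_le_mul_of_nonneg_left (H2_mono K hm) hB0

/-- independence of the harmonic sums -/
lemma indep_H (U : Finset (List ℕ)) (hU : ∀ u ∈ U, ∀ x ∈ u, 2 ≤ x) : ∃ M : ℕ, ∀ c : List ℕ → ℚ,
    (∀ m ≤ M, ∑ u ∈ U, (c u : ℝ) * H u m = 0) → ∀ u ∈ U, c u = 0 := by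
  classical
  set e : List ℕ → List ℕ+ := fun u => u.map Nat.toPNat' with he
  have hne : ∀ u ∈ U, Pool.Agent.Q217.TT.nat (e u) = u := by
    intro u hu
    rw [he, Pool.Agent.Q217.TT.nat, List.map_map]
    conv_rhs => rw [← List.map_id u]
    apply List.map_congr_left
    intro x hx
    have := hU u hu x hx
    simp only [Function.comp_apply, id]
    exact Nat.toPNat'_coe x |>.trans (if_pos (by omega))
  obtain ⟨M, hM⟩ := Pool.Agent.Q217.TT.indep_fin (U.image e)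
  refine ⟨M, fun c hc u hu => ?_⟩
  have hinj : ∀ u ∈ U, ∀ v ∈ U, e u = e v → u = v := by
    intro u hu v hv huv
    rw [← hne u hu, huv, hne v hv]
  have h1 := hM (fun w => c (Pool.Agent.Q217.TT.nat w)) (fun n hn => ?_) (e u) (Finset.mem_image_of_mem _ hu)
  · rwa [hne u hu] at h1
  · rw [Finset.sum_image hinj]
    have h2 := hc n hn
    have h3 : ((∑ u ∈ U, c (Pool.Agent.Q217.TT.nat (e u)) * Pool.Agent.TH507.HS.hs (e u) (n + 1) : ℚ) : ℝ) = 0 := by
      rw [← h2]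
      push_cast
      refine Finset.sum_congr rfl fun u hu => ?_
      rw [← Pool.Agent.Q217.TT.H_nat, hne u hu]
    exact_mod_cast h3

/-- the sequences -/
noncomputable def Vi (u : List ℕ) (n : ℕ) : ℝ := val (w2 n ++ u)

lemma adm_of_ge {u : List ℕ} (hu : ∀ x ∈ u, 2 ≤ x) : Adm u := by
  refine ⟨fun x hx => le_trans (by norm_num) (hu x hx), fun x t h => ?_⟩
  exact hu x (by rw [h]; exact List.mem_cons_self)

lemma hasSum_i {u : List ℕ} (hu : ∀ x ∈ u, 2 ≤ x) {n : ℕ} (hn : 1 ≤ n) :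
    HasSum (fun m : ℕ => H u m * (((m + 1 : ℕ) : ℝ) ^ 2)⁻¹ * T (w2 (n - 1)) (m + 1)) (Vi u n) := by
  obtain ⟨n, rfl⟩ : ∃ n', n = n' + 1 := ⟨n - 1, by omega⟩
  rw [Nat.add_sub_cancel, Vi, w2_succ', List.append_assoc, List.singleton_append]
  refine hasSum_tail (w2_ge n) (adm_of_ge fun x hx => ?_)
  rcases List.mem_cons.1 hx with rfl | h
  · exact le_rfl
  · exact hu x h

lemma hasSum_iZ {n : ℕ} (hn : 1 ≤ n) (i : ℕ) :
    HasSum (fun m : ℕ => H (w2 i) m * (((m + 1 : ℕ) : ℝ) ^ 2)⁻¹ * T (w2 (n - 1)) (m + 1)) (Z (n + i)) := by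
  have h := hasSum_i (w2_ge i) hn
  rwa [Vi, ← List.replicate_add] at h

theorem expan_inner (U : Finset (List ℕ)) (hU : ∀ u ∈ U, ∀ x ∈ u, 2 ≤ x) : ∃ I, Expan U Vi I := by
  classical
  obtain ⟨M, hM⟩ := indep_H U hU
  refine ⟨M + 1, fun K hK => ?_⟩
  choose r hr using fun u => expand_H u K
  have hch : ∀ u : List ℕ, ∃ C : ℝ, u ∈ U → 0 ≤ C ∧ ∀ m : ℕ,
      |H u m - ∑ i ∈ Finset.range K, (r u i : ℝ) * H (w2 i) m| ≤ C * H (w2 K) m := by
    intro u
    by_cases hu : u ∈ U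
    · obtain ⟨C, h⟩ := expand_H_bound (adm_of_ge (hU u hu)) K (r u) (hr u)
      exact ⟨C, fun _ => h⟩
    · exact ⟨0, fun h => absurd h hu⟩
  choose C hC using hch
  refine ⟨r, ∑ u ∈ U, |C u|, fun u hu n hn => ?_, fun q hq => ?_⟩
  · have s1 : HasSum (fun m : ℕ => (H u m - ∑ i ∈ Finset.range K, (r u i : ℝ) * H (w2 i) m) *
        (((m + 1 : ℕ) : ℝ) ^ 2)⁻¹ * T (w2 (n - 1)) (m + 1))
        (Vi u n - ∑ i ∈ Finset.range K, (r u i : ℝ) * Z (n + i)) := by
      have h1 := (hasSum_i (hU u hu) hn).sub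
        (hasSum_sum fun i (_ : i ∈ Finset.range K) => (hasSum_iZ hn i).mul_left (r u i : ℝ))
      refine (congrArg (fun f => HasSum f _) (funext fun m => ?_)).mp h1
      rw [sub_mul, sub_mul, Finset.sum_mul, Finset.sum_mul]
      congr 1
      exact Finset.sum_congr rfl fun i _ => by ring
    have s2 := (hasSum_iZ hn K).mul_left |C u|
    have hterm : ∀ m : ℕ, |(H u m - ∑ i ∈ Finset.range K, (r u i : ℝ) * H (w2 i) m) *
        (((m + 1 : ℕ) : ℝ) ^ 2)⁻¹ * T (w2 (n - 1)) (m + 1)| ≤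
        |C u| * (H (w2 K) m * (((m + 1 : ℕ) : ℝ) ^ 2)⁻¹ * T (w2 (n - 1)) (m + 1)) := by
      intro m
      obtain ⟨hC0, h1⟩ := hC u hu
      have h2 := h1 m
      have h3 : 0 ≤ (((m + 1 : ℕ) : ℝ) ^ 2)⁻¹ * T (w2 (n - 1)) (m + 1) :=
        mul_nonneg (by positivity) (T_nonneg (w2_ge _) (by omega))
      rw [mul_assoc, abs_mul, abs_of_nonneg h3, abs_of_nonneg hC0]
      calc _ ≤ C u * H (w2 K) m * ((((m + 1 : ℕ) : ℝ) ^ 2)⁻¹ * T (w2 (n - 1)) (m + 1)) :=
            mul_le_mul_of_nonneg_right h2 h3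
        _ = _ := by ring
    have h5 : |Vi u n - ∑ i ∈ Finset.range K, (r u i : ℝ) * Z (n + i)| ≤ |C u| * Z (n + K) := by
      rw [abs_le]
      constructor
      · exact hasSum_le (fun m => neg_le_of_abs_le (hterm m)) s2.neg s1
      · exact hasSum_le (fun m => le_of_abs_le (hterm m)) s1 s2
    refine h5.trans (mul_le_mul_of_nonneg_right ?_ (Z_nonneg _))
    exact Finset.single_le_sum (f := fun u => |C u|) (fun _ _ => abs_nonneg _) hu
  · refine hM q fun m hm => ?_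
    have h1 : ∑ u ∈ U, (q u : ℝ) * H u m = ∑ i ∈ Finset.range K, ((∑ u ∈ U, q u * r u i : ℚ) : ℝ) * H (w2 i) m +
        ∑ u ∈ U, (q u : ℝ) * (H u m - ∑ i ∈ Finset.range K, (r u i : ℝ) * H (w2 i) m) := by
      have h2 : ∑ i ∈ Finset.range K, ((∑ u ∈ U, q u * r u i : ℚ) : ℝ) * H (w2 i) m =
          ∑ u ∈ U, (q u : ℝ) * ∑ i ∈ Finset.range K, (r u i : ℝ) * H (w2 i) m := by
        push_cast
        simp only [Finset.sum_mul, Finset.mul_sum]
        rw [Finset.sum_comm]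
        exact Finset.sum_congr rfl fun _ _ => Finset.sum_congr rfl fun _ _ => by ring
      rw [h2, ← Finset.sum_add_distrib]
      exact Finset.sum_congr rfl fun u _ => by ring
    rw [h1, Finset.sum_eq_zero fun i _ => ?_, Finset.sum_eq_zero fun u _ => ?_, add_zero]
    · rw [hr u m (by omega), mul_zero]
    · rcases Nat.lt_or_ge i (M + 1) with h | h
      · rw [hq i h, Rat.cast_zero, zero_mul]
      · rw [H2_zero (by omega), mul_zero]

lemma Vi_le {u : List ℕ} (hu : ∀ x ∈ u, 2 ≤ x) {n : ℕ} (hn : 1 ≤ n) : |Vi u n| ≤ val u * Z n := by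
  have h1 := hasSum_i hu hn
  have h2 := (hasSum_iZ hn 0).mul_left (val u)
  rw [add_zero] at h2
  have h3 : ∀ m : ℕ, 0 ≤ (((m + 1 : ℕ) : ℝ) ^ 2)⁻¹ * T (w2 (n - 1)) (m + 1) := fun m =>
    mul_nonneg (by positivity) (T_nonneg (w2_ge _) (by omega))
  rw [abs_of_nonneg (h1.nonneg fun m => by rw [mul_assoc]; exact mul_nonneg (H_nonneg _ _) (h3 m))]
  refine hasSum_le (fun m => ?_) h1 h2
  rw [w2_zero, H_nil, one_mul, mul_assoc]
  exact mul_le_mul_of_nonneg_right (H_le_val _ (adm_of_ge hu) m) (h3 m)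

end Pool.Agent.L7h24.CS
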