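import Mathlib
import Pool.Agent.L7h24.CS.Inner

/-!
# The numbers `ζ(a 2 ... 2 b)`: expansions in the `ζ(2, ..., 2)`
-/

set_option autoImplicit false

namespace Pool.Agent.L7h24.CS

open Filter Topology Polynomial
open Pool.Agent.H447R2.MZ (H H_nil H_cons H_cons_zero H_cons_succ H_nonneg Adm val tendsto_H H_le_val)

/-- the sequences -/
noncomputable def Vt (a b : List ℕ) (n : ℕ) : ℝ := val (a ++ w2 n ++ b)

lemma ge_app {a b : List ℕ} (ha : ∀ x ∈ a, 2 ≤ x) (hb : ∀ x ∈ b, 2 ≤ x) : ∀ x ∈ a ++ b, 2 ≤ x := by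
  intro x hx
  rcases List.mem_append.1 hx with h | h
  · exact ha x h
  · exact hb x h

lemma hasSum_t {a b : List ℕ} (ha : ∀ x ∈ a, 2 ≤ x) (hb : ∀ x ∈ b, 2 ≤ x) {n : ℕ} (hn : 1 ≤ n) :
    HasSum (fun m : ℕ => H (w2 (n - 1) ++ b) m * (((m + 1 : ℕ) : ℝ) ^ 2)⁻¹ * T a (m + 1)) (Vt a b n) := by
  obtain ⟨n, rfl⟩ : ∃ n', n = n' + 1 := ⟨n - 1, by omega⟩
  rw [Nat.add_sub_cancel, Vt, show w2 (n + 1) = 2 :: w2 n from List.replicate_succ, List.append_assoc,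
    List.cons_append]
  refine hasSum_tail ha (adm_of_ge fun x hx => ?_)
  rcases List.mem_cons.1 hx with rfl | h
  · exact le_rfl
  · exact ge_app (w2_ge n) hb x h

lemma hasSum_tZ {b : List ℕ} (hb : ∀ x ∈ b, 2 ≤ x) {n : ℕ} (hn : 1 ≤ n) (i : ℕ) :
    HasSum (fun m : ℕ => H (w2 (n - 1) ++ b) m * (((m + 1 : ℕ) : ℝ) ^ 2)⁻¹ * T (w2 i) (m + 1)) (Vi b (n + i)) := by
  have h := hasSum_t (w2_ge i) hb hn
  rwa [Vt, ← List.replicate_add, add_comm i n] at h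

lemma Z_succ_le (n : ℕ) : Z (n + 1) ≤ 2 * Z n := by
  have h1 := Z_rel (K := 1) (i := 0) (by omega) n
  rw [add_zero, mul_zero, pow_zero, one_mul, mul_one, dp_eval] at h1
  simp only [mul_one, mul_zero, Nat.sub_zero, Finset.prod_range_succ, Finset.prod_range_zero, one_mul, add_zero] at h1
  have h2 : (6 : ℝ) ≤ ((2 * n + 2 : ℕ) : ℝ) * ((2 * n + 2 + 1 : ℕ) : ℝ) := by
    push_cast
    have : (0 : ℝ) ≤ n := Nat.cast_nonneg n
    nlinarith
  have hpi : Real.pi ^ 2 ≤ 12 := by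
    have := Real.pi_lt_d2
    have := Real.pi_pos
    nlinarith
  have hZ := Z_pos (n + 1)
  have hZn := Z_pos n
  nlinarith [mul_le_mul_of_nonneg_left h2 hZ.le, mul_le_mul_of_nonneg_left hpi hZn.le]

lemma Z_add_le (n t : ℕ) : Z (n + t) ≤ 2 ^ t * Z n := by
  induction t with
  | zero => simp
  | succ t ih =>
    rw [← add_assoc]
    refine (Z_succ_le _).trans ?_
    rw [pow_succ]
    linarith

/-- the functional `X ^ k ↦ Z (n + k)` -/
noncomputable def Lam (n : ℕ) (P : ℚ[X]) : ℝ := P.sum fun k c => (c : ℝ) * Z (n + k)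

lemma Lam_add (n : ℕ) (P Q : ℚ[X]) : Lam n (P + Q) = Lam n P + Lam n Q := by
  rw [Lam, Lam, Lam, Polynomial.sum_add_index]
  · intro i; simp
  · intro i a b; push_cast; ring

lemma Lam_monomial (n k : ℕ) (c : ℚ) : Lam n (monomial k c) = (c : ℝ) * Z (n + k) := by
  rw [Lam, Polynomial.sum_monomial_index]
  simp

lemma Lam_zero (n : ℕ) : Lam n 0 = 0 := by rw [Lam, Polynomial.sum_zero_index]

lemma Lam_sum {ι : Type*} (n : ℕ) (A : Finset ι) (f : ι → ℚ[X]) : Lam n (∑ a ∈ A, f a) = ∑ a ∈ A, Lam n (f a) := by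
  classical
  induction A using Finset.induction_on with
  | empty => simp [Lam_zero]
  | insert a A ha ih => rw [Finset.sum_insert ha, Finset.sum_insert ha, Lam_add, ih]

lemma Lam_eq {P : ℚ[X]} {N : ℕ} (h : P.natDegree < N) (n : ℕ) :
    Lam n P = ∑ k ∈ Finset.range N, (P.coeff k : ℝ) * Z (n + k) := by
  rw [Lam, Polynomial.sum_over_range' _ _ N h]
  intro k
  simp

/-- the truncated series -/
noncomputable def tp (K : ℕ) (r : ℕ → ℚ) : ℚ[X] := ∑ i ∈ Finset.range K, monomial i (r i)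

lemma tp_coeff (K : ℕ) (r : ℕ → ℚ) (k : ℕ) : (tp K r).coeff k = if k < K then r k else 0 := by
  rw [tp, finsetSum_coeff]
  simp only [coeff_monomial]
  rw [Finset.sum_ite_eq' (Finset.range K) k r]
  simp [Finset.mem_range]

lemma tp_natDegree (K : ℕ) (r : ℕ → ℚ) : (tp K r).natDegree ≤ K - 1 := by
  rw [natDegree_le_iff_coeff_eq_zero]
  intro k hk
  rw [tp_coeff, if_neg (by omega)]

lemma Lam_mul (n K : ℕ) (r s : ℕ → ℚ) : Lam n (tp K r * tp K s) =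
    ∑ i ∈ Finset.range K, (r i : ℝ) * ∑ j ∈ Finset.range K, (s j : ℝ) * Z (n + i + j) := by
  rw [tp, tp, Finset.sum_mul, Lam_sum]
  refine Finset.sum_congr rfl fun i _ => ?_
  rw [Finset.mul_sum, Lam_sum, Finset.mul_sum]
  refine Finset.sum_congr rfl fun j _ => ?_
  rw [monomial_mul_monomial, Lam_monomial, ← add_assoc]
  push_cast
  ring

/-- negligible sequences -/
def Neg (K : ℕ) (f : ℕ → ℝ) : Prop := ∃ C : ℝ, ∀ n, 1 ≤ n → |f n| ≤ C * Z (n + K)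

lemma Neg.add {K : ℕ} {f g : ℕ → ℝ} (hf : Neg K f) (hg : Neg K g) : Neg K fun n => f n + g n := by
  obtain ⟨C, h⟩ := hf
  obtain ⟨D, h'⟩ := hg
  refine ⟨C + D, fun n hn => ?_⟩
  rw [add_mul]
  exact (abs_add_le _ _).trans (add_le_add (h n hn) (h' n hn))

lemma Neg.smul {K : ℕ} {f : ℕ → ℝ} (a : ℝ) (hf : Neg K f) : Neg K fun n => a * f n := by
  obtain ⟨C, h⟩ := hf
  refine ⟨|a| * C, fun n hn => ?_⟩
  rw [abs_mul, mul_assoc]
  exact mul_le_mul_of_nonneg_left (h n hn) (abs_nonneg _)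

lemma Neg.sum {ι : Type*} {K : ℕ} (A : Finset ι) (f : ι → ℕ → ℝ) (h : ∀ a ∈ A, Neg K (f a)) :
    Neg K fun n => ∑ a ∈ A, f a n := by
  classical
  induction A using Finset.induction_on with
  | empty => exact ⟨0, fun n _ => by simp⟩
  | insert a A ha ih =>
    have h1 := (h a (Finset.mem_insert_self _ _)).add (ih fun b hb => h b (Finset.mem_insert_of_mem hb))
    refine (congrArg (Neg K) (funext fun n => ?_)).mp h1
    rw [Finset.sum_insert ha]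

lemma Neg.Zk {K k : ℕ} (h : K ≤ k) : Neg K fun n => Z (n + k) := by
  obtain ⟨t, rfl⟩ := Nat.exists_eq_add_of_le h
  refine ⟨2 ^ t, fun n _ => ?_⟩
  rw [abs_of_nonneg (Z_nonneg _), ← add_assoc]
  exact Z_add_le _ _

lemma Neg.shift {K : ℕ} {f : ℕ → ℝ} (hf : Neg K f) (i : ℕ) : Neg K fun n => f (n + i) := by
  obtain ⟨C, h⟩ := hf
  refine ⟨|C| * 2 ^ i, fun n hn => (h (n + i) (by omega)).trans ?_⟩
  have h1 := Z_add_le (n + K) i
  rw [show n + K + i = n + i + K by ring] at h1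
  calc C * Z (n + i + K) ≤ |C| * Z (n + i + K) := mul_le_mul_of_nonneg_right (le_abs_self _) (Z_nonneg _)
    _ ≤ |C| * (2 ^ i * Z (n + K)) := mul_le_mul_of_nonneg_left h1 (abs_nonneg _)
    _ = _ := by ring

/-- expansions of the tails -/
def ExT (a : List ℕ) (K : ℕ) (r : ℕ → ℚ) : Prop := ∃ C : ℝ, ∀ m : ℕ, 1 ≤ m →
  |T a m - ∑ i ∈ Finset.range K, (r i : ℝ) * T (w2 i) m| ≤ C * (1 / (m : ℝ)) ^ K

/-- expansions of the harmonic sums -/
def ExH (b : List ℕ) (K : ℕ) (s : ℕ → ℚ) : Prop := ∀ m < K,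
  H b m - ∑ i ∈ Finset.range K, (s i : ℝ) * H (w2 i) m = 0

lemma neg_i {b : List ℕ} (hb : ∀ x ∈ b, 2 ≤ x) {K : ℕ} {s : ℕ → ℚ} (h : ExH b K s) :
    Neg K fun n => Vi b n - ∑ j ∈ Finset.range K, (s j : ℝ) * Z (n + j) := by
  obtain ⟨C, hC0, hC⟩ := expand_H_bound (adm_of_ge hb) K s h
  refine ⟨C, fun n hn => ?_⟩
  have s1 : HasSum (fun m : ℕ => (H b m - ∑ i ∈ Finset.range K, (s i : ℝ) * H (w2 i) m) *
      (((m + 1 : ℕ) : ℝ) ^ 2)⁻¹ * T (w2 (n - 1)) (m + 1))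
      (Vi b n - ∑ i ∈ Finset.range K, (s i : ℝ) * Z (n + i)) := by
    have h1 := (hasSum_i hb hn).sub
      (hasSum_sum fun i (_ : i ∈ Finset.range K) => (hasSum_iZ hn i).mul_left (s i : ℝ))
    refine (congrArg (fun f => HasSum f _) (funext fun m => ?_)).mp h1
    rw [sub_mul, sub_mul, Finset.sum_mul, Finset.sum_mul]
    congr 1
    exact Finset.sum_congr rfl fun i _ => by ring
  have s2 := (hasSum_iZ hn K).mul_left C
  have hterm : ∀ m : ℕ, |(H b m - ∑ i ∈ Finset.range K, (s i : ℝ) * H (w2 i) m) *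
      (((m + 1 : ℕ) : ℝ) ^ 2)⁻¹ * T (w2 (n - 1)) (m + 1)| ≤
      C * (H (w2 K) m * (((m + 1 : ℕ) : ℝ) ^ 2)⁻¹ * T (w2 (n - 1)) (m + 1)) := by
    intro m
    have h2 := hC m
    have h3 : 0 ≤ (((m + 1 : ℕ) : ℝ) ^ 2)⁻¹ * T (w2 (n - 1)) (m + 1) :=
      mul_nonneg (by positivity) (T_nonneg (w2_ge _) (by omega))
    rw [mul_assoc, abs_mul, abs_of_nonneg h3]
    calc _ ≤ C * H (w2 K) m * ((((m + 1 : ℕ) : ℝ) ^ 2)⁻¹ * T (w2 (n - 1)) (m + 1)) :=
          mul_le_mul_of_nonneg_right h2 h3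
      _ = _ := by ring
  rw [abs_le]
  constructor
  · exact hasSum_le (fun m => neg_le_of_abs_le (hterm m)) s2.neg s1
  · exact hasSum_le (fun m => le_of_abs_le (hterm m)) s1 s2

lemma neg_o {a b : List ℕ} (ha : ∀ x ∈ a, 2 ≤ x) (hb : ∀ x ∈ b, 2 ≤ x) {K : ℕ} {r : ℕ → ℚ} (h : ExT a K r) :
    Neg K fun n => Vt a b n - ∑ i ∈ Finset.range K, (r i : ℝ) * Vi b (n + i) := by
  obtain ⟨C, hC⟩ := h
  obtain ⟨c, hc, hcl⟩ := T2_lower K
  refine ⟨|C| / c * val b, fun n hn => ?_⟩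
  have s1 : HasSum (fun m : ℕ => H (w2 (n - 1) ++ b) m * (((m + 1 : ℕ) : ℝ) ^ 2)⁻¹ *
      (T a (m + 1) - ∑ i ∈ Finset.range K, (r i : ℝ) * T (w2 i) (m + 1)))
      (Vt a b n - ∑ i ∈ Finset.range K, (r i : ℝ) * Vi b (n + i)) := by
    have h1 := (hasSum_t ha hb hn).sub
      (hasSum_sum fun i (_ : i ∈ Finset.range K) => (hasSum_tZ hb hn i).mul_left (r i : ℝ))
    refine (congrArg (fun f => HasSum f _) (funext fun m => ?_)).mp h1
    rw [mul_sub, Finset.mul_sum]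
    congr 1
    exact Finset.sum_congr rfl fun i _ => by ring
  have s2 := (hasSum_tZ hb hn K).mul_left (|C| / c)
  have hterm : ∀ m : ℕ, |H (w2 (n - 1) ++ b) m * (((m + 1 : ℕ) : ℝ) ^ 2)⁻¹ *
      (T a (m + 1) - ∑ i ∈ Finset.range K, (r i : ℝ) * T (w2 i) (m + 1))| ≤
      |C| / c * (H (w2 (n - 1) ++ b) m * (((m + 1 : ℕ) : ℝ) ^ 2)⁻¹ * T (w2 K) (m + 1)) := by
    intro m
    have h1 := hC (m + 1) (by omega)
    have h2 := hcl (m + 1) (by omega)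
    have h3 : 0 ≤ H (w2 (n - 1) ++ b) m * (((m + 1 : ℕ) : ℝ) ^ 2)⁻¹ := mul_nonneg (H_nonneg _ _) (by positivity)
    rw [abs_mul, abs_of_nonneg h3]
    have h4 : C * (1 / ((m + 1 : ℕ) : ℝ)) ^ K ≤ |C| / c * T (w2 K) (m + 1) := by
      rw [div_mul_eq_mul_div, le_div_iff₀ hc]
      calc C * (1 / ((m + 1 : ℕ) : ℝ)) ^ K * c = C * (c * (1 / ((m + 1 : ℕ) : ℝ)) ^ K) := by ring
        _ ≤ |C| * (c * (1 / ((m + 1 : ℕ) : ℝ)) ^ K) := mul_le_mul_of_nonneg_right (le_abs_self _) (by positivity)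
        _ ≤ |C| * T (w2 K) (m + 1) := mul_le_mul_of_nonneg_left h2 (abs_nonneg _)
    calc _ ≤ H (w2 (n - 1) ++ b) m * (((m + 1 : ℕ) : ℝ) ^ 2)⁻¹ * (|C| / c * T (w2 K) (m + 1)) :=
          mul_le_mul_of_nonneg_left (h1.trans h4) h3
      _ = _ := by ring
  have h5 : |Vt a b n - ∑ i ∈ Finset.range K, (r i : ℝ) * Vi b (n + i)| ≤ |C| / c * Vi b (n + K) := by
    rw [abs_le]
    constructor
    · exact hasSum_le (fun m => neg_le_of_abs_le (hterm m)) s2.neg s1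
    · exact hasSum_le (fun m => le_of_abs_le (hterm m)) s1 s2
  have h6 := (le_abs_self _).trans (Vi_le hb (n := n + K) (by omega))
  calc _ ≤ |C| / c * Vi b (n + K) := h5
    _ ≤ |C| / c * (val b * Z (n + K)) := mul_le_mul_of_nonneg_left h6 (by positivity)
    _ = _ := by ring

/-- **The expansion of `ζ(a 2 ... 2 b)`** -/
theorem expan_two {a b : List ℕ} (ha : ∀ x ∈ a, 2 ≤ x) (hb : ∀ x ∈ b, 2 ≤ x) {K : ℕ} {r s : ℕ → ℚ}
    (hr : ExT a K r) (hs : ExH b K s) :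
    Neg K fun n => Vt a b n - ∑ k ∈ Finset.range K, ((tp K r * tp K s).coeff k : ℝ) * Z (n + k) := by
  have h1 := neg_o ha hb hr
  have h2 : Neg K fun n => ∑ i ∈ Finset.range K, (r i : ℝ) *
      (Vi b (n + i) - ∑ j ∈ Finset.range K, (s j : ℝ) * Z (n + i + j)) :=
    Neg.sum _ _ fun i _ => ((neg_i hb hs).shift i).smul (r i : ℝ)
  have h3 : Neg K fun n => ∑ k ∈ Finset.Ico K (2 * K + 1), ((tp K r * tp K s).coeff k : ℝ) * Z (n + k) :=
    Neg.sum _ _ fun k hk => (Neg.Zk (Finset.mem_Ico.1 hk).1).smul _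
  have h4 := (h1.add h2).add h3
  refine (congrArg (Neg K) (funext fun n => ?_)).mp h4
  have h5 := Lam_mul n K r s
  have hdeg : (tp K r * tp K s).natDegree < 2 * K + 1 := by
    have h6 := natDegree_mul_le (p := tp K r) (q := tp K s)
    have h7 := tp_natDegree K r
    have h8 := tp_natDegree K s
    omega
  rw [Lam_eq hdeg, ← Finset.sum_range_add_sum_Ico _ (by omega : K ≤ 2 * K + 1)] at h5
  have h6 : ∑ i ∈ Finset.range K, (r i : ℝ) * (Vi b (n + i) - ∑ j ∈ Finset.range K, (s j : ℝ) * Z (n + i + j)) =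
      ∑ i ∈ Finset.range K, (r i : ℝ) * Vi b (n + i) -
        ∑ i ∈ Finset.range K, (r i : ℝ) * ∑ j ∈ Finset.range K, (s j : ℝ) * Z (n + i + j) := by
    rw [← Finset.sum_sub_distrib]
    exact Finset.sum_congr rfl fun i _ => by ring
  rw [h6, ← h5]
  ring

end Pool.Agent.L7h24.CS
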