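import Mathlib
import Pool.Agent.L7h24.CS.TwoS

/-!
# The numbers `ζ(u 2 ... 2 b)`, `u ∈ U`, and `ζ(a 2 ... 2 u)`, `u ∈ U`
-/

set_option autoImplicit false

namespace Pool.Agent.L7h24.CS

open Filter Topology Polynomial
open Pool.Agent.H447R2.MZ (H H_nil H_cons H_cons_zero H_cons_succ H_nonneg Adm val tendsto_H H_le_val)

lemma indT {U : Finset (List ℕ)} {E : ℕ} (hE : ∀ c : List ℕ → ℚ,
    (∃ C : ℝ, ∀ m : ℕ, 1 ≤ m → |∑ u ∈ U, (c u : ℝ) * T u m| ≤ C * (1 / (m : ℝ)) ^ E) → ∀ u ∈ U, c u = 0)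
    {K : ℕ} (hK : E ≤ K) {r : List ℕ → ℕ → ℚ} (hr : ∀ u ∈ U, ExT u K (r u)) {q : List ℕ → ℚ}
    (hq : ∀ i < E, ∑ u ∈ U, q u * r u i = 0) : ∀ u ∈ U, q u = 0 := by
  classical
  have hch : ∀ u : List ℕ, ∃ C : ℝ, u ∈ U → ∀ m : ℕ, 1 ≤ m →
      |T u m - ∑ i ∈ Finset.range K, (r u i : ℝ) * T (w2 i) m| ≤ C * (1 / (m : ℝ)) ^ K := by
    intro u
    by_cases hu : u ∈ U
    · obtain ⟨C, h⟩ := hr u hu
      exact ⟨C, fun _ => h⟩
    · exact ⟨0, fun h => absurd h hu⟩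
  choose C hC using hch
  refine hE q ⟨∑ i ∈ Finset.range K, |((∑ u ∈ U, q u * r u i : ℚ) : ℝ)| + ∑ u ∈ U, |(q u : ℝ)| * |C u|,
    fun m hm => ?_⟩
  have h1 : ∑ u ∈ U, (q u : ℝ) * T u m = ∑ i ∈ Finset.range K, ((∑ u ∈ U, q u * r u i : ℚ) : ℝ) * T (w2 i) m +
      ∑ u ∈ U, (q u : ℝ) * (T u m - ∑ i ∈ Finset.range K, (r u i : ℝ) * T (w2 i) m) := by
    have h2 : ∑ i ∈ Finset.range K, ((∑ u ∈ U, q u * r u i : ℚ) : ℝ) * T (w2 i) m =
        ∑ u ∈ U, (q u : ℝ) * ∑ i ∈ Finset.range K, (r u i : ℝ) * T (w2 i) m := by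
      push_cast
      simp only [Finset.sum_mul, Finset.mul_sum]
      rw [Finset.sum_comm]
      exact Finset.sum_congr rfl fun _ _ => Finset.sum_congr rfl fun _ _ => by ring
    rw [h2, ← Finset.sum_add_distrib]
    exact Finset.sum_congr rfl fun u _ => by ring
  rw [h1, add_mul]
  refine (abs_add_le _ _).trans (add_le_add ?_ ?_)
  · rw [Finset.sum_mul]
    refine (Finset.abs_sum_le_sum_abs _ _).trans (Finset.sum_le_sum fun i _ => ?_)
    rw [abs_mul]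
    rcases Nat.lt_or_ge i E with h | h
    · rw [hq i h]
      simp
    · refine mul_le_mul_of_nonneg_left ?_ (abs_nonneg _)
      rw [abs_of_nonneg (T_nonneg (w2_ge i) hm)]
      have h3 := T_le (w2_ge i) hm
      rw [List.length_replicate] at h3
      exact h3.trans (pow_le_pow_of_le_one (x_nonneg m) (x_le_one m) h)
  · rw [Finset.sum_mul]
    refine (Finset.abs_sum_le_sum_abs _ _).trans (Finset.sum_le_sum fun u hu => ?_)
    rw [abs_mul, mul_assoc]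
    refine mul_le_mul_of_nonneg_left ((hC u hu m hm).trans ?_) (abs_nonneg _)
    exact mul_le_mul (le_abs_self _) (pow_le_pow_of_le_one (x_nonneg m) (x_le_one m) hK) (by positivity)
      (abs_nonneg _)

lemma indHs {U : Finset (List ℕ)} {M : ℕ} (hM : ∀ c : List ℕ → ℚ,
    (∀ m ≤ M, ∑ u ∈ U, (c u : ℝ) * H u m = 0) → ∀ u ∈ U, c u = 0)
    {K : ℕ} (hK : M + 1 ≤ K) {s : List ℕ → ℕ → ℚ} (hs : ∀ u ∈ U, ExH u K (s u)) {q : List ℕ → ℚ}
    (hq : ∀ i < M + 1, ∑ u ∈ U, q u * s u i = 0) : ∀ u ∈ U, q u = 0 := by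
  refine hM q fun m hm => ?_
  have h1 : ∑ u ∈ U, (q u : ℝ) * H u m = ∑ i ∈ Finset.range K, ((∑ u ∈ U, q u * s u i : ℚ) : ℝ) * H (w2 i) m +
      ∑ u ∈ U, (q u : ℝ) * (H u m - ∑ i ∈ Finset.range K, (s u i : ℝ) * H (w2 i) m) := by
    have h2 : ∑ i ∈ Finset.range K, ((∑ u ∈ U, q u * s u i : ℚ) : ℝ) * H (w2 i) m =
        ∑ u ∈ U, (q u : ℝ) * ∑ i ∈ Finset.range K, (s u i : ℝ) * H (w2 i) m := by
      push_cast
      simp only [Finset.sum_mul, Finset.mul_sum]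
      rw [Finset.sum_comm]
      exact Finset.sum_congr rfl fun _ _ => Finset.sum_congr rfl fun _ _ => by ring
    rw [h2, ← Finset.sum_add_distrib]
    exact Finset.sum_congr rfl fun u _ => by ring
  rw [h1, Finset.sum_eq_zero fun i _ => ?_, Finset.sum_eq_zero fun u hu => ?_, add_zero]
  · rw [hs u hu m (by omega), mul_zero]
  · rcases Nat.lt_or_ge i (M + 1) with h | h
    · rw [hq i h, Rat.cast_zero, zero_mul]
    · rw [H2_zero (by omega), mul_zero]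

/-- cancelling a factor -/
lemma cancel {S B : ℚ[X]} {E I : ℕ} (hB : ∃ j < I, B.coeff j ≠ 0) (h : ∀ k < E + I, (S * B).coeff k = 0) :
    ∀ i < E, S.coeff i = 0 := by
  intro i hi
  by_contra hne
  obtain ⟨j, hj, hBj⟩ := hB
  have hS0 : S ≠ 0 := fun h0 => hne (by rw [h0, coeff_zero])
  have hB0 : B ≠ 0 := fun h0 => hBj (by rw [h0, coeff_zero])
  have h1 := natTrailingDegree_le_of_ne_zero hne
  have h2 := natTrailingDegree_le_of_ne_zero hBj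
  have h3 := h (S.natTrailingDegree + B.natTrailingDegree) (by omega)
  rw [coeff_mul_natTrailingDegree_add_natTrailingDegree] at h3
  exact mul_ne_zero (trailingCoeff_nonzero_iff_nonzero.2 hS0) (trailingCoeff_nonzero_iff_nonzero.2 hB0) h3

lemma sum_coeff (U : Finset (List ℕ)) (q : List ℕ → ℚ) (K : ℕ) (r : List ℕ → ℕ → ℚ) (i : ℕ) (hi : i < K) :
    (∑ u ∈ U, Polynomial.C (q u) * tp K (r u)).coeff i = ∑ u ∈ U, q u * r u i := by
  rw [finsetSum_coeff]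
  refine Finset.sum_congr rfl fun u _ => ?_
  rw [coeff_C_mul, tp_coeff, if_pos hi]

lemma tp_ne {K I : ℕ} (hI : I ≤ K) {r : ℕ → ℚ} (h : ∃ j < I, r j ≠ 0) : ∃ j < I, (tp K r).coeff j ≠ 0 := by
  obtain ⟨j, hj, hrj⟩ := h
  exact ⟨j, hj, by rw [tp_coeff, if_pos (by omega)]; exact hrj⟩

lemma exH_ne {b : List ℕ} {K : ℕ} (hK : b.length + 1 ≤ K) {s : ℕ → ℚ} (hs : ExH b K s) :
    ∃ j < b.length + 1, s j ≠ 0 := by
  by_contra hcon
  push Not at hcon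
  have h1 := hs b.length (by omega)
  have h2 : 0 < H b b.length := by
    clear h1 hs hcon hK
    induction b with
    | nil => rw [H_nil]; exact one_pos
    | cons a b ih =>
      rw [List.length_cons, H_cons_succ]
      have h1 := H_nonneg (a :: b) b.length
      have h2 : (0 : ℝ) < (((b.length + 1 : ℕ) : ℝ) ^ a)⁻¹ * H b b.length := mul_pos (by positivity) ih
      linarith
  rw [Finset.sum_eq_zero fun i _ => ?_, sub_zero] at h1
  · exact h2.ne' h1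
  · rcases Nat.lt_or_ge i (b.length + 1) with h | h
    · rw [hcon i h, Rat.cast_zero, zero_mul]
    · rw [H2_zero (by omega), mul_zero]

theorem expan_outer' (U : Finset (List ℕ)) (hU : ∀ u ∈ U, ∀ x ∈ u, 2 ≤ x) (b : List ℕ) (hb : ∀ x ∈ b, 2 ≤ x) :
    ∃ I, Expan U (fun u => Vt u b) I := by
  classical
  obtain ⟨E, hE⟩ := order_bdd U hU
  refine ⟨E + (b.length + 1), fun K hK => ?_⟩
  have hch : ∀ u : List ℕ, ∃ r : ℕ → ℚ, u ∈ U → ExT u K r := by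
    intro u
    by_cases hu : u ∈ U
    · obtain ⟨r, C, h⟩ := expand_T (ae_T (hU u hu)) K
      exact ⟨r, fun _ => ⟨C, h⟩⟩
    · exact ⟨fun _ => 0, fun h => absurd h hu⟩
  choose r hr using hch
  obtain ⟨s, hs⟩ := expand_H b K
  have hch2 : ∀ u : List ℕ, ∃ C : ℝ, u ∈ U → ∀ n, 1 ≤ n →
      |Vt u b n - ∑ k ∈ Finset.range K, ((tp K (r u) * tp K s).coeff k : ℝ) * Z (n + k)| ≤ C * Z (n + K) := by
    intro u
    by_cases hu : u ∈ U
    · obtain ⟨C, h⟩ := expan_two (hU u hu) hb (hr u hu) hs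
      exact ⟨C, fun _ => h⟩
    · exact ⟨0, fun h => absurd h hu⟩
  choose C hC using hch2
  refine ⟨fun u k => (tp K (r u) * tp K s).coeff k, ∑ u ∈ U, |C u|, fun u hu n hn => ?_, fun q hq => ?_⟩
  · refine (hC u hu n hn).trans (mul_le_mul_of_nonneg_right ((le_abs_self _).trans ?_) (Z_nonneg _))
    exact Finset.single_le_sum (f := fun u => |C u|) (fun _ _ => abs_nonneg _) hu
  · refine indT hE (by omega) hr (q := q) fun i hi => ?_
    rw [← sum_coeff U q K r i (by omega)]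
    refine cancel (B := tp K s) (E := E) (I := b.length + 1)
      (tp_ne (K := K) (I := b.length + 1) (by omega) (exH_ne (by omega) hs)) (fun k hk => ?_) i hi
    rw [Finset.sum_mul, finsetSum_coeff]
    rw [← hq k hk]
    exact Finset.sum_congr rfl fun u _ => by rw [mul_assoc, coeff_C_mul]

theorem expan_inner' (U : Finset (List ℕ)) (hU : ∀ u ∈ U, ∀ x ∈ u, 2 ≤ x) (a : List ℕ) (ha : ∀ x ∈ a, 2 ≤ x) :
    ∃ I, Expan U (fun u => Vt a u) I := by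
  classical
  obtain ⟨M, hM⟩ := indep_H U hU
  obtain ⟨E, hE⟩ := order_bdd {a} (by simpa using ha)
  refine ⟨M + 1 + E, fun K hK => ?_⟩
  choose s hs using fun u => expand_H u K
  obtain ⟨r, C0, hr0⟩ := expand_T (ae_T ha) K
  have hr : ExT a K r := ⟨C0, hr0⟩
  have hrne : ∃ j < E, r j ≠ 0 := by
    by_contra hcon
    push Not at hcon
    have h1 := indT (U := {a}) hE (by omega : E ≤ K) (r := fun _ => r) (by simpa using hr) (q := fun _ => 1)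
      (fun i hi => by simp [hcon i hi]) a (Finset.mem_singleton_self a)
    exact one_ne_zero h1
  have hch2 : ∀ u : List ℕ, ∃ C : ℝ, u ∈ U → ∀ n, 1 ≤ n →
      |Vt a u n - ∑ k ∈ Finset.range K, ((tp K r * tp K (s u)).coeff k : ℝ) * Z (n + k)| ≤ C * Z (n + K) := by
    intro u
    by_cases hu : u ∈ U
    · obtain ⟨C, h⟩ := expan_two ha (hU u hu) hr (hs u)
      exact ⟨C, fun _ => h⟩
    · exact ⟨0, fun h => absurd h hu⟩
  choose C hC using hch2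
  refine ⟨fun u k => (tp K r * tp K (s u)).coeff k, ∑ u ∈ U, |C u|, fun u hu n hn => ?_, fun q hq => ?_⟩
  · refine (hC u hu n hn).trans (mul_le_mul_of_nonneg_right ((le_abs_self _).trans ?_) (Z_nonneg _))
    exact Finset.single_le_sum (f := fun u => |C u|) (fun _ _ => abs_nonneg _) hu
  · refine indHs hM (by omega) (fun u _ => hs u) (q := q) fun i hi => ?_
    rw [← sum_coeff U q K s i (by omega)]
    refine cancel (B := tp K r) (E := M + 1) (I := E)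
      (tp_ne (K := K) (I := E) (by omega) hrne) (fun k hk => ?_) i hi
    rw [Finset.sum_mul, finsetSum_coeff]
    rw [← hq k hk]
    refine Finset.sum_congr rfl fun u _ => ?_
    rw [mul_assoc, coeff_C_mul, mul_comm (tp K (s u))]

lemma Vt_le {a b : List ℕ} (ha : ∀ x ∈ a, 2 ≤ x) (hb : ∀ x ∈ b, 2 ≤ x) {n : ℕ} (hn : 1 ≤ n) :
    |Vt a b n| ≤ val b * Z n := by
  have h1 := hasSum_t ha hb hn
  have h2 := hasSum_tZ hb hn 0
  rw [add_zero] at h2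
  have h3 : ∀ m : ℕ, 0 ≤ H (w2 (n - 1) ++ b) m * (((m + 1 : ℕ) : ℝ) ^ 2)⁻¹ := fun m =>
    mul_nonneg (H_nonneg _ _) (by positivity)
  rw [abs_of_nonneg (h1.nonneg fun m => mul_nonneg (h3 m) (T_nonneg ha (by omega)))]
  refine (hasSum_le (fun m => mul_le_mul_of_nonneg_left ?_ (h3 m)) h1 h2).trans
    ((le_abs_self _).trans (Vi_le hb hn))
  rw [w2_zero, T_nil (by omega)]
  exact (T_le ha (by omega)).trans (pow_le_one₀ (x_nonneg _) (x_le_one _))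

lemma alg_of {P : ℝ[X]} (h : ∀ k, IsAlgebraic ℚ (P.coeff k)) : Alg P := fun k => mem_algebraicClosure_iff.2 (h k)

theorem outer (U : Finset (List ℕ)) (hU : ∀ u ∈ U, ∀ x ∈ u, 2 ≤ x) (b : List ℕ) (hb : ∀ x ∈ b, 2 ≤ x)
    (J : Finset ℝ) (hJ : ∀ α ∈ J, 0 < α) (p : ℝ → List ℕ → ℝ[X])
    (hp : ∀ α ∈ J, ∀ u ∈ U, ∀ k, IsAlgebraic ℚ ((p α u).coeff k)) (α₀ : ℝ) (hα₀ : α₀ ∈ J)
    (hne : ∃ u ∈ U, p α₀ u ≠ 0) : ∃ B : ℕ, ∀ᶠ n : ℕ in atTop, α₀ ^ n * Z n ≤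
      (n : ℝ) ^ B * |∑ α ∈ J, ∑ u ∈ U, α ^ n * (p α u).eval (n : ℝ) * val (u ++ w2 n ++ b)| := by
  obtain ⟨I, hI⟩ := expan_outer' U hU b hb
  exact expo U (fun u => Vt u b) I hI ⟨val b, fun u hu n hn => Vt_le (hU u hu) hb hn⟩ J hJ p
    (fun α hα u hu => alg_of (hp α hα u hu)) α₀ hα₀ hne

theorem inner (U : Finset (List ℕ)) (hU : ∀ u ∈ U, ∀ x ∈ u, 2 ≤ x) (a : List ℕ) (ha : ∀ x ∈ a, 2 ≤ x)
    (J : Finset ℝ) (hJ : ∀ α ∈ J, 0 < α) (p : ℝ → List ℕ → ℝ[X])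
    (hp : ∀ α ∈ J, ∀ u ∈ U, ∀ k, IsAlgebraic ℚ ((p α u).coeff k)) (α₀ : ℝ) (hα₀ : α₀ ∈ J)
    (hne : ∃ u ∈ U, p α₀ u ≠ 0) : ∃ B : ℕ, ∀ᶠ n : ℕ in atTop, α₀ ^ n * Z n ≤
      (n : ℝ) ^ B * |∑ α ∈ J, ∑ u ∈ U, α ^ n * (p α u).eval (n : ℝ) * val (a ++ w2 n ++ u)| := by
  classical
  obtain ⟨I, hI⟩ := expan_inner' U hU a ha
  refine expo U (fun u => Vt a u) I hI ⟨∑ u ∈ U, val u, fun u hu n hn => ?_⟩ J hJ p
    (fun α hα u hu => alg_of (hp α hα u hu)) α₀ hα₀ hne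
  refine (Vt_le ha (hU u hu) hn).trans (mul_le_mul_of_nonneg_right ?_ (Z_nonneg _))
  exact Finset.single_le_sum (f := fun u => val u)
    (fun v hv => Pool.Agent.Q217.TT.val_nonneg' (adm_of_ge (hU v hv))) hu

end Pool.Agent.L7h24.CS
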